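import Mathlib

/-!
# Polynomial time, NP and co-NP over Mathlib's multi-stack Turing machines: definitions
-/

namespace NPC

open Turing

/-- The alphabet `{0, 1, #}`: `some false` is `0`, `some true` is `1` and `none` is `#`. -/
abbrev Sym := Option Bool

/-- `f` is computable in polynomial time by a multi-stack Turing machine (Mathlib's `FinTM2`), all
of whose alphabets are finite. -/
def PolyTime {α β αΓ βΓ : Type} (ea : α → List αΓ) (eb : β → List βΓ) (f : α → β) : Prop :=
  ∃ M : TM2ComputableInPolyTime ea eb f, ∀ k, Finite (M.tm.Γ k)

/-- A bit string, as a string over the alphabet `{0, 1, #}`. -/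
def encStr (x : List Bool) : List Sym := x.map some

/-- The pair `(x, w)` (input, certificate), written as the string `w # x`. -/
def encPair (p : List Bool × List Bool) : List Sym := p.2.map some ++ none :: p.1.map some

/-- A truth value, as a string. -/
def encBool (b : Bool) : List Sym := [some b]

/-- The class NP: `L` is in NP iff there are a relation `V`, decidable in polynomial time, and a
polynomial `p` such that `V (x, w)` implies `|w| ≤ p (|x|)`, and `x ∈ L` iff `V (x, w)` for
some `w`. -/
def NP : Set (Set (List Bool)) :=
  {L | ∃ (V : List Bool × List Bool → Bool) (p : Polynomial ℕ), PolyTime encPair encBool V ∧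
    (∀ x w, V (x, w) = true → w.length ≤ p.eval x.length) ∧ ∀ x, x ∈ L ↔ ∃ w, V (x, w) = true}

/-- The class co-NP: the languages whose complements are in NP. -/
def coNP : Set (Set (List Bool)) := {L | Lᶜ ∈ NP}

/-- `L` is polynomial-time many-one reducible to `L'`. -/
def Reduces (L L' : Set (List Bool)) : Prop :=
  ∃ f : List Bool → List Bool, PolyTime encStr encStr f ∧ ∀ x, x ∈ L ↔ f x ∈ L'

end NPC
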