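import Pool.Agent.NPC.Micro
import Pool.Agent.OddP.Sat

/-!
# The tableau of a machine as a uniform CNF formula
-/

namespace NPC

open Function

/-- A local literal: offset of the cell, symbol, sign. -/
abbrev LLit := (ℕ × ℕ) × ℕ × Bool

/-- all quadruples of symbols -/
def quads (a : ℕ) : List (ℕ × ℕ × ℕ × ℕ) :=
  (List.range a).flatMap (fun s1 => (List.range a).flatMap (fun s2 =>
    (List.range a).flatMap (fun s3 => (List.range a).map (fun s4 => (s1, s2, s3, s4)))))

theorem length_quads (a : ℕ) : (quads a).length = a * (a * (a * a)) := by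
  simp [quads, List.length_flatMap]

theorem mem_quads {a : ℕ} {q : ℕ × ℕ × ℕ × ℕ} :
    q ∈ quads a ↔ q.1 < a ∧ q.2.1 < a ∧ q.2.2.1 < a ∧ q.2.2.2 < a := by
  obtain ⟨s1, s2, s3, s4⟩ := q
  simp only [quads, List.mem_flatMap, List.mem_range, List.mem_map, Prod.mk.injEq]
  constructor
  · rintro ⟨b1, h1, b2, h2, b3, h3, b4, h4, rfl, rfl, rfl, rfl⟩
    exact ⟨h1, h2, h3, h4⟩
  · rintro ⟨h1, h2, h3, h4⟩
    exact ⟨s1, h1, s2, h2, s3, h3, s4, h4, rfl, rfl, rfl, rfl⟩

/-- number of clauses per cell -/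
def mcl (a : ℕ) : ℕ := 1 + (a + a * (a * (a * a)))

open Classical in
/-- The clauses attached to a cell of class `c`; `al` describes the allowed symbols and `Wr` the
window relation. -/
noncomputable def cellClauses (a : ℕ) (al : Cl → ℕ → Prop) (Wr : ℕ → ℕ → ℕ → ℕ → Prop) (c : Cl) :
    List (List LLit) :=
  (List.range a).map (fun s => ((0, 0), s, true)) ::
  ((List.range a).map (fun s => if al c s then [((0, 0), s, true), ((0, 0), s, false)]
    else [((0, 0), s, false)]) ++
  (quads a).map (fun q => if c.win = true ∧ ¬ Wr q.1 q.2.1 q.2.2.1 q.2.2.2 then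
      [((0, 0), q.1, false), ((0, 1), q.2.1, false), ((0, 2), q.2.2.1, false),
        ((1, 1), q.2.2.2, false)]
    else [((0, 0), q.1, true), ((0, 0), q.1, false)]))

theorem length_cellClauses (a : ℕ) (al : Cl → ℕ → Prop) (Wr : ℕ → ℕ → ℕ → ℕ → Prop) (c : Cl) :
    (cellClauses a al Wr c).length = mcl a := by
  simp only [cellClauses, List.length_cons, List.length_append, List.length_map, List.length_range,
    length_quads, mcl]
  ring

/-- globalisation of a local literal -/
def glob (a R t i : ℕ) (l : LLit) : ℕ × Bool :=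
  (((t + l.1.1) * R + (i + l.1.2)) * a + l.2.1, l.2.2)

/-- The clause number `j` of the cell `(t, i)`. -/
noncomputable def clauseAt (a : ℕ) (al : Cl → ℕ → Prop) (Wr : ℕ → ℕ → ℕ → ℕ → Prop)
    (n1 n3 N : ℕ) (y : List Bool) (t i j : ℕ) : OddP.Clause :=
  ((cellClauses a al Wr (cls n1 n3 N y t i)).getD j []).map (glob a (N + 2) t i)

theorem cls_win {n1 n3 N : ℕ} {y : List Bool} {t i : ℕ} (ht : t < N + 2) (hN : 0 < N)
    (h : (cls n1 n3 N y t i).win = true) : t + 1 < N + 2 ∧ i + 2 < N + 2 := by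
  unfold cls at h
  split_ifs at h <;> first
    | (exact absurd h (by decide))
    | omega

/-- a general description of correct grids over the symbols `0, …, a - 1` -/
def GSolves (a : ℕ) (al : Cl → ℕ → Prop) (Wr : ℕ → ℕ → ℕ → ℕ → Prop) (n1 n3 N : ℕ)
    (y : List Bool) (z : ℕ → ℕ → ℕ) : Prop :=
  ∀ t < N + 2, ∀ i < N + 2, z t i < a ∧ al (cls n1 n3 N y t i) (z t i) ∧
    ((cls n1 n3 N y t i).win = true → Wr (z t i) (z t (i + 1)) (z t (i + 2)) (z (t + 1) (i + 1)))

theorem gsolves_iff (a : ℕ) (al : Cl → ℕ → Prop) (Wr : ℕ → ℕ → ℕ → ℕ → Prop) (n1 n3 N : ℕ)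
    (hN : 0 < N) (y : List Bool) :
    (∃ z, GSolves a al Wr n1 n3 N y z) ↔
      ∃ s : ℕ → Bool, ∀ t < N + 2, ∀ i < N + 2, ∀ C ∈ cellClauses a al Wr (cls n1 n3 N y t i),
        ∃ l ∈ C.map (glob a (N + 2) t i), s l.1 = l.2 := by
  classical
  constructor
  · rintro ⟨z, hz⟩
    obtain ⟨sf, ev⟩ : ∃ sf : ℕ → Bool, ∀ t < N + 2, ∀ i < N + 2, ∀ s < a,
        sf ((t * (N + 2) + i) * a + s) = decide (z t i = s) := by
      refine ⟨fun v => decide (z (v / a / (N + 2)) (v / a % (N + 2)) = v % a), ?_⟩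
      intro t ht i hi s hs
      have h1 : ((t * (N + 2) + i) * a + s) / a = t * (N + 2) + i := by
        rw [Nat.mul_comm _ a, Nat.mul_add_div (by omega), Nat.div_eq_of_lt hs, Nat.add_zero]
      have h2 : ((t * (N + 2) + i) * a + s) % a = s := by
        rw [Nat.mul_comm _ a, Nat.mul_add_mod, Nat.mod_eq_of_lt hs]
      have h3 : (t * (N + 2) + i) / (N + 2) = t := by
        rw [Nat.mul_comm t, Nat.mul_add_div (by omega), Nat.div_eq_of_lt hi, Nat.add_zero]
      have h4 : (t * (N + 2) + i) % (N + 2) = i := by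
        rw [Nat.mul_comm t, Nat.mul_add_mod, Nat.mod_eq_of_lt hi]
      simp only [h1, h2, h3, h4]
    refine ⟨sf, ?_⟩
    intro t ht i hi C hC
    simp only [cellClauses, List.mem_cons, List.mem_append, List.mem_map, List.mem_range] at hC
    rcases hC with rfl | ⟨s, hs, rfl⟩ | ⟨q, hq, rfl⟩
    · refine ⟨glob a (N + 2) t i ((0, 0), z t i, true), ?_, ?_⟩
      · exact List.mem_map.2 ⟨_, List.mem_map.2 ⟨z t i, List.mem_range.2 (hz t ht i hi).1, rfl⟩, rfl⟩
      · simp only [glob, Nat.add_zero]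
        rw [ev t ht i hi _ (hz t ht i hi).1]
        simp
    · split_ifs with h
      · by_cases h2 : z t i = s
        · refine ⟨glob a (N + 2) t i ((0, 0), s, true), by simp, ?_⟩
          simp only [glob, Nat.add_zero]
          rw [ev t ht i hi s hs]
          simpa using h2
        · refine ⟨glob a (N + 2) t i ((0, 0), s, false), by simp, ?_⟩
          simp only [glob, Nat.add_zero]
          rw [ev t ht i hi s hs]
          simpa using h2
      · refine ⟨glob a (N + 2) t i ((0, 0), s, false), by simp, ?_⟩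
        simp only [glob, Nat.add_zero]
        rw [ev t ht i hi s hs]
        simp only [decide_eq_false_iff_not]
        rintro rfl
        exact h (hz t ht i hi).2.1
    · obtain ⟨s1, s2, s3, s4⟩ := q
      obtain ⟨q1, q2, q3, q4⟩ := mem_quads.1 hq
      simp only at q1 q2 q3 q4
      simp only
      split_ifs with h
      · obtain ⟨hw, hWr⟩ := h
        obtain ⟨w1, w2⟩ := cls_win ht hN hw
        have hW := (hz t ht i hi).2.2 hw
        by_cases e1 : z t i = s1
        · by_cases e2 : z t (i + 1) = s2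
          · by_cases e3 : z t (i + 2) = s3
            · by_cases e4 : z (t + 1) (i + 1) = s4
              · exfalso
                rw [e1, e2, e3, e4] at hW
                exact hWr hW
              · refine ⟨glob a (N + 2) t i ((1, 1), s4, false), by simp, ?_⟩
                simp only [glob]
                rw [ev (t + 1) w1 (i + 1) (by omega) s4 q4]
                simpa using e4
            · refine ⟨glob a (N + 2) t i ((0, 2), s3, false), by simp, ?_⟩
              simp only [glob, Nat.add_zero]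
              rw [ev t ht (i + 2) w2 s3 q3]
              simpa using e3
          · refine ⟨glob a (N + 2) t i ((0, 1), s2, false), by simp, ?_⟩
            simp only [glob, Nat.add_zero]
            rw [ev t ht (i + 1) (by omega) s2 q2]
            simpa using e2
        · refine ⟨glob a (N + 2) t i ((0, 0), s1, false), by simp, ?_⟩
          simp only [glob, Nat.add_zero]
          rw [ev t ht i hi s1 q1]
          simpa using e1
      · by_cases h2 : z t i = s1
        · refine ⟨glob a (N + 2) t i ((0, 0), s1, true), by simp, ?_⟩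
          simp only [glob, Nat.add_zero]
          rw [ev t ht i hi s1 q1]
          simpa using h2
        · refine ⟨glob a (N + 2) t i ((0, 0), s1, false), by simp, ?_⟩
          simp only [glob, Nat.add_zero]
          rw [ev t ht i hi s1 q1]
          simpa using h2
  · rintro ⟨s, hs⟩
    -- choose a true symbol in each cell
    have hch : ∀ t i, ∃ b, t < N + 2 → i < N + 2 →
        b < a ∧ s ((t * (N + 2) + i) * a + b) = true := by
      intro t i
      by_cases h : t < N + 2 ∧ i < N + 2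
      · obtain ⟨l, hl, hl2⟩ := hs t h.1 i h.2 ((List.range a).map (fun s => ((0, 0), s, true)))
          (by simp [cellClauses])
        rw [List.mem_map] at hl
        obtain ⟨l', hl', rfl⟩ := hl
        rw [List.mem_map] at hl'
        obtain ⟨b, hb, rfl⟩ := hl'
        rw [List.mem_range] at hb
        simp only [glob, Nat.add_zero] at hl2
        exact ⟨b, fun _ _ => ⟨hb, hl2⟩⟩
      · exact ⟨0, fun h1 h2 => absurd ⟨h1, h2⟩ h⟩
    choose z hz using hch
    refine ⟨z, ?_⟩
    intro t ht i hi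
    obtain ⟨hz1, hz2⟩ := hz t i ht hi
    refine ⟨hz1, ?_, ?_⟩
    · by_contra hcon
      obtain ⟨l, hl, hl2⟩ := hs t ht i hi
        (if al (cls n1 n3 N y t i) (z t i) then
          [((0, 0), z t i, true), ((0, 0), z t i, false)] else [((0, 0), z t i, false)])
        (by
          simp only [cellClauses, List.mem_cons, List.mem_append, List.mem_map, List.mem_range]
          right; left; exact ⟨z t i, hz1, rfl⟩)
      rw [if_neg hcon] at hl
      simp only [List.map_cons, List.map_nil, List.mem_singleton] at hl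
      subst hl
      simp only [glob, Nat.add_zero] at hl2
      rw [hz2] at hl2
      simp at hl2
    · intro hw
      by_contra hcon
      obtain ⟨w1, w2⟩ := cls_win ht hN hw
      obtain ⟨a2, b2⟩ := hz t (i + 1) ht (by omega)
      obtain ⟨a3, b3⟩ := hz t (i + 2) ht w2
      obtain ⟨a4, b4⟩ := hz (t + 1) (i + 1) w1 (by omega)
      obtain ⟨l, hl, hl2⟩ := hs t ht i hi
        (if (cls n1 n3 N y t i).win = true ∧
            ¬ Wr (z t i) (z t (i + 1)) (z t (i + 2)) (z (t + 1) (i + 1)) then
          [((0, 0), z t i, false), ((0, 1), z t (i + 1), false), ((0, 2), z t (i + 2), false),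
            ((1, 1), z (t + 1) (i + 1), false)]
          else [((0, 0), z t i, true), ((0, 0), z t i, false)])
        (by
          simp only [cellClauses, List.mem_cons, List.mem_append, List.mem_map, List.mem_range]
          right; right
          exact ⟨(z t i, z t (i + 1), z t (i + 2), z (t + 1) (i + 1)),
            mem_quads.2 ⟨hz1, a2, a3, a4⟩, rfl⟩)
      rw [if_pos ⟨hw, hcon⟩] at hl
      simp only [List.map_cons, List.map_nil, List.mem_cons, List.not_mem_nil, or_false] at hl
      rcases hl with rfl | rfl | rfl | rfl <;> simp only [glob, Nat.add_zero] at hl2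
      · rw [hz2] at hl2; simp at hl2
      · rw [b2] at hl2; simp at hl2
      · rw [b3] at hl2; simp at hl2
      · rw [b4] at hl2; simp at hl2

/-- Every language in NP is described by correct grids over finitely many symbols. -/
theorem np_grid {L : Set (List Bool)} (hL : L ∈ NP) :
    ∃ (a : ℕ) (al : Cl → ℕ → Prop) (Wr : ℕ → ℕ → ℕ → ℕ → Prop) (P N : Polynomial ℕ),
      ∀ x : List Bool, (x.length + 2 + P.eval (x.length + 1) ≤ N.eval (x.length + 1)) ∧
        (x ∈ L ↔ ∃ z, GSolves a al Wr (x.length + 1)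
          (x.length + 2 + P.eval (x.length + 1)) (N.eval (x.length + 1)) (false :: x.reverse) z) := by
  classical
  obtain ⟨M, hQ, hK, hΓ, q0, k₀, k₁, sy, ac, P, N, h⟩ := np_tableau hL
  haveI := hQ
  haveI := hK
  haveI := hΓ
  haveI : Finite M.Cell := inferInstance
  obtain ⟨a, ⟨e⟩⟩ := Finite.exists_equiv_fin M.Cell
  let dflt : M.Cell := ((q0, fun _ => none), fun _ => none)
  let dec : ℕ → M.Cell := fun s => if h : s < a then e.symm ⟨s, h⟩ else dflt
  have hdec : ∀ c, dec (e c) = c := by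
    intro c
    simp only [dec]
    rw [dif_pos (e c).2]
    exact e.symm_apply_apply c
  refine ⟨a, fun c s => M.allow q0 k₀ k₁ sy ac c (dec s),
    fun s1 s2 s3 s4 => M.W (dec s1) (dec s2) (dec s3) (dec s4), P, N, ?_⟩
  intro x
  obtain ⟨h1, h2⟩ := h x
  refine ⟨h1, ?_⟩
  rw [h2]
  constructor
  · rintro ⟨z, hz⟩
    refine ⟨fun t i => e (z t i), ?_⟩
    intro t ht i hi
    obtain ⟨h3, h4⟩ := hz t ht i hi
    refine ⟨(e (z t i)).2, ?_, ?_⟩
    · simp only [hdec]; exact h3
    · intro hw
      simp only [hdec]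
      exact h4 hw
  · rintro ⟨z, hz⟩
    refine ⟨fun t i => dec (z t i), ?_⟩
    intro t ht i hi
    obtain ⟨-, h3, h4⟩ := hz t ht i hi
    exact ⟨h3, h4⟩

/-- The clauses, numbered. -/
noncomputable def clauses (a : ℕ) (al : Cl → ℕ → Prop) (Wr : ℕ → ℕ → ℕ → ℕ → Prop)
    (n1 n3 N : ℕ) (y : List Bool) (c : ℕ) : OddP.Clause :=
  clauseAt a al Wr n1 n3 N y (c / mcl a / (N + 2)) (c / mcl a % (N + 2)) (c % mcl a)

theorem clauses_eq (a : ℕ) (al : Cl → ℕ → Prop) (Wr : ℕ → ℕ → ℕ → ℕ → Prop)
    (n1 n3 N : ℕ) (y : List Bool) (t i j : ℕ) (hi : i < N + 2) (hj : j < mcl a) :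
    clauses a al Wr n1 n3 N y ((t * (N + 2) + i) * mcl a + j) =
      clauseAt a al Wr n1 n3 N y t i j := by
  have h1 : ((t * (N + 2) + i) * mcl a + j) / mcl a = t * (N + 2) + i := by
    rw [Nat.mul_comm _ (mcl a), Nat.mul_add_div (by omega), Nat.div_eq_of_lt hj, Nat.add_zero]
  have h2 : ((t * (N + 2) + i) * mcl a + j) % mcl a = j := by
    rw [Nat.mul_comm _ (mcl a), Nat.mul_add_mod, Nat.mod_eq_of_lt hj]
  have h3 : (t * (N + 2) + i) / (N + 2) = t := by
    rw [Nat.mul_comm t, Nat.mul_add_div (by omega), Nat.div_eq_of_lt hi, Nat.add_zero]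
  have h4 : (t * (N + 2) + i) % (N + 2) = i := by
    rw [Nat.mul_comm t, Nat.mul_add_mod, Nat.mod_eq_of_lt hi]
  rw [clauses, h1, h2, h3, h4]

theorem index_surj {R m c : ℕ} (hc : c < R * R * m) :
    ∃ t < R, ∃ i < R, ∃ j < m, c = (t * R + i) * m + j := by
  have hm : 0 < m := by
    rcases Nat.eq_zero_or_pos m with h | h
    · rw [h] at hc; omega
    · exact h
  have hR : 0 < R := by
    rcases Nat.eq_zero_or_pos R with h | h
    · rw [h] at hc; simp at hc
    · exact h
  refine ⟨c / m / R, ?_, c / m % R, Nat.mod_lt _ hR, c % m, Nat.mod_lt _ hm, ?_⟩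
  · rw [Nat.div_lt_iff_lt_mul hR, Nat.div_lt_iff_lt_mul hm]
    exact hc
  · have h1 := Nat.div_add_mod (c / m) R
    have h2 := Nat.div_add_mod c m
    rw [Nat.mul_comm (c / m / R) R, h1, Nat.mul_comm (c / m) m, h2]

/-- number of variables -/
def nV (a N : ℕ) : ℕ := (N + 2) * (N + 2) * a

/-- number of clauses -/
def nM (a N : ℕ) : ℕ := (N + 2) * (N + 2) * mcl a

theorem cellClauses_sym {a : ℕ} {al : Cl → ℕ → Prop} {Wr : ℕ → ℕ → ℕ → ℕ → Prop} {c : Cl}
    {C : List LLit} (hC : C ∈ cellClauses a al Wr c) {l : LLit} (hl : l ∈ C) :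
    l.2.1 < a ∧ (l.1 = (0, 0) ∨ (c.win = true ∧ l.1.1 ≤ 1 ∧ l.1.2 ≤ 2)) := by
  classical
  simp only [cellClauses, List.mem_cons, List.mem_append, List.mem_map, List.mem_range] at hC
  rcases hC with rfl | ⟨s, hs, rfl⟩ | ⟨q, hq, rfl⟩
  · rw [List.mem_map] at hl
    obtain ⟨s, hs, rfl⟩ := hl
    exact ⟨List.mem_range.1 hs, Or.inl rfl⟩
  · split_ifs at hl
    · simp only [List.mem_cons, List.not_mem_nil, or_false] at hl
      rcases hl with rfl | rfl <;> exact ⟨hs, Or.inl rfl⟩
    · simp only [List.mem_cons, List.not_mem_nil, or_false] at hl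
      subst hl; exact ⟨hs, Or.inl rfl⟩
  · obtain ⟨q1, q2, q3, q4⟩ := mem_quads.1 hq
    split_ifs at hl with h
    · simp only [List.mem_cons, List.not_mem_nil, or_false] at hl
      rcases hl with rfl | rfl | rfl | rfl
      · exact ⟨q1, Or.inl rfl⟩
      · exact ⟨q2, Or.inr ⟨h.1, by simp, by simp⟩⟩
      · exact ⟨q3, Or.inr ⟨h.1, by simp, by simp⟩⟩
      · exact ⟨q4, Or.inr ⟨h.1, by simp, by simp⟩⟩
    · simp only [List.mem_cons, List.not_mem_nil, or_false] at hl
      rcases hl with rfl | rfl <;> exact ⟨q1, Or.inl rfl⟩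

theorem var_lt {R a t i s : ℕ} (ht : t < R) (hi : i < R) (hs : s < a) :
    (t * R + i) * a + s < R * R * a := by
  have h1 : t * R + i + 1 ≤ R * R := by
    calc t * R + i + 1 ≤ t * R + R := by omega
      _ = (t + 1) * R := by ring
      _ ≤ R * R := Nat.mul_le_mul_right _ ht
  calc (t * R + i) * a + s < (t * R + i) * a + a := by omega
    _ = (t * R + i + 1) * a := by ring
    _ ≤ R * R * a := Nat.mul_le_mul_right _ h1

theorem clauses_lt (a : ℕ) (al : Cl → ℕ → Prop) (Wr : ℕ → ℕ → ℕ → ℕ → Prop)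
    (n1 n3 N : ℕ) (hN : 0 < N) (y : List Bool) :
    ∀ c < nM a N, ∀ l ∈ clauses a al Wr n1 n3 N y c, l.1 < nV a N := by
  intro c hc l hl
  obtain ⟨t, ht, i, hi, j, hj, rfl⟩ := index_surj hc
  rw [clauses_eq a al Wr n1 n3 N y t i j hi hj, clauseAt, List.mem_map] at hl
  obtain ⟨l', hl', rfl⟩ := hl
  have hj' : j < (cellClauses a al Wr (cls n1 n3 N y t i)).length := by
    rw [length_cellClauses]; exact hj
  rw [List.getD_eq_getElem _ _ hj'] at hl'
  obtain ⟨h1, h2⟩ := cellClauses_sym (List.getElem_mem hj') hl'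
  simp only [glob, nV]
  rcases h2 with h2 | ⟨hw, h2, h3⟩
  · rw [h2]
    exact var_lt ht hi h1
  · obtain ⟨w1, w2⟩ := cls_win ht hN hw
    exact var_lt (by omega) (by omega) h1

/-- The instance of ODD-PATHS of a grid problem. -/
noncomputable def gridInst (a : ℕ) (al : Cl → ℕ → Prop) (Wr : ℕ → ℕ → ℕ → ℕ → Prop)
    (n1 n3 N : ℕ) (y : List Bool) : OddP.Inst OddP.Vx :=
  OddP.satInst (nV a N) (nM a N) (clauses a al Wr n1 n3 N y)

theorem gridInst_yes_iff (a : ℕ) (al : Cl → ℕ → Prop) (Wr : ℕ → ℕ → ℕ → ℕ → Prop)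
    (n1 n3 N : ℕ) (hN : 0 < N) (y : List Bool) :
    (gridInst a al Wr n1 n3 N y).Yes ↔ ∃ z, GSolves a al Wr n1 n3 N y z := by
  rw [gridInst, OddP.satInst_yes_iff _ _ _ (clauses_lt a al Wr n1 n3 N hN y),
    gsolves_iff a al Wr n1 n3 N hN y]
  constructor
  · rintro ⟨s, hs⟩
    refine ⟨s, ?_⟩
    intro t ht i hi C hC
    obtain ⟨j, hj, rfl⟩ := List.mem_iff_getElem.1 hC
    have hj' : j < mcl a := by rwa [length_cellClauses] at hj
    have := hs ((t * (N + 2) + i) * mcl a + j) (var_lt ht hi hj')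
    rw [clauses_eq a al Wr n1 n3 N y t i j hi hj', clauseAt, List.getD_eq_getElem _ _ hj] at this
    exact this
  · rintro ⟨s, hs⟩
    refine ⟨s, ?_⟩
    intro c hc
    obtain ⟨t, ht, i, hi, j, hj, rfl⟩ := index_surj hc
    have hj' : j < (cellClauses a al Wr (cls n1 n3 N y t i)).length := by
      rw [length_cellClauses]; exact hj
    rw [clauses_eq a al Wr n1 n3 N y t i j hi hj, clauseAt, List.getD_eq_getElem _ _ hj']
    exact hs t ht i hi _ (List.getElem_mem hj')

end NPC
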