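import Pool.Agent.NPC.Classes

/-!
# Emitter programs define polynomial-time functions
-/

namespace NPC

open Turing Function Key

theorem eval_mono (P : Polynomial ℕ) {a b : ℕ} (h : a ≤ b) : P.eval a ≤ P.eval b := by
  rw [Polynomial.eval_eq_sum, Polynomial.eval_eq_sum]
  exact Finset.sum_le_sum (fun i _ => Nat.mul_le_mul_left _ (Nat.pow_le_pow_left h i))

/-- The input list seen by an emitter program: the reversed input, preceded by a dummy bit. -/
def prep (x : List Bool) : List Bool := false :: x.reverse

/-- The initial values of the variables: variable `0` is `|x| + 1`. -/
def v0 (x : List Bool) : ℕ → ℕ := update (fun _ => 0) 0 (x.length + 1)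

/-- The function defined by an emitter program. -/
def Em.fn (e : Em) (x : List Bool) : List Bool := e.eval (prep x) 1 (v0 x)

/-- The middle part: set up the counter `0` and run `e`. -/
def mid (e : Em) : Prog Key :=
  .seq (.push inp (fun _ => some false)) (.seq (copy tmp inp (C 0)) (e.comp 1 out))

theorem run_mid (e : Em) (x : List Bool) (S : Stk Key) (hinp : S inp = x.reverse.map some)
    (hz : ∀ k, k ≠ inp → k ≠ wit → S k = []) (r : Reg) :
    ∃ r' c, Run (mid e) r S r' (update (update (update S inp ((prep x).map some)) (C 0)
      (List.replicate (x.length + 1) one)) out (((e.fn x).map some).reverse)) c ∧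
      c ≤ e.costP.eval (x.length + 1) + 5 * (x.length + 1) + 3 := by
  have s1 := Run.push inp (fun _ => some false) r S
  rw [hinp] at s1
  have e0 : (some false :: x.reverse.map some) = (prep x).map some := rfl
  simp only [e0] at s1
  set S1 := update S inp ((prep x).map some) with hS1
  have hl : (S1 inp).length = x.length + 1 := by
    rw [hS1, update_self, List.length_map, prep, List.length_cons, List.length_reverse]
  have s2 := run_copy inp tmp (C 0) (by simp) (by simp) (by simp) r S1
    (by rw [hS1, update_of_ne (by simp)]; exact hz _ (by simp) (by simp))
  have hC : S1 (C 0) = [] := by rw [hS1, update_of_ne (by simp)]; exact hz _ (by simp) (by simp)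
  rw [hl, hC, List.append_nil] at s2
  set S2 := update S1 (C 0) (List.replicate (x.length + 1) one) with hS2
  have hI : Inv (prep x) 1 (v0 x) S2 := by
    refine ⟨?_, ?_, ?_, ?_, ?_, ?_, ?_⟩
    · rw [hS2, update_of_ne (by simp), hS1, update_self]
    · rw [hS2, update_of_ne (by simp), hS1, update_of_ne (by simp)]
      exact hz _ (by simp) (by simp)
    · rw [hS2, update_of_ne (by simp), hS1, update_of_ne (by simp)]
      exact hz _ (by simp) (by simp)
    · intro m
      by_cases hm : m = 0
      · subst hm; rw [hS2, update_self, v0, update_self, List.length_replicate]
      · rw [hS2, update_of_ne (by simpa using hm), hS1, update_of_ne (by simp), v0,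
          update_of_ne hm, hz _ (by simp) (by simp)]
        rfl
    · intro m hm
      rw [v0, update_of_ne (by omega)]
    · intro m hm
      rw [hS2, update_of_ne (by simp), hS1, update_of_ne (by simp)]
      exact hz _ (by simp) (by simp)
    · intro m hm
      rw [hS2, update_of_ne (by simp), hS1, update_of_ne (by simp)]
      exact hz _ (by simp) (by simp)
  obtain ⟨r3, c3, s3, hc3⟩ := comp_run (prep x) e 1 out (Or.inl rfl) (v0 x) S2 hI (x.length + 1)
    (by rw [prep, List.length_cons, List.length_reverse]) (by
      intro m
      by_cases hm : m = 0
      · subst hm; rw [v0, update_self]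
      · rw [v0, update_of_ne hm]; omega) (none, r.2)
  have hout : S2 out = [] := by
    rw [hS2, update_of_ne (by simp), hS1, update_of_ne (by simp)]
    exact hz _ (by simp) (by simp)
  rw [hout, List.append_nil] at s3
  refine ⟨r3, _, Run.seq s1 (Run.seq s2 s3), ?_⟩
  omega

/-- The final part: erase everything but the output. -/
def fin0 : Prog Key := .seq (clear inp) (.seq (clear (C 0)) (.load (fun _ => (none, false))))

theorem run_fin0 (S : Stk Key) (r : Reg) :
    Run fin0 r S (none, false) (update (update S inp []) (C 0) [])
      (2 * (S inp).length + 1 + (2 * (S (C 0)).length + 1 + 1)) := by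
  have s1 := run_clear inp (S inp) r S rfl
  have s2 := run_clear (C 0) (S (C 0)) (none, r.2) (update S inp []) (by
    rw [update_of_ne (by simp)])
  exact Run.seq s1 (Run.seq s2 (Run.load _ _ _))

/-- The program computing `e.fn`. -/
def prog1 (e : Em) : Prog Key :=
  .seq (move aux inp) (.seq (mid e) (.seq (move out res) fin0))

theorem polyTime_em (e : Em) : PolyTime encStr encStr e.fn := by
  refine polyTime_of_run encStr encStr e.fn (prog1 e) aux res
    (e.costP.comp (Polynomial.X + 1) + 2 * (e.lenP.comp (Polynomial.X + 1)) +
      12 * Polynomial.X + 20) ?_
  intro x
  have hx : (encStr x).length = x.length := by simp [encStr]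
  have s1 := run_move aux inp (by simp) (encStr x) (none, false)
    (update (fun _ => []) aux (encStr x)) (by rw [update_self])
  rw [hx] at s1
  set S1 := update (update (update (fun _ => []) aux (encStr x)) aux []) inp
    ((encStr x).reverse ++ (update (fun _ => []) aux (encStr x)) inp) with hS1
  have hS1' : S1 = update (fun _ => []) inp (x.reverse.map some) := by
    funext k
    by_cases hk : k = inp
    · subst hk
      rw [hS1, update_self, update_self, update_of_ne (by simp), List.append_nil, encStr,
        List.map_reverse]
    · rw [hS1, update_of_ne hk, update_of_ne hk]
      by_cases hk2 : k = aux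
      · subst hk2; rw [update_self]
      · rw [update_of_ne hk2, update_of_ne hk2]
  obtain ⟨r2, c2, s2, hc2⟩ := run_mid e x S1 (by rw [hS1', update_self])
    (by intro k hk _; rw [hS1', update_of_ne hk]) (none, (none, false).2)
  set S2 := (update (update (update S1 inp ((prep x).map some)) (C 0)
      (List.replicate (x.length + 1) one)) out (((e.fn x).map some).reverse)) with hS2
  have hout : S2 out = ((e.fn x).map some).reverse := by rw [hS2, update_self]
  have s3 := run_move out res (by simp) _ r2 S2 hout
  rw [List.length_reverse, List.length_map, List.reverse_reverse] at s3
  set S3 := update (update S2 out []) res ((e.fn x).map some ++ S2 res) with hS3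
  have s4 := run_fin0 S3 (none, r2.2)
  have hfin : update (update S3 inp []) (C 0) [] = update (fun _ => []) res (encStr (e.fn x)) := by
    funext k
    by_cases hk : k = res
    · subst hk
      rw [update_of_ne (by simp), update_of_ne (by simp), hS3, update_self, update_self, hS2,
        update_of_ne (by simp), update_of_ne (by simp), update_of_ne (by simp), hS1',
        update_of_ne (by simp), List.append_nil]
      rfl
    · rw [update_of_ne hk]
      by_cases h1 : k = C 0
      · subst h1; rw [update_self]
      · rw [update_of_ne h1]
        by_cases h2 : k = inp
        · subst h2; rw [update_self]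
        · rw [update_of_ne h2, hS3, update_of_ne hk]
          by_cases h3 : k = out
          · subst h3; rw [update_self]
          · rw [update_of_ne h3, hS2, update_of_ne h3, update_of_ne h1, update_of_ne h2, hS1',
              update_of_ne h2]
  rw [hfin] at s4
  have hlen : (e.fn x).length ≤ e.lenP.eval (x.length + 1) := by
    apply Em.length_eval_le
    intro m
    by_cases hm : m = 0
    · subst hm; rw [v0, update_self]
    · rw [v0, update_of_ne hm]; omega
  have h5 : (S3 inp).length = x.length + 1 := by
    rw [hS3, update_of_ne (by simp), update_of_ne (by simp), hS2, update_of_ne (by simp),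
      update_of_ne (by simp), update_self, List.length_map, prep, List.length_cons,
      List.length_reverse]
  have h6 : (S3 (C 0)).length = x.length + 1 := by
    rw [hS3, update_of_ne (by simp), update_of_ne (by simp), hS2, update_of_ne (by simp),
      update_self, List.length_replicate]
  rw [h5, h6] at s4
  refine ⟨_, ?_, Run.seq s1 (Run.seq s2 (Run.seq s3 s4))⟩
  rw [hx]
  simp only [Polynomial.eval_add, Polynomial.eval_mul, Polynomial.eval_X, Polynomial.eval_ofNat,
    Polynomial.eval_comp, Polynomial.eval_one]
  omega

/-- Splitting of the pair. -/
def split : Prog Key :=
  .whil aux (.ite (fun r => r.2) (pushr inp)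
    (.ite (fun r => decide (r.1 = some none)) (.load (fun r => (r.1, true))) (pushr wit)))

theorem run_split2 : ∀ (l : List Sym) (S : Stk Key) (o : Option Sym), S aux = l → ∃ c ≤ 3 * l.length + 1,
    Run split (o, true) S (none, true) (update (update S aux []) inp (l.reverse ++ S inp)) c := by
  intro l
  induction l with
  | nil =>
    intro S o h
    refine ⟨1, by simp, ?_⟩
    have e1 : update (update S aux []) inp (([] : List Sym).reverse ++ S inp) = S := by
      funext k
      by_cases hk : k = inp
      · subst hk; simp
      · rw [update_of_ne hk]
        by_cases hk2 : k = aux
        · subst hk2; rw [update_self, h]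
        · rw [update_of_ne hk2]
    rw [e1]
    exact Run.whilE h
  | cons a l ih =>
    intro S o h
    have s1 := run_pushr inp (some a, true) (update S aux l)
    have hs : (update S aux l) inp = S inp := update_of_ne (by simp) _ _
    rw [hs] at s1
    have s2 : Run (.ite (fun r => r.2) (pushr inp)
      (.ite (fun r => decide (r.1 = some none)) (.load (fun r => (r.1, true))) (pushr wit)))
      (some a, true) (update S aux l) _ _ (1 + 1) := Run.iteT rfl s1
    obtain ⟨c3, hc3, s3⟩ := ih (update (update S aux l) inp (a :: S inp)) (some a) (by
      rw [update_of_ne (by simp), update_self])
    have s4 : Run split (o, true) S (none, true)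
        (update (update S aux []) inp ((a :: l).reverse ++ S inp)) (1 + 1 + c3 + 1) :=
      Run.whilS (r := (o, true)) h s2 (by
      have e1 : update (update (update (update S aux l) inp (a :: S inp)) aux []) inp
          (l.reverse ++ (update (update S aux l) inp (a :: S inp)) inp) =
          update (update S aux []) inp ((a :: l).reverse ++ S inp) := by
        funext k
        by_cases hk : k = inp
        · subst hk; rw [update_self, update_self, update_self]; simp
        · rw [update_of_ne hk, update_of_ne hk]
          by_cases hk2 : k = aux
          · subst hk2; rw [update_self, update_self]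
          · rw [update_of_ne hk2, update_of_ne hk2, update_of_ne hk, update_of_ne hk2]
      rw [e1] at s3
      exact s3)
    exact ⟨_, by rw [List.length_cons]; omega, s4⟩

theorem run_split1 (x : List Sym) : ∀ (w : List Bool) (S : Stk Key) (o : Option Sym),
    S aux = w.map some ++ none :: x → ∃ c ≤ 4 * (w.length + x.length + 1) + 1,
    Run split (o, false) S (none, true) (update (update (update S aux []) inp (x.reverse ++ S inp))
      wit ((w.map some).reverse ++ S wit)) c := by
  intro w
  induction w with
  | nil =>
    intro S o h
    have s1 : Run (.load (fun r => (r.1, true))) (some none, false) (update S aux x)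
      (some none, true) (update S aux x) 1 := Run.load _ _ _
    have s2 : Run (.ite (fun r => r.2) (pushr inp)
      (.ite (fun r => decide (r.1 = some none)) (.load (fun r => (r.1, true))) (pushr wit)))
      (some none, false) (update S aux x) (some none, true) (update S aux x) (1 + 1 + 1) :=
      Run.iteF rfl (Run.iteT (by simp) s1)
    obtain ⟨c3, hc3, s3⟩ := run_split2 x (update S aux x) (some none) (by rw [update_self])
    have s4 : Run split (o, false) S (none, true) (update (update (update S aux []) inp
      (x.reverse ++ S inp)) wit ((([] : List Bool).map some).reverse ++ S wit))
        (1 + 1 + 1 + c3 + 1) := Run.whilS (r := (o, false)) h s2 (by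
      have e1 : update (update (update S aux x) aux []) inp
          (x.reverse ++ (update S aux x) inp) =
          update (update (update S aux []) inp (x.reverse ++ S inp)) wit
            ((([] : List Bool).map some).reverse ++ S wit) := by
        funext k
        by_cases hk : k = wit
        · subst hk
          rw [update_self, update_of_ne (by simp), update_of_ne (by simp), update_of_ne (by simp)]
          simp
        · rw [update_of_ne hk]
          by_cases hk1 : k = inp
          · subst hk1; rw [update_self, update_self, update_of_ne (by simp)]
          · rw [update_of_ne hk1, update_of_ne hk1]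
            by_cases hk2 : k = aux
            · subst hk2; rw [update_self, update_self]
            · rw [update_of_ne hk2, update_of_ne hk2, update_of_ne hk2]
      rw [e1] at s3
      exact s3)
    exact ⟨_, by simp only [List.length_nil]; omega, s4⟩
  | cons b w ih =>
    intro S o h
    have h' : S aux = some b :: (w.map some ++ none :: x) := by rw [h]; rfl
    have s1 := run_pushr wit (some (some b), false) (update S aux (w.map some ++ none :: x))
    have hs : (update S aux (w.map some ++ none :: x)) wit = S wit := update_of_ne (by simp) _ _
    rw [hs] at s1
    have s2 : Run (.ite (fun r => r.2) (pushr inp)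
      (.ite (fun r => decide (r.1 = some none)) (.load (fun r => (r.1, true))) (pushr wit)))
      (some (some b), false) (update S aux (w.map some ++ none :: x)) _ _ (1 + 1 + 1) :=
      Run.iteF rfl (Run.iteF (by simp) s1)
    obtain ⟨c3, hc3, s3⟩ := ih (update (update S aux (w.map some ++ none :: x)) wit
      (some b :: S wit)) (some (some b)) (by
      rw [update_of_ne (by simp), update_self])
    have s4 : Run split (o, false) S (none, true) (update (update (update S aux []) inp
      (x.reverse ++ S inp)) wit (((b :: w).map some).reverse ++ S wit))
        (1 + 1 + 1 + c3 + 1) := Run.whilS (r := (o, false)) h' s2 (by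
      have e1 : update (update (update (update (update S aux (w.map some ++ none :: x)) wit
          (some b :: S wit)) aux []) inp (x.reverse ++ (update (update S aux
          (w.map some ++ none :: x)) wit (some b :: S wit)) inp)) wit
          ((w.map some).reverse ++ (update (update S aux (w.map some ++ none :: x)) wit
          (some b :: S wit)) wit) =
          update (update (update S aux []) inp (x.reverse ++ S inp)) wit
            (((b :: w).map some).reverse ++ S wit) := by
        funext k
        by_cases hk : k = wit
        · subst hk
          rw [update_self, update_self, update_self]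
          simp
        · rw [update_of_ne hk, update_of_ne hk]
          by_cases hk1 : k = inp
          · subst hk1; rw [update_self, update_self, update_of_ne (by simp),
              update_of_ne (by simp)]
          · rw [update_of_ne hk1, update_of_ne hk1]
            by_cases hk2 : k = aux
            · subst hk2; rw [update_self, update_self]
            · rw [update_of_ne hk2, update_of_ne hk2, update_of_ne hk, update_of_ne hk2]
      rw [e1] at s3
      exact s3)
    exact ⟨_, by simp only [List.length_cons]; omega, s4⟩

/-- The program computing `(x, w) ↦ (e.fn x, w)`. -/
def prog2 (e : Em) : Prog Key :=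
  .seq split (.seq (mid e) (.seq (move out res) (.seq (.push res (fun _ => none))
    (.seq (move wit res) fin0))))

theorem polyTime_em_pair (e : Em) : PolyTime encPair encPair (fun p => (e.fn p.1, p.2)) := by
  refine polyTime_of_run encPair encPair (fun p => (e.fn p.1, p.2)) (prog2 e) aux res
    (e.costP.comp (Polynomial.X + 1) + 2 * (e.lenP.comp (Polynomial.X + 1)) +
      20 * Polynomial.X + 40) ?_
  rintro ⟨x, w⟩
  have hx : (encPair (x, w)).length = w.length + x.length + 1 := by
    simp [encPair]; ring
  obtain ⟨c1, hc1, s1⟩ := run_split1 (x.map some) w (update (fun _ => []) aux (encPair (x, w))) none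
    (by rw [update_self]; rfl)
  rw [List.length_map] at hc1
  set S1 := (update (update (update (update (fun _ => []) aux (encPair (x, w))) aux []) inp
    ((x.map some).reverse ++ (update (fun _ => []) aux (encPair (x, w))) inp))
      wit ((w.map some).reverse ++ (update (fun _ => []) aux (encPair (x, w))) wit)) with hS1
  have hS1' : S1 = update (update (fun _ => []) inp (x.reverse.map some)) wit
      (w.map some).reverse := by
    funext k
    by_cases hk : k = wit
    · subst hk
      rw [hS1, update_self, update_self, update_of_ne (by simp), List.append_nil]
    · rw [hS1, update_of_ne hk, update_of_ne hk]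
      by_cases hk1 : k = inp
      · subst hk1
        rw [update_self, update_self, update_of_ne (by simp), List.append_nil, List.map_reverse]
      · rw [update_of_ne hk1, update_of_ne hk1]
        by_cases hk2 : k = aux
        · subst hk2; rw [update_self]
        · rw [update_of_ne hk2, update_of_ne hk2]
  obtain ⟨r2, c2, s2, hc2⟩ := run_mid e x S1 (by rw [hS1', update_of_ne (by simp), update_self])
    (by intro k hk hk'; rw [hS1', update_of_ne hk', update_of_ne hk]) (none, true)
  set S2 := (update (update (update S1 inp ((prep x).map some)) (C 0)
      (List.replicate (x.length + 1) one)) out (((e.fn x).map some).reverse)) with hS2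
  have hout : S2 out = ((e.fn x).map some).reverse := by rw [hS2, update_self]
  have s3 := run_move out res (by simp) _ r2 S2 hout
  rw [List.length_reverse, List.length_map, List.reverse_reverse] at s3
  have hres : S2 res = [] := by
    rw [hS2, update_of_ne (by simp), update_of_ne (by simp), update_of_ne (by simp), hS1',
      update_of_ne (by simp), update_of_ne (by simp)]
  rw [hres, List.append_nil] at s3
  set S3 := update (update S2 out []) res ((e.fn x).map some) with hS3
  have s4 := Run.push res (fun _ => none) (none, r2.2) S3
  have hres3 : S3 res = (e.fn x).map some := by rw [hS3, update_self]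
  rw [hres3] at s4
  set S4 := update S3 res (none :: (e.fn x).map some) with hS4
  have hwit : S4 wit = (w.map some).reverse := by
    rw [hS4, update_of_ne (by simp), hS3, update_of_ne (by simp), update_of_ne (by simp), hS2,
      update_of_ne (by simp), update_of_ne (by simp), update_of_ne (by simp), hS1', update_self]
  have s5 := run_move wit res (by simp) _ (none, r2.2) S4 hwit
  have hres4 : S4 res = none :: (e.fn x).map some := by rw [hS4, update_self]
  rw [List.length_reverse, List.length_map, List.reverse_reverse, hres4] at s5
  set S5 := update (update S4 wit []) res (w.map some ++ none :: (e.fn x).map some) with hS5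
  have s6 := run_fin0 S5 (none, r2.2)
  have hfin : update (update S5 inp []) (C 0) [] =
      update (fun _ => []) res (encPair (e.fn x, w)) := by
    funext k
    by_cases hk : k = res
    · subst hk
      rw [update_of_ne (by simp), update_of_ne (by simp), hS5, update_self, update_self]
      rfl
    · rw [update_of_ne hk]
      by_cases h1 : k = C 0
      · subst h1; rw [update_self]
      · rw [update_of_ne h1]
        by_cases h2 : k = inp
        · subst h2; rw [update_self]
        · rw [update_of_ne h2, hS5, update_of_ne hk]
          by_cases h3 : k = wit
          · subst h3; rw [update_self]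
          · rw [update_of_ne h3, hS4, update_of_ne hk, hS3, update_of_ne hk]
            by_cases h4 : k = out
            · subst h4; rw [update_self]
            · rw [update_of_ne h4, hS2, update_of_ne h4, update_of_ne h1, update_of_ne h2, hS1',
                update_of_ne h3, update_of_ne h2]
  rw [hfin] at s6
  have hlen : (e.fn x).length ≤ e.lenP.eval (x.length + 1) := by
    apply Em.length_eval_le
    intro m
    by_cases hm : m = 0
    · subst hm; rw [v0, update_self]
    · rw [v0, update_of_ne hm]; omega
  have h5 : (S5 inp).length = x.length + 1 := by
    rw [hS5, update_of_ne (by simp), update_of_ne (by simp), hS4, update_of_ne (by simp), hS3,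
      update_of_ne (by simp), update_of_ne (by simp), hS2, update_of_ne (by simp),
      update_of_ne (by simp), update_self, List.length_map, prep, List.length_cons,
      List.length_reverse]
  have h6 : (S5 (C 0)).length = x.length + 1 := by
    rw [hS5, update_of_ne (by simp), update_of_ne (by simp), hS4, update_of_ne (by simp), hS3,
      update_of_ne (by simp), update_of_ne (by simp), hS2, update_of_ne (by simp),
      update_self, List.length_replicate]
  rw [h5, h6] at s6
  refine ⟨_, ?_, Run.seq s1 (Run.seq s2 (Run.seq s3 (Run.seq s4 (Run.seq s5 s6))))⟩
  rw [hx]
  simp only [Polynomial.eval_add, Polynomial.eval_mul, Polynomial.eval_X, Polynomial.eval_ofNat,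
    Polynomial.eval_comp, Polynomial.eval_one]
  have m1 := eval_mono e.costP (a := x.length + 1) (b := w.length + x.length + 1 + 1) (by omega)
  have m2 := eval_mono e.lenP (a := x.length + 1) (b := w.length + x.length + 1 + 1) (by omega)
  omega

end NPC
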