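import Pool.Agent.NPC.Wrap

/-!
# Comparison of the output of an emitter program with the input
-/

namespace NPC

open Turing Function Key

/-- Splitting of the pair: the certificate goes to `inp` and the input to `wit`. -/
def splitV : Prog Key :=
  .whil aux (.ite (fun r => r.2) (pushr wit)
    (.ite (fun r => decide (r.1 = some none)) (.load (fun r => (r.1, true))) (pushr inp)))

theorem run_splitV2 : ∀ (l : List Sym) (S : Stk Key) (o : Option Sym), S aux = l →
    ∃ c ≤ 3 * l.length + 1,
    Run splitV (o, true) S (none, true) (update (update S aux []) wit (l.reverse ++ S wit)) c := by
  intro l
  induction l with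
  | nil =>
    intro S o h
    refine ⟨1, by simp, ?_⟩
    have e1 : update (update S aux []) wit (([] : List Sym).reverse ++ S wit) = S := by
      funext k
      by_cases hk : k = wit
      · subst hk; simp
      · rw [update_of_ne hk]
        by_cases hk2 : k = aux
        · subst hk2; rw [update_self, h]
        · rw [update_of_ne hk2]
    rw [e1]
    exact Run.whilE h
  | cons a l ih =>
    intro S o h
    have s1 := run_pushr wit (some a, true) (update S aux l)
    have hs : (update S aux l) wit = S wit := update_of_ne (by simp) _ _
    rw [hs] at s1
    have s2 : Run (.ite (fun r => r.2) (pushr wit)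
      (.ite (fun r => decide (r.1 = some none)) (.load (fun r => (r.1, true))) (pushr inp)))
      (some a, true) (update S aux l) _ _ (1 + 1) := Run.iteT rfl s1
    obtain ⟨c3, hc3, s3⟩ := ih (update (update S aux l) wit (a :: S wit)) (some a) (by
      rw [update_of_ne (by simp), update_self])
    have s4 : Run splitV (o, true) S (none, true)
        (update (update S aux []) wit ((a :: l).reverse ++ S wit)) (1 + 1 + c3 + 1) :=
      Run.whilS (r := (o, true)) h s2 (by
      have e1 : update (update (update (update S aux l) wit (a :: S wit)) aux []) wit
          (l.reverse ++ (update (update S aux l) wit (a :: S wit)) wit) =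
          update (update S aux []) wit ((a :: l).reverse ++ S wit) := by
        funext k
        by_cases hk : k = wit
        · subst hk; rw [update_self, update_self, update_self]; simp
        · rw [update_of_ne hk, update_of_ne hk]
          by_cases hk2 : k = aux
          · subst hk2; rw [update_self, update_self]
          · rw [update_of_ne hk2, update_of_ne hk2, update_of_ne hk, update_of_ne hk2]
      rw [e1] at s3
      exact s3)
    exact ⟨_, by rw [List.length_cons]; omega, s4⟩

theorem run_splitV1 (x : List Sym) : ∀ (w : List Bool) (S : Stk Key) (o : Option Sym),
    S aux = w.map some ++ none :: x → ∃ c ≤ 4 * (w.length + x.length + 1) + 1,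
    Run splitV (o, false) S (none, true) (update (update (update S aux []) wit (x.reverse ++ S wit))
      inp ((w.map some).reverse ++ S inp)) c := by
  intro w
  induction w with
  | nil =>
    intro S o h
    have s1 : Run (.load (fun r => (r.1, true))) (some none, false) (update S aux x)
      (some none, true) (update S aux x) 1 := Run.load _ _ _
    have s2 : Run (.ite (fun r => r.2) (pushr wit)
      (.ite (fun r => decide (r.1 = some none)) (.load (fun r => (r.1, true))) (pushr inp)))
      (some none, false) (update S aux x) (some none, true) (update S aux x) (1 + 1 + 1) :=
      Run.iteF rfl (Run.iteT (by simp) s1)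
    obtain ⟨c3, hc3, s3⟩ := run_splitV2 x (update S aux x) (some none) (by rw [update_self])
    have s4 : Run splitV (o, false) S (none, true) (update (update (update S aux []) wit
      (x.reverse ++ S wit)) inp ((([] : List Bool).map some).reverse ++ S inp))
        (1 + 1 + 1 + c3 + 1) := Run.whilS (r := (o, false)) h s2 (by
      have e1 : update (update (update S aux x) aux []) wit
          (x.reverse ++ (update S aux x) wit) =
          update (update (update S aux []) wit (x.reverse ++ S wit)) inp
            ((([] : List Bool).map some).reverse ++ S inp) := by
        funext k
        by_cases hk : k = inp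
        · subst hk
          rw [update_self, update_of_ne (by simp), update_of_ne (by simp), update_of_ne (by simp)]
          simp
        · rw [update_of_ne hk]
          by_cases hk1 : k = wit
          · subst hk1; rw [update_self, update_self, update_of_ne (by simp)]
          · rw [update_of_ne hk1, update_of_ne hk1]
            by_cases hk2 : k = aux
            · subst hk2; rw [update_self, update_self]
            · rw [update_of_ne hk2, update_of_ne hk2, update_of_ne hk2]
      rw [e1] at s3
      exact s3)
    exact ⟨_, by simp only [List.length_nil]; omega, s4⟩
  | cons b w ih =>
    intro S o h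
    have h' : S aux = some b :: (w.map some ++ none :: x) := by rw [h]; rfl
    have s1 := run_pushr inp (some (some b), false) (update S aux (w.map some ++ none :: x))
    have hs : (update S aux (w.map some ++ none :: x)) inp = S inp := update_of_ne (by simp) _ _
    rw [hs] at s1
    have s2 : Run (.ite (fun r => r.2) (pushr wit)
      (.ite (fun r => decide (r.1 = some none)) (.load (fun r => (r.1, true))) (pushr inp)))
      (some (some b), false) (update S aux (w.map some ++ none :: x)) _ _ (1 + 1 + 1) :=
      Run.iteF rfl (Run.iteF (by simp) s1)
    obtain ⟨c3, hc3, s3⟩ := ih (update (update S aux (w.map some ++ none :: x)) inp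
      (some b :: S inp)) (some (some b)) (by
      rw [update_of_ne (by simp), update_self])
    have s4 : Run splitV (o, false) S (none, true) (update (update (update S aux []) wit
      (x.reverse ++ S wit)) inp (((b :: w).map some).reverse ++ S inp))
        (1 + 1 + 1 + c3 + 1) := Run.whilS (r := (o, false)) h' s2 (by
      have e1 : update (update (update (update (update S aux (w.map some ++ none :: x)) inp
          (some b :: S inp)) aux []) wit (x.reverse ++ (update (update S aux
          (w.map some ++ none :: x)) inp (some b :: S inp)) wit)) inp
          ((w.map some).reverse ++ (update (update S aux (w.map some ++ none :: x)) inp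
          (some b :: S inp)) inp) =
          update (update (update S aux []) wit (x.reverse ++ S wit)) inp
            (((b :: w).map some).reverse ++ S inp) := by
        funext k
        by_cases hk : k = inp
        · subst hk
          rw [update_self, update_self, update_self]
          simp
        · rw [update_of_ne hk, update_of_ne hk]
          by_cases hk1 : k = wit
          · subst hk1; rw [update_self, update_self, update_of_ne (by simp),
              update_of_ne (by simp)]
          · rw [update_of_ne hk1, update_of_ne hk1]
            by_cases hk2 : k = aux
            · subst hk2; rw [update_self, update_self]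
            · rw [update_of_ne hk2, update_of_ne hk2, update_of_ne hk, update_of_ne hk2]
      rw [e1] at s3
      exact s3)
    exact ⟨_, by simp only [List.length_cons]; omega, s4⟩

/-- The body of the comparison loop. -/
def cmpBody : Prog Key :=
  .ite (fun r => decide (r.1 = some (some true)))
    (.seq (.pop wit) (.load (fun r => (r.1, r.2 && decide (r.1 = some (some true))))))
    (.seq (.pop wit) (.load (fun r => (r.1, r.2 && decide (r.1 = some (some false))))))

/-- The flag computed by the comparison loop. -/
def pre : List Bool → List Sym → Bool → Bool
  | [], _, f => f
  | b :: l, m, f => pre l m.tail (f && decide (m.head? = some (some b)))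

theorem pre_eq : ∀ (l : List Bool) (m : List Sym) (f : Bool),
    (pre l m f && (m.drop l.length).head?.isNone) = (f && decide (m = l.map some)) := by
  intro l
  induction l with
  | nil =>
    intro m f
    cases m <;> simp [pre]
  | cons b l ih =>
    intro m f
    cases m with
    | nil =>
      have := ih [] (f && decide (([] : List Sym).head? = some (some b)))
      simp [pre] at this ⊢
      exact this
    | cons a m =>
      have := ih m (f && decide ((a :: m).head? = some (some b)))
      simp only [pre, List.length_cons, List.drop_succ_cons, List.tail_cons, List.map_cons] at this ⊢
      rw [this]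
      by_cases h1 : a = some b
      · subst h1
        simp
      · have h2 : ¬ (a :: m = some b :: List.map some l) := fun h => h1 (List.cons.inj h).1
        simp [h1, h2]

theorem run_cmpBody (b : Bool) (f : Bool) (S : Stk Key) :
    ∃ o, Run cmpBody (some (some b), f) S (o, f && decide ((S wit).head? = some (some b)))
      (update S wit (S wit).tail) 3 := by
  have s1 := Run.pop wit (some (some b), f) S
  cases b with
  | true =>
    exact ⟨_, Run.iteT (by simp) (Run.seq s1 (Run.load _ _ _))⟩
  | false =>
    exact ⟨_, Run.iteF (by simp) (Run.seq s1 (Run.load _ _ _))⟩

theorem run_cmp : ∀ (l : List Bool) (S : Stk Key) (o : Option Sym) (f : Bool),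
    S out = l.map some →
    Run (.whil out cmpBody) (o, f) S (none, pre l (S wit) f)
      (update (update S out []) wit ((S wit).drop l.length)) (4 * l.length + 1) := by
  intro l
  induction l with
  | nil =>
    intro S o f h
    have e1 : update (update S out []) wit ((S wit).drop ([] : List Bool).length) = S := by
      funext k
      by_cases hk : k = wit
      · subst hk; simp
      · rw [update_of_ne hk]
        by_cases hk2 : k = out
        · subst hk2; rw [update_self, h]; rfl
        · rw [update_of_ne hk2]
    rw [e1]
    exact Run.whilE h
  | cons b l ih =>
    intro S o f h
    obtain ⟨o', s1⟩ := run_cmpBody b f (update S out (l.map some))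
    have hw : (update S out (l.map some)) wit = S wit := update_of_ne (by simp) _ _
    rw [hw] at s1
    have s2 := ih (update (update S out (l.map some)) wit (S wit).tail) o'
      (f && decide ((S wit).head? = some (some b))) (by
        rw [update_of_ne (by simp), update_self])
    have e1 : update (update (update (update S out (l.map some)) wit (S wit).tail) out []) wit
        (((update (update S out (l.map some)) wit (S wit).tail) wit).drop l.length) =
        update (update S out []) wit ((S wit).drop (b :: l).length) := by
      funext k
      by_cases hk : k = wit
      · subst hk
        rw [update_self, update_self, update_self, List.length_cons, List.drop_tail]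
      · rw [update_of_ne hk, update_of_ne hk]
        by_cases hk2 : k = out
        · subst hk2; rw [update_self, update_self]
        · rw [update_of_ne hk2, update_of_ne hk2, update_of_ne hk, update_of_ne hk2]
    rw [e1, update_self] at s2
    have s3 := Run.whilS (r := (o, f)) h s1 s2
    have e2 : 3 + (4 * l.length + 1) + 1 = 4 * (b :: l).length + 1 := by
      rw [List.length_cons]; ring
    rw [e2] at s3
    exact s3

/-- The program computing `(x, w) ↦ [e.fn w = true :: x]`. -/
def prog3 (e : Em) : Prog Key :=
  .seq (.push wit (fun _ => some true)) (.seq splitV (.seq (mid e)
    (.seq (.load (fun r => (r.1, true))) (.seq (.whil out cmpBody) (.seq (.pop wit)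
      (.seq (.load (fun r => (r.1, r.2 && r.1.isNone))) (.seq (.push res (fun r => some r.2))
        (.seq (clear wit) fin0))))))))

theorem polyTime_verif (e : Em) :
    PolyTime encPair encBool (fun p => decide (e.fn p.2 = true :: p.1)) := by
  refine polyTime_of_run encPair encBool (fun p => decide (e.fn p.2 = true :: p.1)) (prog3 e)
    aux res (e.costP.comp (Polynomial.X + 1) + 4 * (e.lenP.comp (Polynomial.X + 1)) +
      20 * Polynomial.X + 60) ?_
  rintro ⟨x, w⟩
  have hx : (encPair (x, w)).length = w.length + x.length + 1 := by
    simp [encPair]; ring
  have s0 := Run.push wit (fun _ => some true) (none, false) (update (fun _ => []) aux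
    (encPair (x, w)))
  rw [show (update (fun _ => []) aux (encPair (x, w)) : Stk Key) wit = [] from
    update_of_ne (by simp) _ _] at s0
  set S0 : Stk Key := update (update (fun _ => []) aux (encPair (x, w))) wit [some true] with hS0
  obtain ⟨c1, hc1, s1⟩ := run_splitV1 (x.map some) w S0 none
    (by rw [hS0, update_of_ne (by simp), update_self]; rfl)
  rw [List.length_map] at hc1
  set S1 := (update (update (update S0 aux []) wit ((x.map some).reverse ++ S0 wit)) inp
      ((w.map some).reverse ++ S0 inp)) with hS1
  have hS1' : S1 = update (update (fun _ => []) wit ((true :: x).map some).reverse) inp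
      (w.reverse.map some) := by
    funext k
    by_cases hk : k = inp
    · subst hk
      rw [hS1, update_self, update_self, hS0, update_of_ne (by simp), update_of_ne (by simp),
        List.append_nil, List.map_reverse]
    · rw [hS1, update_of_ne hk, update_of_ne hk]
      by_cases hk1 : k = wit
      · subst hk1
        rw [update_self, update_self, hS0, update_self]
        simp
      · rw [update_of_ne hk1, update_of_ne hk1]
        by_cases hk2 : k = aux
        · subst hk2; rw [update_self]
        · rw [update_of_ne hk2, hS0, update_of_ne hk1, update_of_ne hk2]
  obtain ⟨r2, c2, s2, hc2⟩ := run_mid e w S1 (by rw [hS1', update_self])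
    (by intro k hk hk'; rw [hS1', update_of_ne hk, update_of_ne hk']) (none, true)
  set S2 := (update (update (update S1 inp ((prep w).map some)) (C 0)
      (List.replicate (w.length + 1) one)) out (((e.fn w).map some).reverse)) with hS2
  have s3 : Run (K := Key) (.load (fun r => (r.1, true))) r2 S2 (r2.1, true) S2 1 :=
    Run.load _ _ _
  have hout : S2 out = (e.fn w).reverse.map some := by rw [hS2, update_self, List.map_reverse]
  have hwit : S2 wit = (true :: x).reverse.map some := by
    rw [hS2, update_of_ne (by simp), update_of_ne (by simp), update_of_ne (by simp), hS1',
      update_of_ne (by simp), update_self, List.map_reverse]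
  have s4 := run_cmp (e.fn w).reverse S2 r2.1 true hout
  rw [hwit, List.length_reverse] at s4
  set S3 := update (update S2 out []) wit
    (((true :: x).reverse.map some).drop (e.fn w).length) with hS3
  have s5 := Run.pop wit (none, pre (e.fn w).reverse ((true :: x).reverse.map some) true) S3
  have hwit3 : S3 wit = ((true :: x).reverse.map some).drop (e.fn w).length := by
    rw [hS3, update_self]
  rw [hwit3] at s5
  set S4 := update S3 wit (((true :: x).reverse.map some).drop (e.fn w).length).tail with hS4
  have s6 := Run.load (fun r => (r.1, r.2 && r.1.isNone))
    ((((true :: x).reverse.map some).drop (e.fn w).length).head?,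
      pre (e.fn w).reverse ((true :: x).reverse.map some) true) S4
  have hp := pre_eq (e.fn w).reverse ((true :: x).reverse.map some) true
  rw [List.length_reverse] at hp
  have hd : (true && decide ((true :: x).reverse.map some = (e.fn w).reverse.map some)) =
      decide (e.fn w = true :: x) := by
    rw [Bool.true_and, decide_eq_decide]
    constructor
    · intro h
      have h1 : (true :: x).reverse = (e.fn w).reverse :=
        List.map_injective_iff.2 (Option.some_injective _) h
      exact (List.reverse_injective h1).symm
    · intro h
      rw [h]
  dsimp only at s6
  rw [hp, hd] at s6
  have s7 := Run.push res (fun r => some r.2)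
    ((((true :: x).reverse.map some).drop (e.fn w).length).head?, decide (e.fn w = true :: x)) S4
  have hres : S4 res = [] := by
    rw [hS4, update_of_ne (by simp), hS3, update_of_ne (by simp), update_of_ne (by simp), hS2,
      update_of_ne (by simp), update_of_ne (by simp), update_of_ne (by simp), hS1',
      update_of_ne (by simp), update_of_ne (by simp)]
  rw [hres] at s7
  dsimp only at s7
  set S5 := update S4 res [some (decide (e.fn w = true :: x))] with hS5
  have s8 := run_clear wit (S5 wit) ((((true :: x).reverse.map some).drop (e.fn w).length).head?,
    decide (e.fn w = true :: x)) S5 rfl
  have s9 := run_fin0 (update S5 wit []) (none, decide (e.fn w = true :: x))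
  have hfin : update (update (update S5 wit []) inp []) (C 0) [] =
      update (fun _ => []) res (encBool (decide (e.fn w = true :: x))) := by
    funext k
    by_cases hk : k = res
    · subst hk
      rw [update_of_ne (by simp), update_of_ne (by simp), update_of_ne (by simp), hS5,
        update_self, update_self]
      rfl
    · rw [update_of_ne hk]
      by_cases h1 : k = C 0
      · subst h1; rw [update_self]
      · rw [update_of_ne h1]
        by_cases h2 : k = inp
        · subst h2; rw [update_self]
        · rw [update_of_ne h2]
          by_cases h3 : k = wit
          · subst h3; rw [update_self]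
          · rw [update_of_ne h3, hS5, update_of_ne hk, hS4, update_of_ne h3, hS3,
              update_of_ne h3]
            by_cases h4 : k = out
            · subst h4; rw [update_self]
            · rw [update_of_ne h4, hS2, update_of_ne h4, update_of_ne h1, update_of_ne h2, hS1',
                update_of_ne h2, update_of_ne h3]
  rw [hfin] at s9
  have hlen : (e.fn w).length ≤ e.lenP.eval (w.length + 1) := by
    apply Em.length_eval_le
    intro m
    by_cases hm : m = 0
    · subst hm; rw [v0, update_self]
    · rw [v0, update_of_ne hm]; omega
  have hwl : (S5 wit).length ≤ x.length + 1 := by
    rw [hS5, update_of_ne (by simp), hS4, update_self, List.length_tail, List.length_drop,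
      List.length_map, List.length_reverse, List.length_cons]
    omega
  have h5 : ((update S5 wit []) inp).length = w.length + 1 := by
    rw [update_of_ne (by simp), hS5, update_of_ne (by simp), hS4, update_of_ne (by simp), hS3,
      update_of_ne (by simp), update_of_ne (by simp), hS2, update_of_ne (by simp),
      update_of_ne (by simp), update_self, List.length_map, prep, List.length_cons,
      List.length_reverse]
  have h6 : ((update S5 wit []) (C 0)).length = w.length + 1 := by
    rw [update_of_ne (by simp), hS5, update_of_ne (by simp), hS4, update_of_ne (by simp), hS3,
      update_of_ne (by simp), update_of_ne (by simp), hS2, update_of_ne (by simp),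
      update_self, List.length_replicate]
  rw [h5, h6] at s9
  refine ⟨_, ?_, Run.seq s0 (Run.seq s1 (Run.seq s2 (Run.seq s3 (Run.seq s4 (Run.seq s5
    (Run.seq s6 (Run.seq s7 (Run.seq s8 s9))))))))⟩
  rw [hx]
  simp only [Polynomial.eval_add, Polynomial.eval_mul, Polynomial.eval_X, Polynomial.eval_ofNat,
    Polynomial.eval_comp, Polynomial.eval_one]
  have m1 := eval_mono e.costP (a := w.length + 1) (b := w.length + x.length + 1 + 1) (by omega)
  have m2 := eval_mono e.lenP (a := w.length + 1) (b := w.length + x.length + 1 + 1) (by omega)
  omega

end NPC
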