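import Pool.Agent.NPC.Print

/-!
# ODD-PATHS is NP-hard
-/

namespace NPC

open Function OddP

/-- The whole program; `p`, `q` are expressions in variable `0` for the two polynomials. -/
noncomputable def prog (a : ℕ) (al : Cl → ℕ → Prop) (Wr : ℕ → ℕ → ℕ → ℕ → Prop) (p q : PE) : Em :=
  .lett (PE.emit (.add (.var 0) (.const 1)) 2)
  (.lett (PE.emit (.add (.var 1) p) 3)
  (.lett (PE.emit q 4)
  (.lett (PE.emit (.add (.var 3) (.const 1)) 5)
  (.lett (PE.emit (.add (.var 3) (.const 2)) 6)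
  (.lett (PE.emit (.const 1) 7)
  (.lett (PE.emit (.const 2) 8)
  (.lett (PE.emit (.mul (.mul (.var 5) (.var 5)) (.const a)) 9)
  (.lett (PE.emit (.mul (.mul (.var 5) (.var 5)) (.const (mcl a))) 10)
  (.lett (PE.emit (.mul (.const 2) (.var 9)) 11)
    (body a al Wr))))))))))

theorem lett_eval (y : List Bool) (p : PE) (f : Em) (n : ℕ) (v : ℕ → ℕ) (hp : p.bd (n + 1)) :
    (Em.lett (p.emit (n + 1)) f).eval y n v = f.eval y (n + 1) (update v n (p.val v)) := by
  simp only [Em.eval]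
  rw [PE.emit_eval y p (n + 1) v hp, List.length_replicate]

theorem prog_fn (a : ℕ) (al : Cl → ℕ → Prop) (Wr : ℕ → ℕ → ℕ → ℕ → Prop) (p q : PE)
    (hp : p.bd 1) (hq : q.bd 1) (P Q : Polynomial ℕ) (hp2 : ∀ v, p.val v = P.eval (v 0))
    (hq2 : ∀ v, q.val v = Q.eval (v 0)) (x : List Bool) :
    (prog a al Wr p q).fn x =
      (numInst (nV a (Q.eval (x.length + 1))) (nM a (Q.eval (x.length + 1)))
        (clauses a al Wr (x.length + 1) (x.length + 2 + P.eval (x.length + 1))
          (Q.eval (x.length + 1)) (false :: x.reverse))).encode := by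
  unfold Em.fn prog
  have b0 : (PE.add (.var 0) (.const 1)).bd 2 := by simp [PE.bd]
  have b1 : (PE.add (.var 1) p).bd 3 := ⟨by simp [PE.bd], hp.mono (by omega)⟩
  have b2 : q.bd 4 := hq.mono (by omega)
  have b3 : (PE.add (.var 3) (.const 1)).bd 5 := by simp [PE.bd]
  have b4 : (PE.add (.var 3) (.const 2)).bd 6 := by simp [PE.bd]
  have b5 : (PE.const 1).bd 7 := trivial
  have b6 : (PE.const 2).bd 8 := trivial
  have b7 : (PE.mul (.mul (.var 5) (.var 5)) (.const a)).bd 9 := by simp [PE.bd]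
  have b8 : (PE.mul (.mul (.var 5) (.var 5)) (.const (mcl a))).bd 10 := by simp [PE.bd]
  have b9 : (PE.mul (.const 2) (.var 9)).bd 11 := by simp [PE.bd]
  rw [lett_eval _ _ _ 1 _ b0, lett_eval _ _ _ 2 _ b1,
    lett_eval _ _ _ 3 _ b2, lett_eval _ _ _ 4 _ b3,
    lett_eval _ _ _ 5 _ b4, lett_eval _ _ _ 6 _ b5,
    lett_eval _ _ _ 7 _ b6, lett_eval _ _ _ 8 _ b7,
    lett_eval _ _ _ 9 _ b8, lett_eval _ _ _ 10 _ b9]
  apply body_eval
  have h0 : v0 x 0 = x.length + 1 := by rw [v0, update_self]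
  constructor
  all_goals simp only [PE.val, hp2, hq2]
  all_goals simp [h0, nV, nM]

/-- Every language in NP reduces to ODD-PATHS. -/
theorem reduces_oddpaths {L : Set (List Bool)} (hL : L ∈ NP) :
    ∃ e : Em, ∀ x, (∃ I : Instance, I.Valid ∧ I.encode = e.fn x ∧ (x ∈ L ↔ I.Yes)) := by
  obtain ⟨a, al, Wr, P, Q, h⟩ := np_grid hL
  obtain ⟨p, hp, hp2⟩ := PE.exists_of_polynomial P
  obtain ⟨q, hq, hq2⟩ := PE.exists_of_polynomial Q
  refine ⟨prog a al Wr p q, ?_⟩
  intro x
  obtain ⟨h1, h2⟩ := h x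
  have hN : 0 < Q.eval (x.length + 1) := by omega
  set N := Q.eval (x.length + 1) with hNdef
  set cl := clauses a al Wr (x.length + 1) (x.length + 2 + P.eval (x.length + 1)) N
    (false :: x.reverse) with hcl
  have hV := clauses_lt a al Wr (x.length + 1) (x.length + 2 + P.eval (x.length + 1)) N hN
    (false :: x.reverse)
  refine ⟨numInst (nV a N) (nM a N) cl, ?_, ?_, ?_⟩
  · apply numInst_valid _ _ _ hV
    have : 0 < nM a N := by
      unfold nM mcl
      positivity
    omega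
  · rw [prog_fn a al Wr p q hp hq P Q hp2 hq2 x]
  · rw [h2, numInst_yes_iff _ _ _ hV]
    exact (gridInst_yes_iff a al Wr (x.length + 1) (x.length + 2 + P.eval (x.length + 1)) N hN
      (false :: x.reverse)).symm

/-- ODD-PATHS is NP-hard. -/
theorem oddpaths_hard {L : Set (List Bool)} (hL : L ∈ NP) : Reduces L ODDPATHS := by
  obtain ⟨e, he⟩ := reduces_oddpaths hL
  refine ⟨e.fn, polyTime_em e, ?_⟩
  intro x
  obtain ⟨I, hI, hI2, hI3⟩ := he x
  rw [hI3]
  constructor
  · intro h; exact ⟨I, hI, h, hI2⟩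
  · rintro ⟨J, hJ, hJ2, hJ3⟩
    rw [← hI2] at hJ3
    have := encode_injective hJ3
    subst this
    exact hJ2

/-- If the no-instances of ODD-PATHS have polynomially verifiable certificates, then NP = co-NP. -/
theorem np_eq_conp_of_cert (h : ∃ C ∈ NP, ∀ I : Instance, I.Valid → (I.encode ∈ C ↔ ¬ I.Yes)) :
    NP = coNP := by
  obtain ⟨C, ⟨V, p, hV, hp, hVC⟩, hC⟩ := h
  have key : ∀ L ∈ NP, Lᶜ ∈ NP := by
    intro L hL
    obtain ⟨e, he⟩ := reduces_oddpaths hL
    refine ⟨fun q => V (e.fn q.1, q.2), p.comp (e.lenP.comp (Polynomial.X + 1)),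
      PolyTime.comp (polyTime_em_pair e) hV, ?_, ?_⟩
    · intro x w hw
      refine (hp _ _ hw).trans ?_
      rw [Polynomial.eval_comp]
      apply eval_mono
      rw [Polynomial.eval_comp]
      simp only [Polynomial.eval_add, Polynomial.eval_X, Polynomial.eval_one]
      apply Em.length_eval_le
      intro m
      by_cases hm : m = 0
      · subst hm; rw [v0, update_self]
      · rw [v0, update_of_ne hm]; omega
    · intro x
      obtain ⟨I, hI, hI2, hI3⟩ := he x
      change x ∉ L ↔ ∃ w, V (e.fn x, w) = true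
      rw [← hVC, ← hI2, hC I hI, ← hI3]
  apply Set.eq_of_subset_of_subset
  · intro L hL
    exact key L hL
  · intro L hL
    have := key _ hL
    rwa [compl_compl] at this

theorem np_eq_conp_of_conp (h : ODDPATHS ∈ coNP) : NP = coNP := by
  apply np_eq_conp_of_cert
  refine ⟨_, h, ?_⟩
  intro I hI
  constructor
  · intro h1 h2
    exact h1 ⟨I, hI, h2, rfl⟩
  · rintro h1 ⟨J, hJ, hJ2, hJ3⟩
    have := encode_injective hJ3
    subst this
    exact h1 hJ2

end NPC
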