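import Pool.Agent.NPC.Fo
import Pool.Agent.NPC.Final

/-!
# Certificates for ODD-PATHS
-/

namespace NPC

open Function OddP

/-- The data contained in a certificate. -/
structure Data where
  n : ℕ
  m : ℕ
  k : ℕ
  e1 : ℕ → ℕ
  e2 : ℕ → ℕ
  X : ℕ → ℕ
  Y : ℕ → ℕ
  len : ℕ → ℕ
  pv : ℕ → ℕ → ℕ
  pe : ℕ → ℕ → ℕ

/-- The data read off the rows of a table. -/
def Data.ofRows (F : ℕ → ℕ) (N : ℕ) : Data where
  n := F 0
  m := F 1
  k := F 2
  e1 e := F (3 + e)
  e2 e := F (3 + N + e)
  X j := F (3 + 2 * N + j)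
  Y j := F (3 + 3 * N + j)
  len a := F (3 + 4 * N + a)
  pv a i := F (3 + 5 * N + a * N + i)
  pe a i := F (3 + 5 * N + N * N + a * N + i)

/-- The instance. -/
def Data.inst (D : Data) : Instance where
  n := D.n
  edges := (List.range D.m).map (fun e => (D.e1 e, D.e2 e))
  k := D.k
  X := (List.range D.k).map D.X
  Y := (List.range D.k).map D.Y

/-- The certificate is correct. -/
structure Data.Good (D : Data) : Prop where
  pos : 0 < D.k
  ed : ∀ e < D.m, D.e1 e < D.n ∧ D.e2 e < D.n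
  xy : ∀ i < D.k, D.X i < D.n ∧ D.Y i < D.n ∧ ∀ j < i, ¬ D.X j = D.X i ∧ ¬ D.Y j = D.Y i
  odd : ∀ a < D.k, ∃ q < D.len a, D.len a = 2 * q + 1
  join : ∀ a < D.k, ∀ i < D.len a, D.pe a i < D.m ∧
    ((D.e1 (D.pe a i) = D.pv a i ∧ D.e2 (D.pe a i) = D.pv a (i + 1)) ∨
      (D.e1 (D.pe a i) = D.pv a (i + 1) ∧ D.e2 (D.pe a i) = D.pv a i))
  inj : ∀ a < D.k, ∀ i < D.len a + 1, ∀ j < i, ¬ D.pv a j = D.pv a i
  start : ∀ a < D.k, ∃ j < D.k, D.pv a 0 = D.X j
  stop : ∀ a < D.k, ∃ j < D.k, D.pv a (D.len a) = D.Y j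
  inner : ∀ a < D.k, ∀ i < D.len a, 0 < i → ∀ j < D.k, ¬ D.pv a i = D.X j ∧ ¬ D.pv a i = D.Y j
  disj : ∀ a < D.k, ∀ b < a, ∀ i < D.len a, 0 < i → ∀ j < D.len b, 0 < j → ¬ D.pv a i = D.pv b j
  diff : ∀ a < D.k, ∀ b < a, ¬ ((∀ i < D.len a, ∃ j < D.len b, D.pe b j = D.pe a i) ∧
    (∀ j < D.len b, ∃ i < D.len a, D.pe a i = D.pe b j))

/-- A correct certificate describes a valid yes-instance. -/
theorem Data.Good.valid {D : Data} (h : D.Good) : D.inst.Valid := by
  refine ⟨h.pos, ?_, ?_, ?_, ?_, ?_, ?_, ?_⟩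
  · intro p hp
    obtain ⟨e, he, rfl⟩ := List.mem_map.1 hp
    exact h.ed e (List.mem_range.1 he)
  · intro x hx
    obtain ⟨e, he, rfl⟩ := List.mem_map.1 hx
    exact (h.xy e (List.mem_range.1 he)).1
  · intro x hx
    obtain ⟨e, he, rfl⟩ := List.mem_map.1 hx
    exact (h.xy e (List.mem_range.1 he)).2.1
  · apply List.Nodup.map_on _ List.nodup_range
    intro i hi j hj hij
    rcases Nat.lt_trichotomy i j with hl | hl | hl
    · exact absurd hij ((h.xy j (List.mem_range.1 hj)).2.2 i hl).1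
    · exact hl
    · exact absurd hij.symm ((h.xy i (List.mem_range.1 hi)).2.2 j hl).1
  · apply List.Nodup.map_on _ List.nodup_range
    intro i hi j hj hij
    rcases Nat.lt_trichotomy i j with hl | hl | hl
    · exact absurd hij ((h.xy j (List.mem_range.1 hj)).2.2 i hl).2
    · exact hl
    · exact absurd hij.symm ((h.xy i (List.mem_range.1 hi)).2.2 j hl).2
  · simp [Data.inst]
  · simp [Data.inst]

theorem Data.Good.yes {D : Data} (h : D.Good) : D.inst.Yes := by
  have hX : ∀ u, u ∈ D.inst.X ↔ ∃ j < D.k, D.X j = u := by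
    intro u
    simp only [Data.inst, List.mem_map, List.mem_range]
  have hY : ∀ u, u ∈ D.inst.Y ↔ ∃ j < D.k, D.Y j = u := by
    intro u
    simp only [Data.inst, List.mem_map, List.mem_range]
  let P : Fin D.inst.k → D.inst.XYPath := fun a =>
    { len := D.len a
      v := D.pv a
      e := D.pe a
      join := by
        intro i hi
        obtain ⟨h1, h2⟩ := h.join a a.2 i hi
        have h3 : D.inst.edges[D.pe a i]? = some (D.e1 (D.pe a i), D.e2 (D.pe a i)) := by
          simp [Data.inst, h1]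
        rcases h2 with ⟨h4, h5⟩ | ⟨h4, h5⟩
        · left; rw [h3, h4, h5]
        · right; rw [h3, h4, h5]
      inj := by
        intro i hi j hj hij
        rcases Nat.lt_trichotomy i j with hl | hl | hl
        · exact absurd hij (h.inj a a.2 j (by omega) i hl)
        · exact hl
        · exact absurd hij.symm (h.inj a a.2 i (by omega) j hl)
      start := by
        rw [hX]
        obtain ⟨j, hj, hj2⟩ := h.start a a.2
        exact ⟨j, hj, hj2.symm⟩
      stop := by
        rw [hY]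
        obtain ⟨j, hj, hj2⟩ := h.stop a a.2
        exact ⟨j, hj, hj2.symm⟩
      inner := by
        intro i hi hi2
        rw [hX, hY]
        constructor
        · rintro ⟨j, hj, hj2⟩
          exact (h.inner a a.2 i hi2 hi j hj).1 hj2.symm
        · rintro ⟨j, hj, hj2⟩
          exact (h.inner a a.2 i hi2 hi j hj).2 hj2.symm }
  have hdisj : ∀ a b : Fin D.inst.k, (b : ℕ) < a →
      Disjoint (P a).internal (P b).internal ∧ (P a).edgeSet ≠ (P b).edgeSet := by
    intro a b hab
    constructor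
    · rw [Set.disjoint_left]
      rintro u ⟨i, hi, hi2, rfl⟩ ⟨j, hj, hj2, hju⟩
      exact h.disj a a.2 b hab i hi2 hi j hj2 hj hju.symm
    · intro hE
      apply h.diff a a.2 b hab
      constructor
      · intro i hi
        have : (P a).e i ∈ (P b).edgeSet := by rw [← hE]; exact ⟨i, hi, rfl⟩
        obtain ⟨j, hj, hj2⟩ := this
        exact ⟨j, hj, hj2⟩
      · intro j hj
        have : (P b).e j ∈ (P a).edgeSet := by rw [hE]; exact ⟨j, hj, rfl⟩
        obtain ⟨i, hi, hi2⟩ := this
        exact ⟨i, hi, hi2⟩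
  refine ⟨P, ?_, ?_⟩
  · intro a
    obtain ⟨q, -, hq⟩ := h.odd a a.2
    exact ⟨q, hq⟩
  · intro a b hab
    rcases Nat.lt_trichotomy (a : ℕ) b with hl | hl | hl
    · obtain ⟨h1, h2⟩ := hdisj b a hl
      exact ⟨h1.symm, h2.symm⟩
    · exact absurd (Fin.ext hl) hab
    · exact hdisj a b hl

/-! ## The formula -/

open Tm Fm

/-- `3 + i * N + t` -/
def rowT (i : ℕ) (t : Tm) : Tm := .look (.add (.add (.const 3) (.mul (.const i) (.var 1))) t)

/-- the vertex `i` of the path `a` -/
def pvT (a i : Tm) : Tm :=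
  .look (.add (.add (.add (.const 3) (.mul (.const 5) (.var 1))) (.mul a (.var 1))) i)

/-- the edge `i` of the path `a` -/
def peT (a i : Tm) : Tm :=
  .look (.add (.add (.add (.add (.const 3) (.mul (.const 5) (.var 1))) (.mul (.var 1) (.var 1)))
    (.mul a (.var 1))) i)

/-- size of the table -/
def Sz (N : ℕ) : ℕ := N * (3 + 5 * N + 2 * (N * N))

/-- The formula describing correct certificates; the variables `0, …, 4` are the length of the
table plus one, the row length, `n`, `m` and `k`. -/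
def certF : Fm :=
  .conj (eq (.var 0) (.add (.mul (.var 1) (.add (.add (.const 3) (.mul (.const 5) (.var 1)))
    (.mul (.const 2) (.mul (.var 1) (.var 1))))) (.const 1)))
  (.conj (eq (.var 1) (.add (.add (.var 2) (.var 3)) (.const 1)))
  (.conj (.lt (.const 0) (.var 4))
  (.conj (all (.var 3) (.conj (.lt (rowT 0 (.var 5)) (.var 2)) (.lt (rowT 1 (.var 5)) (.var 2))))
  (.conj (all (.var 4) (.conj (.lt (rowT 2 (.var 5)) (.var 2)) (.conj (.lt (rowT 3 (.var 5)) (.var 2))
    (all (.var 5) (.conj (.neg (eq (rowT 2 (.var 6)) (rowT 2 (.var 5))))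
      (.neg (eq (rowT 3 (.var 6)) (rowT 3 (.var 5)))))))))
  (.conj (all (.var 4) (.ex (rowT 4 (.var 5))
    (eq (rowT 4 (.var 5)) (.add (.mul (.const 2) (.var 6)) (.const 1)))))
  (.conj (all (.var 4) (all (rowT 4 (.var 5)) (.conj (.lt (peT (.var 5) (.var 6)) (.var 3))
    (disj
      (.conj (eq (rowT 0 (peT (.var 5) (.var 6))) (pvT (.var 5) (.var 6)))
        (eq (rowT 1 (peT (.var 5) (.var 6))) (pvT (.var 5) (.add (.var 6) (.const 1)))))
      (.conj (eq (rowT 0 (peT (.var 5) (.var 6))) (pvT (.var 5) (.add (.var 6) (.const 1))))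
        (eq (rowT 1 (peT (.var 5) (.var 6))) (pvT (.var 5) (.var 6))))))))
  (.conj (all (.var 4) (all (.add (rowT 4 (.var 5)) (.const 1)) (all (.var 6)
    (.neg (eq (pvT (.var 5) (.var 7)) (pvT (.var 5) (.var 6)))))))
  (.conj (all (.var 4) (.ex (.var 4) (eq (pvT (.var 5) (.const 0)) (rowT 2 (.var 6)))))
  (.conj (all (.var 4) (.ex (.var 4) (eq (pvT (.var 5) (rowT 4 (.var 5))) (rowT 3 (.var 6)))))
  (.conj (all (.var 4) (all (rowT 4 (.var 5)) (imp (.lt (.const 0) (.var 6)) (all (.var 4)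
    (.conj (.neg (eq (pvT (.var 5) (.var 6)) (rowT 2 (.var 7))))
      (.neg (eq (pvT (.var 5) (.var 6)) (rowT 3 (.var 7)))))))))
  (.conj (all (.var 4) (all (.var 5) (all (rowT 4 (.var 5)) (imp (.lt (.const 0) (.var 7))
    (all (rowT 4 (.var 6)) (imp (.lt (.const 0) (.var 8))
      (.neg (eq (pvT (.var 5) (.var 7)) (pvT (.var 6) (.var 8))))))))))
  (all (.var 4) (all (.var 5) (.neg (.conj
    (all (rowT 4 (.var 5)) (.ex (rowT 4 (.var 6)) (eq (peT (.var 6) (.var 8)) (peT (.var 5) (.var 7)))))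
    (all (rowT 4 (.var 6)) (.ex (rowT 4 (.var 5))
      (eq (peT (.var 5) (.var 8)) (peT (.var 6) (.var 7))))))))))))))))))))

theorem certF_bd : certF.bd 5 := by
  simp [certF, Fm.bd, Tm.bd, rowT, pvT, peT, Fm.all, Fm.eq, Fm.disj, Fm.imp]

theorem Data.good_iff (D : Data) : D.Good ↔ 0 < D.k ∧ (∀ e < D.m, D.e1 e < D.n ∧ D.e2 e < D.n) ∧
    (∀ i < D.k, D.X i < D.n ∧ D.Y i < D.n ∧ ∀ j < i, ¬ D.X j = D.X i ∧ ¬ D.Y j = D.Y i) ∧
    (∀ a < D.k, ∃ q < D.len a, D.len a = 2 * q + 1) ∧
    (∀ a < D.k, ∀ i < D.len a, D.pe a i < D.m ∧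
    ((D.e1 (D.pe a i) = D.pv a i ∧ D.e2 (D.pe a i) = D.pv a (i + 1)) ∨
      (D.e1 (D.pe a i) = D.pv a (i + 1) ∧ D.e2 (D.pe a i) = D.pv a i))) ∧
    (∀ a < D.k, ∀ i < D.len a + 1, ∀ j < i, ¬ D.pv a j = D.pv a i) ∧
    (∀ a < D.k, ∃ j < D.k, D.pv a 0 = D.X j) ∧
    (∀ a < D.k, ∃ j < D.k, D.pv a (D.len a) = D.Y j) ∧
    (∀ a < D.k, ∀ i < D.len a, 0 < i → ∀ j < D.k, ¬ D.pv a i = D.X j ∧ ¬ D.pv a i = D.Y j) ∧
    (∀ a < D.k, ∀ b < a, ∀ i < D.len a, 0 < i → ∀ j < D.len b, 0 < j → ¬ D.pv a i = D.pv b j) ∧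
    (∀ a < D.k, ∀ b < a, ¬ ((∀ i < D.len a, ∃ j < D.len b, D.pe b j = D.pe a i) ∧
    (∀ j < D.len b, ∃ i < D.len a, D.pe a i = D.pe b j))) := by
  constructor
  · rintro ⟨h1, h2, h3, h4, h5, h6, h7, h8, h9, h10, h11⟩
    exact ⟨h1, h2, h3, h4, h5, h6, h7, h8, h9, h10, h11⟩
  · rintro ⟨h1, h2, h3, h4, h5, h6, h7, h8, h9, h10, h11⟩
    exact ⟨h1, h2, h3, h4, h5, h6, h7, h8, h9, h10, h11⟩

theorem certF_sat (y : List Bool) (v : ℕ → ℕ) (h2 : v 2 = look y (v 1) 0)
    (h3 : v 3 = look y (v 1) 1) (h4 : v 4 = look y (v 1) 2) :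
    certF.sat y 5 v ↔ v 0 = Sz (v 1) + 1 ∧ v 1 = v 2 + v 3 + 1 ∧
      (Data.ofRows (look y (v 1)) (v 1)).Good := by
  rw [Data.good_iff]
  simp only [certF, Fm.sat, sat_all, sat_eq, sat_disj, sat_imp, Data.ofRows, rowT, pvT, peT,
    Tm.val, update_apply, Sz, Nat.reduceEqDiff, if_false, if_true, ← h2, ← h3, ← h4, zero_mul,
    one_mul, Nat.add_zero, OfNat.ofNat_ne_one, OfNat.one_ne_ofNat, Nat.reduceAdd]

/-! ## The program -/

theorem Rel.id' (n k : ℕ) (v : ℕ → ℕ) (h : n ≤ k) : Rel id n k v v := by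
  intro j hj
  exact ⟨rfl, by simp only [id]; omega⟩

/-- print the value of a term as a number -/
def natT (t : Tm) (k : ℕ) : Em := .seq (t.emit id k) (.const [false])

theorem natT_eval (y : List Bool) (t : Tm) (k : ℕ) (hk : 1 < k) (v : ℕ → ℕ) (h : t.bd k) :
    (natT t k).eval y k v = encNat (t.val y v) := by
  simp only [natT, Em.eval]
  rw [Tm.emit_eval y t id k hk v k v h (Rel.id' k k v le_rfl)]
  rfl

/-- print the instance -/
def printI : Em :=
  .seq (natT (.var 2) 7) (.seq (natT (.var 4) 7)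
    (.seq (.seq (.loop 3 (.seq (.const [true]) (.seq (natT (rowT 0 (.var 7)) 8)
      (natT (rowT 1 (.var 7)) 8)))) (.const [false]))
    (.seq (.seq (.loop 4 (.seq (.const [true]) (natT (rowT 2 (.var 7)) 8))) (.const [false]))
      (.seq (.loop 4 (.seq (.const [true]) (natT (rowT 3 (.var 7)) 8))) (.const [false])))))

theorem printI_eval (y : List Bool) (v : ℕ → ℕ) (h2 : v 2 = look y (v 1) 0)
    (h3 : v 3 = look y (v 1) 1) (h4 : v 4 = look y (v 1) 2) :
    printI.eval y 7 v = (Data.ofRows (look y (v 1)) (v 1)).inst.encode := by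
  have hr : ∀ (i e : ℕ), (rowT i (.var 7)).val y (update v 7 e) = look y (v 1) (3 + i * v 1 + e) := by
    intro i e
    simp only [rowT, Tm.val, update_self]
    rw [update_of_ne (by omega)]
  have hb : ∀ i, (rowT i (.var 7)).bd 8 := by
    intro i
    simp [rowT, Tm.bd]
  have hn : ∀ i e, (natT (rowT i (.var 7)) 8).eval y 8 (update v 7 e) =
      encNat (look y (v 1) (3 + i * v 1 + e)) := by
    intro i e
    rw [natT_eval y _ 8 (by omega) _ (hb i), hr]
  simp only [printI, Em.eval]
  rw [natT_eval y (.var 2) 7 (by omega) v (by simp [Tm.bd]),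
    natT_eval y (.var 4) 7 (by omega) v (by simp [Tm.bd])]
  simp only [show 7 + 1 = 8 by rfl, hn]
  unfold Instance.encode
  simp only [Data.ofRows, Data.inst, encList, List.flatMap_map, Tm.val, h2, h3, h4, zero_mul,
    one_mul, Nat.add_zero, List.singleton_append]

/-- `Sz (j + 1)`, for `j` the variable `2` -/
def szPE : PE := .mul (.add (.var 2) (.const 1)) (.add (.add (.const 3) (.mul (.const 5)
  (.add (.var 2) (.const 1)))) (.mul (.const 2) (.mul (.add (.var 2) (.const 1))
  (.add (.var 2) (.const 1)))))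

/-- The whole program reading a certificate. -/
def certE : Em :=
  .lett (.loop 0 (.lett (szPE.emit 4) (.ifLt 3 0 (.const [true]) (.const []))))
  (.lett ((Tm.look (.const 0)).emit id 3)
  (.lett ((Tm.look (.const 1)).emit id 4)
  (.lett ((Tm.look (.const 2)).emit id 5)
  (.lett (.const []) (.lett (certF.test id 5 7)
    (.ifLt 5 6 (.seq (.const [true]) printI) (.const [])))))))

/-- The row length computed by the program. -/
def rowLen (L : ℕ) : ℕ := ((List.range L).filter (fun j => decide (Sz (j + 1) < L))).length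

theorem certE_fn (w : List Bool) :
    (((w.length + 1 = Sz (rowLen (w.length + 1)) + 1 ∧
        rowLen (w.length + 1) = look (prep w) (rowLen (w.length + 1)) 0 +
          look (prep w) (rowLen (w.length + 1)) 1 + 1 ∧
        (Data.ofRows (look (prep w) (rowLen (w.length + 1))) (rowLen (w.length + 1))).Good) ∧
      certE.fn w = true ::
        (Data.ofRows (look (prep w) (rowLen (w.length + 1))) (rowLen (w.length + 1))).inst.encode) ∨
      (¬ (w.length + 1 = Sz (rowLen (w.length + 1)) + 1 ∧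
        rowLen (w.length + 1) = look (prep w) (rowLen (w.length + 1)) 0 +
          look (prep w) (rowLen (w.length + 1)) 1 + 1 ∧
        (Data.ofRows (look (prep w) (rowLen (w.length + 1))) (rowLen (w.length + 1))).Good) ∧
      certE.fn w = [])) := by
  set y := prep w with hy
  set L := w.length + 1 with hL
  set N := rowLen L with hN
  -- the environment after the local definitions
  have hv00 : v0 w 0 = L := by rw [v0, update_self]
  set w1 := update (v0 w) 1 N with hw1
  set w2 := update w1 2 (look y N 0) with hw2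
  set w3 := update w2 3 (look y N 1) with hw3
  set w4 := update w3 4 (look y N 2) with hw4
  have h1 : w1 0 = L ∧ w1 1 = N := by
    rw [hw1, update_of_ne (by omega), hv00, update_self]; exact ⟨rfl, rfl⟩
  have h2 : w2 0 = L ∧ w2 1 = N ∧ w2 2 = look y N 0 := by
    rw [hw2, update_of_ne (by omega), update_of_ne (by omega), update_self]
    exact ⟨h1.1, h1.2, rfl⟩
  have h3 : w3 0 = L ∧ w3 1 = N ∧ w3 2 = look y N 0 ∧ w3 3 = look y N 1 := by
    rw [hw3, update_of_ne (by omega), update_of_ne (by omega), update_of_ne (by omega), update_self]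
    exact ⟨h2.1, h2.2.1, h2.2.2, rfl⟩
  have h4 : w4 0 = L ∧ w4 1 = N ∧ w4 2 = look y N 0 ∧ w4 3 = look y N 1 ∧ w4 4 = look y N 2 := by
    rw [hw4, update_of_ne (by omega), update_of_ne (by omega), update_of_ne (by omega),
      update_of_ne (by omega), update_self]
    exact ⟨h3.1, h3.2.1, h3.2.2.1, h3.2.2.2, rfl⟩
  -- the row length
  have eN : (Em.loop 0 (.lett (szPE.emit 4) (.ifLt 3 0 (.const [true]) (.const [])))).eval y 2
      (v0 w) = List.replicate N true := by
    have e1 : ∀ j, (Em.lett (szPE.emit 4) (.ifLt 3 0 (.const [true]) (.const []))).eval y 3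
        (update (v0 w) 2 j) = if Sz (j + 1) < L then [true] else [] := by
      intro j
      rw [lett_eval y szPE _ 3 _ (by simp [szPE, PE.bd])]
      have e2 : szPE.val (update (v0 w) 2 j) = Sz (j + 1) := by
        simp only [szPE, PE.val, update_self, Sz]
      rw [e2, ifLt_eval y 3 0 _ _ 4 _ (Sz (j + 1)) L (by rw [update_self])
        (by rw [update_of_ne (by omega), update_of_ne (by omega), hv00])]
      rfl
    simp only [Em.eval, hv00] at e1 ⊢
    simp only [e1]
    exact flatMap_ite _ _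
  have e1 : ∀ (c k : ℕ) (hk : 1 < k) (u : ℕ → ℕ), u 1 = N →
      ((Tm.look (.const c)).emit id k).eval y k u = List.replicate (look y N c) true := by
    intro c k hk u hu
    rw [Tm.emit_eval y (Tm.look (.const c)) id 2 (by omega) u k u trivial (Rel.id' 2 k u (by omega))]
    simp only [Tm.val, hu]
  have ef : certE.fn w = (Em.lett (.const []) (.lett (certF.test id 5 7)
      (.ifLt 5 6 (.seq (.const [true]) printI) (.const [])))).eval y 5 w4 := by
    have s1 : certE.fn w = (Em.lett ((Tm.look (.const 0)).emit id 3)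
        (.lett ((Tm.look (.const 1)).emit id 4)
        (.lett ((Tm.look (.const 2)).emit id 5)
        (.lett (.const []) (.lett (certF.test id 5 7)
          (.ifLt 5 6 (.seq (.const [true]) printI) (.const []))))))).eval y 2 w1 := by
      unfold Em.fn certE
      rw [Em.eval]
      rw [eN, List.length_replicate]
    rw [s1, Em.eval, e1 0 3 (by omega) w1 h1.2, List.length_replicate]
    rw [Em.eval, e1 1 4 (by omega) _ h2.2.1, List.length_replicate]
    rw [Em.eval, e1 2 5 (by omega) _ h3.2.1, List.length_replicate]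
  have hsat := certF_sat y w4 (by rw [h4.2.2.1, h4.2.1]) (by rw [h4.2.2.2.1, h4.2.1])
    (by rw [h4.2.2.2.2, h4.2.1])
  rw [h4.1, h4.2.1, h4.2.2.1, h4.2.2.2.1] at hsat
  have hR : Rel id 5 7 w4 (update w4 5 0) := by
    intro j hj
    exact ⟨by simp only [id]; rw [update_of_ne (by omega)], by simp only [id]; omega⟩
  have htest := test_eval y certF id 5 (by omega) w4 7 (update w4 5 0) certF_bd hR
  rw [hsat] at htest
  set T := ((certF.test id 5 7).eval y 7 (update w4 5 0)).length with hT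
  have ef2 : certE.fn w = if 0 < T then ((Em.seq (.const [true]) printI).eval y 7
      (update (update w4 5 0) 6 T)) else [] := by
    rw [ef]
    have s2 : (Em.lett (.const []) (.lett (certF.test id 5 7)
      (.ifLt 5 6 (.seq (.const [true]) printI) (.const [])))).eval y 5 w4 =
        (Em.ifLt 5 6 (.seq (.const [true]) printI) (.const [])).eval y 7
          (update (update w4 5 0) 6 T) := rfl
    rw [s2, ifLt_eval y 5 6 _ _ 7 _ 0 T (by rw [update_of_ne (by omega), update_self])
      (by rw [update_self])]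
    rfl
  by_cases hc : 0 < T
  · left
    refine ⟨htest.1 (List.ne_nil_of_length_pos hc), ?_⟩
    rw [ef2, if_pos hc]
    simp only [Em.eval]
    rw [printI_eval y _ (by rw [update_of_ne (by omega), update_of_ne (by omega),
        update_of_ne (by omega), update_of_ne (by omega), h4.2.2.1, h4.2.1])
      (by rw [update_of_ne (by omega), update_of_ne (by omega),
        update_of_ne (by omega), update_of_ne (by omega), h4.2.2.2.1, h4.2.1])
      (by rw [update_of_ne (by omega), update_of_ne (by omega),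
        update_of_ne (by omega), update_of_ne (by omega), h4.2.2.2.2, h4.2.1])]
    rw [update_of_ne (by omega), update_of_ne (by omega), h4.2.1]
    rfl
  · right
    refine ⟨?_, ?_⟩
    · intro h
      apply htest.2 h
      rw [← List.length_eq_zero_iff]; omega
    · rw [ef2, if_neg hc]

end NPC
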