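import Pool.Agent.NPC.Cert

/-!
# Every yes-instance of ODD-PATHS has a certificate
-/

namespace NPC

open Function OddP

/-- The table with rows `1^(G r) 0^(N - G r)`. -/
def tab (G : ℕ → ℕ) (N R : ℕ) : List Bool :=
  (List.range (R * N)).map (fun i => decide (i % N < G (i / N)))

theorem length_tab (G : ℕ → ℕ) (N R : ℕ) : (tab G N R).length = R * N := by simp [tab]

theorem filter_lt_length (N g : ℕ) (h : g ≤ N) :
    ((List.range N).filter (fun c => decide (c < g))).length = g := by
  induction N with
  | zero =>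
    have : g = 0 := by omega
    subst this; rfl
  | succ N ih =>
    rw [List.range_succ, List.filter_append, List.length_append]
    rcases Nat.lt_or_ge N g with h1 | h1
    · have hg : g = N + 1 := by omega
      subst hg
      have : (List.range N).filter (fun c => decide (c < N + 1)) = List.range N := by
        apply List.filter_eq_self.2
        intro a ha
        rw [List.mem_range] at ha
        simp only [decide_eq_true_eq]
        omega
      rw [this]
      simp
    · rw [ih h1]
      have : (List.filter (fun c => decide (c < g)) [N]) = [] := by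
        rw [List.filter_cons_of_neg (by simp; omega)]
        rfl
      rw [this]
      simp

theorem look_tab (G : ℕ → ℕ) (N R r : ℕ) (hr : r < R) (hG : G r ≤ N) :
    look (prep (tab G N R).reverse) N r = G r := by
  unfold look prep
  rw [List.reverse_reverse]
  have h1 : ∀ c ∈ List.range N, (decide ((false :: tab G N R)[1 + r * N + c]? = some true)) =
      decide (c < G r) := by
    intro c hc
    rw [List.mem_range] at hc
    have hi : r * N + c < R * N := by
      calc r * N + c < r * N + N := by omega
        _ = (r + 1) * N := by ring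
        _ ≤ R * N := Nat.mul_le_mul_right _ hr
    have h2 : (false :: tab G N R)[1 + r * N + c]? = some (decide (c < G r)) := by
      rw [show 1 + r * N + c = (r * N + c) + 1 by ring, List.getElem?_cons_succ, tab,
        List.getElem?_map, List.getElem?_range hi]
      simp only [Option.map_some]
      have h3 : (r * N + c) % N = c := by
        rw [Nat.mul_comm, Nat.mul_add_mod, Nat.mod_eq_of_lt hc]
      have h4 : (r * N + c) / N = r := by
        rw [Nat.mul_comm, Nat.mul_add_div (by omega), Nat.div_eq_of_lt hc, Nat.add_zero]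
      rw [h3, h4]
    rw [h2]
    by_cases h : c < G r <;> simp [h]
  rw [List.filter_congr h1]
  exact filter_lt_length N (G r) hG

theorem Sz_mono {a b : ℕ} (h : a < b) : Sz a < Sz b := by
  unfold Sz
  have h1 : a * (3 + 5 * a + 2 * (a * a)) ≤ a * (3 + 5 * b + 2 * (b * b)) := by
    apply Nat.mul_le_mul_left
    have : a * a ≤ b * b := Nat.mul_le_mul h.le h.le
    omega
  have h2 : a * (3 + 5 * b + 2 * (b * b)) < b * (3 + 5 * b + 2 * (b * b)) := by
    apply Nat.mul_lt_mul_of_pos_right h
    omega
  omega

theorem rowLen_eq (N : ℕ) : rowLen (Sz N + 1) = N := by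
  unfold rowLen
  have h1 : ∀ j ∈ List.range (Sz N + 1), decide (Sz (j + 1) < Sz N + 1) = decide (j < N) := by
    intro j _
    congr 1
    rw [eq_iff_iff]
    constructor
    · intro h
      by_contra hcon
      have := Sz_mono (a := N) (b := j + 1) (by omega)
      omega
    · intro h
      rcases Nat.lt_or_ge (j + 1) N with h2 | h2
      · have := Sz_mono h2; omega
      · have : j + 1 = N := by omega
        rw [this]; omega
  rw [List.filter_congr h1]
  apply filter_lt_length
  unfold Sz
  have : N * 1 ≤ N * (3 + 5 * N + 2 * (N * N)) := Nat.mul_le_mul_left _ (by omega)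
  omega

/-- The values of the rows for given data. -/
def rowVal (D : Data) (N r : ℕ) : ℕ :=
  if r < 3 then (if r = 0 then D.n else if r = 1 then D.m else D.k)
  else if r - 3 < N then D.e1 (r - 3)
  else if r - 3 < 2 * N then D.e2 (r - 3 - N)
  else if r - 3 < 3 * N then D.X (r - 3 - 2 * N)
  else if r - 3 < 4 * N then D.Y (r - 3 - 3 * N)
  else if r - 3 < 5 * N then D.len (r - 3 - 4 * N)
  else if r - 3 < 5 * N + N * N then D.pv ((r - 3 - 5 * N) / N) ((r - 3 - 5 * N) % N)
  else D.pe ((r - 3 - 5 * N - N * N) / N) ((r - 3 - 5 * N - N * N) % N)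

/-- If all values are at most `N`, a table with these data exists. -/
theorem exists_table (D : Data) (N : ℕ) (hn : D.n ≤ N) (hm : D.m ≤ N) (hk : D.k ≤ N)
    (h1 : ∀ i, D.e1 i ≤ N) (h2 : ∀ i, D.e2 i ≤ N) (h3 : ∀ i, D.X i ≤ N) (h4 : ∀ i, D.Y i ≤ N)
    (h5 : ∀ i, D.len i ≤ N) (h6 : ∀ a i, D.pv a i ≤ N) (h7 : ∀ a i, D.pe a i ≤ N) :
    ∃ w : List Bool, w.length = Sz N ∧
      let D' := Data.ofRows (look (prep w) N) N
      D'.n = D.n ∧ D'.m = D.m ∧ D'.k = D.k ∧ (∀ i < N, D'.e1 i = D.e1 i) ∧
      (∀ i < N, D'.e2 i = D.e2 i) ∧ (∀ i < N, D'.X i = D.X i) ∧ (∀ i < N, D'.Y i = D.Y i) ∧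
      (∀ i < N, D'.len i = D.len i) ∧ (∀ a < N, ∀ i < N, D'.pv a i = D.pv a i) ∧
      (∀ a < N, ∀ i < N, D'.pe a i = D.pe a i) := by
  have hG : ∀ r, rowVal D N r ≤ N := by
    intro r
    unfold rowVal
    split_ifs
    · exact hn
    · exact hm
    · exact hk
    · exact h1 _
    · exact h2 _
    · exact h3 _
    · exact h4 _
    · exact h5 _
    · exact h6 _ _
    · exact h7 _ _
  refine ⟨(tab (rowVal D N) N (3 + 5 * N + 2 * (N * N))).reverse, ?_, ?_⟩
  · rw [List.length_reverse, length_tab, Sz, Nat.mul_comm]
  · intro D'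
    have hF : ∀ r < 3 + 5 * N + 2 * (N * N),
        look (prep (tab (rowVal D N) N (3 + 5 * N + 2 * (N * N))).reverse) N r = rowVal D N r :=
      fun r hr => look_tab _ _ _ _ hr (hG r)
    have hmul : ∀ a < N, ∀ i < N, a * N + i < N * N := by
      intro a ha i hi
      calc a * N + i < a * N + N := by omega
        _ = (a + 1) * N := by ring
        _ ≤ N * N := Nat.mul_le_mul_right _ ha
    have hdiv : ∀ a < N, ∀ i < N, (a * N + i) / N = a ∧ (a * N + i) % N = i := by
      intro a ha i hi
      constructor
      · rw [Nat.mul_comm, Nat.mul_add_div (by omega), Nat.div_eq_of_lt hi, Nat.add_zero]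
      · rw [Nat.mul_comm, Nat.mul_add_mod, Nat.mod_eq_of_lt hi]
    refine ⟨?_, ?_, ?_, ?_, ?_, ?_, ?_, ?_, ?_, ?_⟩
    · exact (hF 0 (by omega)).trans rfl
    · exact (hF 1 (by omega)).trans rfl
    · exact (hF 2 (by omega)).trans rfl
    · intro i hi
      refine (hF (3 + i) (by omega)).trans ?_
      unfold rowVal
      rw [if_neg (by omega), if_pos (by omega)]
      congr 1; omega
    · intro i hi
      refine (hF (3 + N + i) (by omega)).trans ?_
      unfold rowVal
      rw [if_neg (by omega), if_neg (by omega), if_pos (by omega)]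
      congr 1; omega
    · intro i hi
      refine (hF (3 + 2 * N + i) (by omega)).trans ?_
      unfold rowVal
      rw [if_neg (by omega), if_neg (by omega), if_neg (by omega), if_pos (by omega)]
      congr 1; omega
    · intro i hi
      refine (hF (3 + 3 * N + i) (by omega)).trans ?_
      unfold rowVal
      rw [if_neg (by omega), if_neg (by omega), if_neg (by omega), if_neg (by omega),
        if_pos (by omega)]
      congr 1; omega
    · intro i hi
      refine (hF (3 + 4 * N + i) (by omega)).trans ?_
      unfold rowVal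
      rw [if_neg (by omega), if_neg (by omega), if_neg (by omega), if_neg (by omega),
        if_neg (by omega), if_pos (by omega)]
      congr 1; omega
    · intro a ha i hi
      have := hmul a ha i hi
      refine (hF (3 + 5 * N + a * N + i) (by omega)).trans ?_
      unfold rowVal
      rw [if_neg (by omega), if_neg (by omega), if_neg (by omega), if_neg (by omega),
        if_neg (by omega), if_neg (by omega), if_pos (by omega)]
      rw [show 3 + 5 * N + a * N + i - 3 - 5 * N = a * N + i by omega, (hdiv a ha i hi).1,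
        (hdiv a ha i hi).2]
    · intro a ha i hi
      have := hmul a ha i hi
      refine (hF (3 + 5 * N + N * N + a * N + i) (by omega)).trans ?_
      unfold rowVal
      rw [if_neg (by omega), if_neg (by omega), if_neg (by omega), if_neg (by omega),
        if_neg (by omega), if_neg (by omega), if_neg (by omega)]
      rw [show 3 + 5 * N + N * N + a * N + i - 3 - 5 * N - N * N = a * N + i by omega,
        (hdiv a ha i hi).1, (hdiv a ha i hi).2]

/-- Every valid yes-instance has a certificate. -/
theorem exists_cert (I : Instance) (hI : I.Valid) (hY : I.Yes) :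
    ∃ w : List Bool, certE.fn w = true :: I.encode := by
  obtain ⟨P, hodd, hP⟩ := hY
  set n := I.n with hn
  set m := I.edges.length with hm
  set N := n + m + 1 with hN
  have hJ : ∀ (e u v : ℕ), I.Joins e u v → e < m ∧ u < n ∧ v < n := by
    intro e u v h
    rcases h with h | h
    · have h1 := hI.edges_lt _ (List.mem_of_getElem? h)
      have h2 := (List.getElem?_eq_some_iff.1 h).1
      exact ⟨h2, h1.1, h1.2⟩
    · have h1 := hI.edges_lt _ (List.mem_of_getElem? h)
      have h2 := (List.getElem?_eq_some_iff.1 h).1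
      exact ⟨h2, h1.2, h1.1⟩
  have hv : ∀ a, ∀ i ≤ (P a).len, (P a).v i < n := by
    intro a i hi
    rcases Nat.lt_or_ge i (P a).len with h | h
    · exact (hJ _ _ _ ((P a).join i h)).2.1
    · have : i = (P a).len := by omega
      rw [this]
      exact hI.Y_lt _ (P a).stop
  have hlen : ∀ a, (P a).len + 1 ≤ n := by
    intro a
    have h1 : (Finset.range ((P a).len + 1)).card ≤ (Finset.range n).card := by
      apply Finset.card_le_card_of_injOn (P a).v
      · intro i hi
        simp only [Finset.coe_range, Set.mem_Iio] at hi ⊢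
        exact hv a i (by omega)
      · intro i hi j hj h
        simp only [Finset.coe_range, Set.mem_Iio] at hi hj
        exact (P a).inj i (by omega) j (by omega) h
    simpa using h1
  have hkn : I.k ≤ n := by
    have h1 : I.X.toFinset.card ≤ (Finset.range n).card := by
      apply Finset.card_le_card
      intro x hx
      rw [List.mem_toFinset] at hx
      exact Finset.mem_range.2 (hI.X_lt x hx)
    rw [List.toFinset_card_of_nodup hI.X_nodup, hI.X_card, Finset.card_range] at h1
    exact h1
  let D : Data :=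
    { n := n
      m := m
      k := I.k
      e1 := fun i => ((I.edges[i]?).getD (0, 0)).1
      e2 := fun i => ((I.edges[i]?).getD (0, 0)).2
      X := fun i => (I.X[i]?).getD 0
      Y := fun i => (I.Y[i]?).getD 0
      len := fun a => if h : a < I.k then (P ⟨a, h⟩).len else 0
      pv := fun a i => if h : a < I.k then (if i ≤ (P ⟨a, h⟩).len then (P ⟨a, h⟩).v i else 0) else 0
      pe := fun a i => if h : a < I.k then (if i < (P ⟨a, h⟩).len then (P ⟨a, h⟩).e i else 0) else 0 }
  have hgetE : ∀ i : ℕ, ((I.edges[i]?).getD (0, 0)).1 ≤ N ∧ ((I.edges[i]?).getD (0, 0)).2 ≤ N := by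
    intro i
    rcases h : I.edges[i]? with _ | p
    · simp
    · have := hI.edges_lt _ (List.mem_of_getElem? h)
      simp only [Option.getD_some]
      omega
  have hgetX : ∀ i : ℕ, (I.X[i]?).getD 0 ≤ N := by
    intro i
    rcases h : I.X[i]? with _ | p
    · simp
    · have := hI.X_lt _ (List.mem_of_getElem? h)
      simp only [Option.getD_some]
      omega
  have hgetY : ∀ i : ℕ, (I.Y[i]?).getD 0 ≤ N := by
    intro i
    rcases h : I.Y[i]? with _ | p
    · simp
    · have := hI.Y_lt _ (List.mem_of_getElem? h)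
      simp only [Option.getD_some]
      omega
  obtain ⟨w, hw, t1, t2, t3, t4, t5, t6, t7, t8, t9, t10⟩ := exists_table D N (by
    change n ≤ N; omega) (by change m ≤ N; omega) (by change I.k ≤ N; omega)
    (fun i => (hgetE i).1) (fun i => (hgetE i).2) hgetX hgetY
    (by
      intro a
      change (if h : a < I.k then (P ⟨a, h⟩).len else 0) ≤ N
      split_ifs with h
      · have := hlen ⟨a, h⟩; omega
      · omega)
    (by
      intro a i
      change (if h : a < I.k then (if i ≤ (P ⟨a, h⟩).len then (P ⟨a, h⟩).v i else 0) else 0) ≤ N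
      split_ifs with h h'
      · have := hv ⟨a, h⟩ i h'; omega
      · omega
      · omega)
    (by
      intro a i
      change (if h : a < I.k then (if i < (P ⟨a, h⟩).len then (P ⟨a, h⟩).e i else 0) else 0) ≤ N
      split_ifs with h h'
      · have := (hJ _ _ _ ((P ⟨a, h⟩).join i h')).1; omega
      · omega
      · omega)
  set D' := Data.ofRows (look (prep w) N) N with hD'
  have hkN : I.k < N := by omega
  -- evaluation of the data
  have dlen : ∀ a (h : a < I.k), D'.len a = (P ⟨a, h⟩).len := by
    intro a h
    rw [t8 a (by omega)]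
    change (if h : a < I.k then (P ⟨a, h⟩).len else 0) = _
    rw [dif_pos h]
  have dpv : ∀ a (h : a < I.k), ∀ i ≤ (P ⟨a, h⟩).len, D'.pv a i = (P ⟨a, h⟩).v i := by
    intro a h i hi
    have := hlen ⟨a, h⟩
    rw [t9 a (by omega) i (by omega)]
    change (if h : a < I.k then (if i ≤ (P ⟨a, h⟩).len then (P ⟨a, h⟩).v i else 0) else 0) = _
    rw [dif_pos h, if_pos hi]
  have dpe : ∀ a (h : a < I.k), ∀ i < (P ⟨a, h⟩).len, D'.pe a i = (P ⟨a, h⟩).e i := by
    intro a h i hi
    have := hlen ⟨a, h⟩
    rw [t10 a (by omega) i (by omega)]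
    change (if h : a < I.k then (if i < (P ⟨a, h⟩).len then (P ⟨a, h⟩).e i else 0) else 0) = _
    rw [dif_pos h, if_pos hi]
  have dX : ∀ (i : ℕ) (h : i < I.X.length), D'.X i = I.X[i]'h := by
    intro i h
    rw [t6 i (by rw [hI.X_card] at h; omega)]
    change (I.X[i]?).getD 0 = _
    rw [List.getElem?_eq_getElem h]
    rfl
  have dY : ∀ (i : ℕ) (h : i < I.Y.length), D'.Y i = I.Y[i]'h := by
    intro i h
    rw [t7 i (by rw [hI.Y_card] at h; omega)]
    change (I.Y[i]?).getD 0 = _
    rw [List.getElem?_eq_getElem h]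
    rfl
  have dE : ∀ (i : ℕ) (h : i < I.edges.length),
      D'.e1 i = (I.edges[i]'h).1 ∧ D'.e2 i = (I.edges[i]'h).2 := by
    intro i h
    rw [t4 i (by omega), t5 i (by omega)]
    change ((I.edges[i]?).getD (0, 0)).1 = _ ∧ ((I.edges[i]?).getD (0, 0)).2 = _
    rw [List.getElem?_eq_getElem h]
    exact ⟨rfl, rfl⟩
  have hXmem : ∀ u ∈ I.X, ∃ j < I.k, D'.X j = u := by
    intro u hu
    obtain ⟨j, hj, rfl⟩ := List.mem_iff_getElem.1 hu
    exact ⟨j, by rw [hI.X_card] at hj; exact hj, dX j hj⟩
  have hYmem : ∀ u ∈ I.Y, ∃ j < I.k, D'.Y j = u := by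
    intro u hu
    obtain ⟨j, hj, rfl⟩ := List.mem_iff_getElem.1 hu
    exact ⟨j, by rw [hI.Y_card] at hj; exact hj, dY j hj⟩
  have hXm : ∀ j < I.k, D'.X j ∈ I.X := by
    intro j hj
    rw [dX j (by rw [hI.X_card]; exact hj)]
    exact List.getElem_mem _
  have hYm : ∀ j < I.k, D'.Y j ∈ I.Y := by
    intro j hj
    rw [dY j (by rw [hI.Y_card]; exact hj)]
    exact List.getElem_mem _
  have hn' : D'.n = n := t1
  have hm' : D'.m = m := t2
  have hk' : D'.k = I.k := t3
  have hGood : D'.Good := by
    refine ⟨?_, ?_, ?_, ?_, ?_, ?_, ?_, ?_, ?_, ?_, ?_⟩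
    · rw [hk']; exact hI.pos
    · intro e he
      rw [hm'] at he
      obtain ⟨h1, h2⟩ := dE e he
      rw [h1, h2, hn']
      exact hI.edges_lt _ (List.getElem_mem _)
    · intro i hi
      rw [hk'] at hi
      rw [hn']
      refine ⟨hI.X_lt _ (hXm i hi), hI.Y_lt _ (hYm i hi), ?_⟩
      intro j hj
      constructor
      · rw [dX i (by rw [hI.X_card]; exact hi), dX j (by rw [hI.X_card]; omega)]
        intro h
        have := (List.Nodup.getElem_inj_iff hI.X_nodup).1 h
        omega
      · rw [dY i (by rw [hI.Y_card]; exact hi), dY j (by rw [hI.Y_card]; omega)]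
        intro h
        have := (List.Nodup.getElem_inj_iff hI.Y_nodup).1 h
        omega
    · intro a ha
      rw [hk'] at ha
      rw [dlen a ha]
      obtain ⟨q, hq⟩ := hodd ⟨a, ha⟩
      exact ⟨q, by omega, hq⟩
    · intro a ha i hi
      rw [hk'] at ha
      rw [dlen a ha] at hi
      have hj := (P ⟨a, ha⟩).join i hi
      have hj2 := (hJ _ _ _ hj).1
      rw [dpe a ha i hi, dpv a ha i hi.le, dpv a ha (i + 1) hi, hm']
      refine ⟨hj2, ?_⟩
      obtain ⟨h1, h2⟩ := dE _ hj2
      rw [h1, h2]
      rcases hj with hj | hj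
      · rw [List.getElem?_eq_getElem hj2] at hj
        have := Option.some.inj hj
        left
        rw [this]
        exact ⟨rfl, rfl⟩
      · rw [List.getElem?_eq_getElem hj2] at hj
        have := Option.some.inj hj
        right
        rw [this]
        exact ⟨rfl, rfl⟩
    · intro a ha i hi j hj
      rw [hk'] at ha
      rw [dlen a ha] at hi
      rw [dpv a ha i (by omega), dpv a ha j (by omega)]
      intro h
      have := (P ⟨a, ha⟩).inj j (by omega) i (by omega) h
      omega
    · intro a ha
      rw [hk'] at ha ⊢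
      obtain ⟨j, hj, hj2⟩ := hXmem _ (P ⟨a, ha⟩).start
      refine ⟨j, hj, ?_⟩
      rw [dpv a ha 0 (Nat.zero_le _), hj2]
    · intro a ha
      rw [hk'] at ha ⊢
      obtain ⟨j, hj, hj2⟩ := hYmem _ (P ⟨a, ha⟩).stop
      refine ⟨j, hj, ?_⟩
      rw [dlen a ha, dpv a ha _ le_rfl, hj2]
    · intro a ha i hi hi0 j hj
      rw [hk'] at ha hj
      rw [dlen a ha] at hi
      obtain ⟨h1, h2⟩ := (P ⟨a, ha⟩).inner i hi0 hi
      rw [dpv a ha i hi.le]
      constructor
      · intro h; exact h1 (h ▸ hXm j hj)
      · intro h; exact h2 (h ▸ hYm j hj)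
    · intro a ha b hb i hi hi0 j hj hj0
      rw [hk'] at ha
      have hbk : b < I.k := by omega
      rw [dlen a ha] at hi
      rw [dlen b hbk] at hj
      rw [dpv a ha i hi.le, dpv b hbk j hj.le]
      intro h
      have hd := (hP ⟨a, ha⟩ ⟨b, hbk⟩ (by simp; omega)).1
      rw [Set.disjoint_left] at hd
      exact hd ⟨i, hi0, hi, rfl⟩ ⟨j, hj0, hj, h.symm⟩
    · rintro a ha b hb ⟨h1, h2⟩
      rw [hk'] at ha
      have hbk : b < I.k := by omega
      apply (hP ⟨a, ha⟩ ⟨b, hbk⟩ (by simp; omega)).2
      ext e
      constructor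
      · rintro ⟨i, hi, rfl⟩
        obtain ⟨j, hj, hj2⟩ := h1 i (by rw [dlen a ha]; exact hi)
        rw [dlen b hbk] at hj
        rw [dpe b hbk j hj, dpe a ha i hi] at hj2
        exact ⟨j, hj, hj2⟩
      · rintro ⟨j, hj, rfl⟩
        obtain ⟨i, hi, hi2⟩ := h2 j (by rw [dlen b hbk]; exact hj)
        rw [dlen a ha] at hi
        rw [dpe b hbk j hj, dpe a ha i hi] at hi2
        exact ⟨i, hi, hi2⟩
  have hinst : D'.inst = I := by
    have e1 : (List.range D'.m).map (fun e => (D'.e1 e, D'.e2 e)) = I.edges := by
      rw [hm']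
      apply List.ext_getElem
      · simp [hm]
      · intro i h1 h2
        simp only [List.getElem_map, List.getElem_range]
        obtain ⟨h3, h4⟩ := dE i h2
        rw [h3, h4]
    have e2 : (List.range D'.k).map D'.X = I.X := by
      rw [hk']
      apply List.ext_getElem
      · simp [hI.X_card]
      · intro i h1 h2
        simp only [List.getElem_map, List.getElem_range]
        exact dX i h2
    have e3 : (List.range D'.k).map D'.Y = I.Y := by
      rw [hk']
      apply List.ext_getElem
      · simp [hI.Y_card]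
      · intro i h1 h2
        simp only [List.getElem_map, List.getElem_range]
        exact dY i h2
    unfold Data.inst
    rw [e1, e2, e3, hn', hk', hn]
  refine ⟨w, ?_⟩
  have hrow : rowLen (w.length + 1) = N := by rw [hw, rowLen_eq]
  have := certE_fn w
  rw [hrow] at this
  rcases this with ⟨-, h⟩ | ⟨h, -⟩
  · rw [h]
    rw [← hD', hinst]
  · exfalso
    apply h
    refine ⟨by rw [hw], ?_, hGood⟩
    have h1 : look (prep w) N 0 = n := hn'
    have h2 : look (prep w) N 1 = m := hm'
    rw [h1, h2]

end NPC
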