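import Pool.Agent.NPC.Comp

/-!
# Programs give polynomial-time functions
-/

namespace NPC

open Turing Function

section
variable {K : Type} [DecidableEq K]

/-- The machine running a program. -/
def mkTM (p : Prog K) (k₀ k₁ : K) : FinTM2 where
  K := (insert k₀ (insert k₁ p.keys) : Finset K)
  k₀ := ⟨k₀, by simp⟩
  k₁ := ⟨k₁, by simp⟩
  Γ := fun _ => Sym
  Λ := Option (p.restrict (insert k₀ (insert k₁ p.keys)) (by
    intro x hx; simp [hx])).Lab
  main := some (p.restrict (insert k₀ (insert k₁ p.keys)) (by
    intro x hx; simp [hx])).entry
  σ := Reg
  initialState := (none, false)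
  Γk₀Fin := inferInstanceAs (Fintype Sym)
  m := fun l => match l with
    | some l => (p.restrict (insert k₀ (insert k₁ p.keys)) (by
        intro x hx; simp [hx])).code some none l
    | none => .halt

theorem polyTime_of_run {α β : Type} (ea : α → List Sym) (eb : β → List Sym) (f : α → β)
    (p : Prog K) (k₀ k₁ : K) (P : Polynomial ℕ)
    (h : ∀ a, ∃ c ≤ P.eval (ea a).length, Run p (none, false)
      (update (fun _ => []) k₀ (ea a)) (none, false) (update (fun _ => []) k₁ (eb (f a))) c) :
    PolyTime ea eb f := by
  refine ⟨{ tm := mkTM p k₀ k₁
            inputAlphabet := Equiv.refl _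
            outputAlphabet := Equiv.refl _
            time := P + 1
            outputsFun := ?_ }, ?_⟩
  · intro a
    have hp : p.keys ⊆ (insert k₀ (insert k₁ p.keys) : Finset K) := by
      intro x hx; simp [hx]
    obtain ⟨c, hc, hr⟩ := Classical.indefiniteDescription _ (h a)
    have h1 := hr.restrict hp
    have h2 := run_steps (mkTM p k₀ k₁).m h1 some none (fun l => rfl)
    have h3 : Steps (TM2.step (mkTM p k₀ k₁).m) 1
        ⟨some none, (none, false), fun j => update (fun _ => []) k₁ (eb (f a)) j.1⟩
        ⟨none, (none, false), fun j => update (fun _ => []) k₁ (eb (f a)) j.1⟩ := Steps.one rfl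
    have h4 := h2.trans h3
    refine ⟨⟨c + 1, ?_⟩, ?_⟩
    · have e1 : initList (mkTM p k₀ k₁) (List.map (Equiv.refl _).invFun (ea a)) =
          ⟨some (some (p.restrict _ hp).entry), (none, false),
            fun j => update (fun _ => []) k₀ (ea a) j.1⟩ := by
        unfold initList
        congr 1
        funext k
        by_cases hk : k = (mkTM p k₀ k₁).k₀
        · rw [dif_pos hk]
          subst hk
          change List.map id (ea a) = update (fun _ => []) k₀ (ea a) k₀
          rw [update_self, List.map_id]
        · rw [dif_neg hk]
          change [] = update (fun _ => []) k₀ (ea a) k.1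
          rw [update_of_ne]
          intro h
          exact hk (Subtype.ext h)
      have e2 : haltList (mkTM p k₀ k₁) (List.map (Equiv.refl _).invFun (eb (f a))) =
          ⟨none, (none, false), fun j => update (fun _ => []) k₁ (eb (f a)) j.1⟩ := by
        unfold haltList
        congr 1
        funext k
        by_cases hk : k = (mkTM p k₀ k₁).k₁
        · rw [dif_pos hk]
          subst hk
          change List.map id (eb (f a)) = update (fun _ => []) k₁ (eb (f a)) k₁
          rw [update_self, List.map_id]
        · rw [dif_neg hk]
          change [] = update (fun _ => []) k₁ (eb (f a)) k.1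
          rw [update_of_ne]
          intro h
          exact hk (Subtype.ext h)
      exact (congrArg (fun z => (flip bind (mkTM p k₀ k₁).step)^[c + 1] (some z)) e1).trans
        (Eq.trans h4 (congrArg some e2.symm))
    · change c + 1 ≤ (P + 1).eval (ea a).length
      rw [Polynomial.eval_add, Polynomial.eval_one]
      omega
  · intro k
    exact inferInstanceAs (Finite Sym)

end

end NPC
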