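import Pool.Agent.NPC.Em

/-!
# Correctness and cost of the compiler of emitter programs
-/

namespace NPC

open Function Key

theorem run_pops (k a : Key) (hne : k ≠ a) : ∀ (l : List Sym) (r : Reg) (S : Stk Key), S k = l →
    Run (.whil k (.pop a)) r S (none, r.2)
      (update (update S k []) a ((S a).drop l.length)) (2 * l.length + 1) := by
  intro l
  induction l with
  | nil =>
    intro r S h
    have h1 : update (update S k []) a ((S a).drop ([] : List Sym).length) = S := by
      funext j
      by_cases h2 : j = a
      · subst h2; simp
      · rw [update_of_ne h2]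
        by_cases h3 : j = k
        · subst h3; rw [update_self, h]
        · rw [update_of_ne h3]
    rw [h1]
    exact Run.whilE h
  | cons b l ih =>
    intro r S h
    have h1 := Run.pop a (some b, r.2) (update S k l)
    have h2 := ih (((update S k l) a).head?, r.2)
      (update (update S k l) a ((update S k l) a).tail) (by
      rw [update_of_ne hne, update_self])
    have h3 := Run.whilS (p := .pop a) h h1 h2
    have e1 : update (update (update (update S k l) a ((update S k l) a).tail) k []) a
        (((update (update S k l) a ((update S k l) a).tail) a).drop l.length) =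
        update (update S k []) a ((S a).drop (b :: l).length) := by
      funext j
      by_cases h4 : j = a
      · subst h4
        rw [update_self, update_self, update_self, update_of_ne hne.symm, List.length_cons]
        rw [List.drop_tail]
      · rw [update_of_ne h4, update_of_ne h4]
        by_cases h5 : j = k
        · subst h5; rw [update_self, update_self]
        · rw [update_of_ne h5, update_of_ne h4, update_of_ne h5, update_of_ne h5]
    rw [e1] at h3
    have e2 : 1 + (2 * l.length + 1) + 1 = 2 * (b :: l).length + 1 := by
      rw [List.length_cons]; ring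
    rw [e2] at h3
    exact h3

theorem run_pushBack (k : Key) (r : Reg) (S : Stk Key) :
    ∃ c ≤ 2, Run (pushBack k) r S r (update S k (r.1.toList ++ S k)) c := by
  rcases hr : r.1 with _ | a
  · refine ⟨1 + 1, by omega, ?_⟩
    have : update S k ((none : Option Sym).toList ++ S k) = S := by simp
    rw [this]
    exact Run.iteF (by simp [hr]) (run_nop r S)
  · refine ⟨1 + 1, by omega, ?_⟩
    have h := run_pushr k r S
    rw [hr] at h
    exact Run.iteT (by simp [hr]) h

theorem run_skip (k a b : Key) (h1 : k ≠ a) (h2 : k ≠ b) (h3 : a ≠ b) :
    ∀ (l : List Sym) (r : Reg) (S : Stk Key), S k = l → ∃ c ≤ 4 * l.length + 1,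
    Run (.whil k (.seq (.pop a) (pushBack b))) r S (none, r.2)
      (update (update (update S k []) a ((S a).drop l.length)) b
        (((S a).take l.length).reverse ++ S b)) c := by
  intro l
  induction l with
  | nil =>
    intro r S h
    refine ⟨1, by simp, ?_⟩
    have e1 : (update (update (update S k []) a ((S a).drop ([] : List Sym).length)) b
        (((S a).take ([] : List Sym).length).reverse ++ S b)) = S := by
      funext j
      by_cases hj : j = b
      · subst hj; simp
      · rw [update_of_ne hj]
        by_cases hj2 : j = a
        · subst hj2; simp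
        · rw [update_of_ne hj2]
          by_cases hj3 : j = k
          · subst hj3; rw [update_self, h]
          · rw [update_of_ne hj3]
    rw [e1]
    exact Run.whilE h
  | cons x l ih =>
    intro r S h
    have s1 := Run.pop a (some x, r.2) (update S k l)
    have ha : (update S k l) a = S a := update_of_ne h1.symm _ _
    rw [ha] at s1
    obtain ⟨c2, hc2, s2⟩ := run_pushBack b ((S a).head?, r.2) (update (update S k l) a (S a).tail)
    set S2 := update (update (update S k l) a (S a).tail) b
      (((S a).head?, r.2).1.toList ++ (update (update S k l) a (S a).tail) b) with hS2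
    have hk2 : S2 k = l := by
      rw [hS2, update_of_ne h2, update_of_ne h1, update_self]
    obtain ⟨c3, hc3, s3⟩ := ih ((S a).head?, r.2) S2 hk2
    refine ⟨1 + c2 + c3 + 1, by rw [List.length_cons]; omega, ?_⟩
    have s4 := Run.whilS (p := .seq (.pop a) (pushBack b)) h (Run.seq s1 s2) s3
    have e1 : (update (update (update S2 k []) a ((S2 a).drop l.length)) b
        (((S2 a).take l.length).reverse ++ S2 b)) =
        (update (update (update S k []) a ((S a).drop (x :: l).length)) b
        (((S a).take (x :: l).length).reverse ++ S b)) := by
      have ha2 : S2 a = (S a).tail := by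
        rw [hS2, update_of_ne h3, update_self]
      have hb2 : S2 b = (S a).head?.toList ++ S b := by
        rw [hS2, update_self, update_of_ne h3.symm, update_of_ne h2.symm]
      rw [ha2, hb2]
      funext j
      by_cases hj : j = b
      · subst hj
        rw [update_self, update_self, List.length_cons]
        rcases hSa : S a with _ | ⟨z, t⟩
        · simp
        · simp
      · rw [update_of_ne hj, update_of_ne hj]
        by_cases hj2 : j = a
        · subst hj2
          rw [update_self, update_self, List.length_cons, List.drop_tail]
        · rw [update_of_ne hj2, update_of_ne hj2]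
          by_cases hj3 : j = k
          · subst hj3; rw [update_self, update_self]
          · rw [update_of_ne hj3, update_of_ne hj3, hS2, update_of_ne hj, update_of_ne hj2,
              update_of_ne hj3]
    rw [e1] at s4
    exact s4

/-- loops with a counter -/
theorem run_loop (y : List Bool) (e : Em) (n : ℕ) (tgt : Key) (htgt : okT n tgt) (v : ℕ → ℕ)
    (B : ℕ) (hcost : ∀ (v' : ℕ → ℕ) (S : Stk Key), Inv y (n + 1) v' S → (∀ m, v' m ≤ B) → ∀ r,
      ∃ r' c, Run (e.comp (n + 1) tgt) r S r'
        (update S tgt (((e.eval y (n + 1) v').map some).reverse ++ S tgt)) c ∧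
        c ≤ e.costP.eval B) (hv : ∀ m, v m ≤ B) (N : ℕ) (hN : N ≤ B) :
    ∀ (i : ℕ), i ≤ N → ∀ (r : Reg) (S : Stk Key), Inv y (n + 1) (update v n (N - i)) S →
      (S (R n)).length = i → ∃ r' c, Run (.whil (R n) (.seq (e.comp (n + 1) tgt) (push1 (C n)))) r S
        r' (update (update (update S (R n) []) (C n) (List.replicate i one ++ S (C n))) tgt
          (((((List.range i).map (fun j => N - i + j)).flatMap
            (fun j => e.eval y (n + 1) (update v n j))).map some).reverse ++ S tgt)) c ∧
        c ≤ i * (e.costP.eval B + 2) + 1 := by
  obtain ⟨t1, t2, t3, t4, t5, t6⟩ := htgt.ne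
  intro i
  induction i with
  | zero =>
    intro _ r S hI hR
    have hR' : S (R n) = [] := List.length_eq_zero_iff.1 hR
    refine ⟨(none, r.2), 1, ?_, ?_⟩
    · have e1 : (update (update (update S (R n) []) (C n) (List.replicate 0 one ++ S (C n))) tgt
          (((((List.range 0).map (fun j => N - 0 + j)).flatMap
            (fun j => e.eval y (n + 1) (update v n j))).map some).reverse ++ S tgt)) = S := by
        funext j
        by_cases hj : j = tgt
        · subst hj; simp
        · rw [update_of_ne hj]
          by_cases hj2 : j = C n
          · subst hj2; simp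
          · rw [update_of_ne hj2]
            by_cases hj3 : j = R n
            · subst hj3; rw [update_self, hR']
            · rw [update_of_ne hj3]
      rw [e1]
      exact Run.whilE hR'
    · omega
  | succ i ih =>
    intro hi r S hI hR
    obtain ⟨a, l, hal⟩ : ∃ a l, S (R n) = a :: l := by
      rcases h : S (R n) with _ | ⟨a, l⟩
      · rw [h] at hR; simp at hR
      · exact ⟨a, l, rfl⟩
    have hl : l.length = i := by rw [hal] at hR; simpa using hR
    have hI1 : Inv y (n + 1) (update v n (N - (i + 1))) (update S (R n) l) := by
      refine ⟨by simpa using hI.inp, by simpa using hI.inp2, by simpa using hI.tmp,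
        fun m => by simpa using hI.cnt m, hI.cz, fun m hm => ?_, fun m hm => by
          simpa using hI.oz m hm⟩
      rw [update_of_ne (by simp; omega)]
      exact hI.rz m hm
    have hB1 : ∀ m, (update v n (N - (i + 1))) m ≤ B := by
      intro m
      by_cases hm : m = n
      · subst hm; rw [update_self]; omega
      · rw [update_of_ne hm]; exact hv m
    obtain ⟨r1, c1, s1, hc1⟩ := hcost _ _ hI1 hB1 (some a, r.2)
    set S1 := update (update S (R n) l) tgt
      (((e.eval y (n + 1) (update v n (N - (i + 1)))).map some).reverse ++
        (update S (R n) l) tgt) with hS1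
    have s2 := run_push1 (C n) r1 S1
    set S2 := update S1 (C n) (one :: S1 (C n)) with hS2
    have hI1' : Inv y (n + 1) (update v n (N - (i + 1))) S1 := hI1.upd_tgt htgt.succ _
    have hI2 : Inv y (n + 1) (update v n (N - i)) S2 := by
      refine ⟨by simpa [hS2] using hI1'.inp, by simpa [hS2] using hI1'.inp2,
        by simpa [hS2] using hI1'.tmp, ?_, ?_, fun m hm => by simpa [hS2] using hI1'.rz m hm,
        fun m hm => by simpa [hS2] using hI1'.oz m hm⟩
      · intro m
        by_cases hm : m = n
        · subst hm
          rw [hS2, update_self, update_self, List.length_cons, hI1'.cnt, update_self]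
          omega
        · rw [hS2, update_of_ne (by simpa using hm), update_of_ne hm, hI1'.cnt, update_of_ne hm]
      · intro m hm
        rw [update_of_ne (by omega)]
        have := hI1'.cz m hm
        rwa [update_of_ne (by omega)] at this
    have hR2 : (S2 (R n)).length = i := by
      rw [hS2, update_of_ne (by simp), hS1, update_of_ne (t5 n).symm, update_self, hl]
    obtain ⟨r3, c3, s3, hc3⟩ := ih (by omega) r1 S2 hI2 hR2
    refine ⟨r3, c1 + 1 + c3 + 1, ?_, ?_⟩
    · have s4 := Run.whilS (p := .seq (e.comp (n + 1) tgt) (push1 (C n))) hal (Run.seq s1 s2) s3
      have e1 : (update (update (update S2 (R n) []) (C n) (List.replicate i one ++ S2 (C n))) tgt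
          (((((List.range i).map (fun j => N - i + j)).flatMap
            (fun j => e.eval y (n + 1) (update v n j))).map some).reverse ++ S2 tgt)) =
          (update (update (update S (R n) []) (C n) (List.replicate (i + 1) one ++ S (C n))) tgt
          (((((List.range (i + 1)).map (fun j => N - (i + 1) + j)).flatMap
            (fun j => e.eval y (n + 1) (update v n j))).map some).reverse ++ S tgt)) := by
        have ht2 : S2 tgt = ((e.eval y (n + 1) (update v n (N - (i + 1)))).map some).reverse ++
            S tgt := by
          rw [hS2, update_of_ne (t4 n), hS1, update_self, update_of_ne (t5 n)]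
        have hc2 : S2 (C n) = one :: S (C n) := by
          rw [hS2, update_self, hS1, update_of_ne (t4 n).symm, update_of_ne (by simp)]
        rw [ht2, hc2]
        funext j
        by_cases hj : j = tgt
        · subst hj
          rw [update_self, update_self]
          have e3 : (List.range (i + 1)).map (fun j => N - (i + 1) + j) =
              (N - (i + 1)) :: (List.range i).map (fun j => N - i + j) := by
            rw [List.range_succ_eq_map, List.map_cons, List.map_map]
            congr 1
            apply List.map_congr_left
            intro a _
            simp only [comp_apply]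
            omega
          rw [e3, List.flatMap_cons, List.map_append, List.reverse_append, List.append_assoc]
        · rw [update_of_ne hj, update_of_ne hj]
          by_cases hj2 : j = C n
          · subst hj2
            rw [update_self, update_self, List.replicate_succ', List.append_assoc]
            rfl
          · rw [update_of_ne hj2, update_of_ne hj2]
            by_cases hj3 : j = R n
            · subst hj3; rw [update_self, update_self]
            · rw [update_of_ne hj3, update_of_ne hj3, hS2, update_of_ne hj2, hS1, update_of_ne hj,
                update_of_ne hj3]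
      rw [e1] at s4
      exact s4
    · have : (i + 1) * (Polynomial.eval B e.costP + 2) = i * (Polynomial.eval B e.costP + 2) +
        (Polynomial.eval B e.costP + 2) := by ring
      omega

/-- The compiled program prints the string `e.eval` on the target stack and changes nothing else. -/
theorem comp_run (y : List Bool) (e : Em) : ∀ (n : ℕ) (tgt : Key), okT n tgt →
    ∀ (v : ℕ → ℕ) (S : Stk Key), Inv y n v S → ∀ (B : ℕ), y.length ≤ B → (∀ m, v m ≤ B) →
    ∀ r, ∃ r' c, Run (e.comp n tgt) r S r'
        (update S tgt (((e.eval y n v).map some).reverse ++ S tgt)) c ∧ c ≤ e.costP.eval B := by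
  induction e with
  | const w =>
    intro n tgt htgt v S hI B hyB hv r
    refine ⟨r, w.length + 1, run_pushes tgt w r S, ?_⟩
    simp [Em.costP]
  | seq a b iha ihb =>
    intro n tgt htgt v S hI B hyB hv r
    obtain ⟨r1, c1, s1, h1⟩ := iha n tgt htgt v S hI B hyB hv r
    obtain ⟨r2, c2, s2, h2⟩ := ihb n tgt htgt v _ (hI.upd_tgt htgt _) B hyB hv r1
    refine ⟨r2, c1 + c2, ?_, ?_⟩
    · have s3 := Run.seq s1 s2
      rw [update_idem, update_self] at s3
      simp only [Em.eval, List.map_append, List.reverse_append, List.append_assoc]
      exact s3
    · simp only [Em.costP, Polynomial.eval_add]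
      omega
  | loop b e ih =>
    intro n tgt htgt v S hI B hyB hv r
    obtain ⟨t1, t2, t3, t4, t5, t6⟩ := htgt.ne
    -- copy the bound
    have s1 := run_copy (C b) tmp (R n) (by simp) (by simp) (by simp) r S hI.tmp
    rw [hI.rz n le_rfl, List.append_nil, hI.cnt b] at s1
    set S1 := update S (R n) (List.replicate (v b) one) with hS1
    have hvn : v n = 0 := hI.cz n le_rfl
    have hI1 : Inv y (n + 1) (update v n (v b - v b)) S1 := by
      have : update v n (v b - v b) = v := by
        rw [Nat.sub_self, ← hvn]; exact update_eq_self n v
      rw [this]
      exact ⟨by simpa [hS1] using hI.inp, by simpa [hS1] using hI.inp2, by simpa [hS1] using hI.tmp,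
        fun m => by simpa [hS1] using hI.cnt m, fun m hm => hI.cz m (by omega),
        fun m hm => by
          rw [hS1, update_of_ne (by simp; omega)]; exact hI.rz m (by omega),
        fun m hm => by simpa [hS1] using hI.oz m (by omega)⟩
    obtain ⟨r2, c2, s2, hc2⟩ := run_loop y e n tgt htgt v B
      (fun v' S' hI' hv' r' => ih (n + 1) tgt htgt.succ v' S' hI' B hyB hv' r') hv (v b) (hv b)
      (v b) le_rfl (none, r.2) S1 hI1 (by rw [hS1, update_self, List.length_replicate])
    set S2 := (update (update (update S1 (R n) []) (C n) (List.replicate (v b) one ++ S1 (C n))) tgt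
          (((((List.range (v b)).map (fun j => v b - v b + j)).flatMap
            (fun j => e.eval y (n + 1) (update v n j))).map some).reverse ++ S1 tgt)) with hS2
    have hCn : S (C n) = [] := hI.length_cz n le_rfl
    have hS2C : S2 (C n) = List.replicate (v b) one := by
      rw [hS2, update_of_ne (t4 n).symm, update_self, hS1, update_of_ne (by simp), hCn,
        List.append_nil]
    have s3 := run_clear (C n) _ r2 S2 hS2C
    rw [List.length_replicate] at s3
    refine ⟨(none, r2.2), 5 * v b + 2 + (c2 + (2 * v b + 1)), Run.seq s1 (Run.seq s2 ?_), ?_⟩
    · have e1 : update S2 (C n) [] = update S tgt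
          (((Em.eval y (.loop b e) n v).map some).reverse ++ S tgt) := by
        have e2 : (List.range (v b)).map (fun j => v b - v b + j) = List.range (v b) := by
          simp
        rw [e2] at hS2
        funext j
        by_cases hj : j = tgt
        · subst hj
          rw [update_self, update_of_ne (t4 n), hS2, update_self, hS1, update_of_ne (t5 n)]
          rfl
        · rw [update_of_ne hj]
          by_cases hj2 : j = C n
          · subst hj2
            rw [update_self, hCn]
          · rw [update_of_ne hj2, hS2, update_of_ne hj, update_of_ne hj2]
            by_cases hj3 : j = R n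
            · subst hj3; rw [update_self, hI.rz n le_rfl]
            · rw [update_of_ne hj3, hS1, update_of_ne hj3]
      rw [← e1]
      exact s3
    · simp only [Em.costP, Polynomial.eval_add, Polynomial.eval_mul, Polynomial.eval_X,
        Polynomial.eval_ofNat]
      have h1 : v b * (e.costP.eval B + 2) ≤ B * (e.costP.eval B + 2) :=
        Nat.mul_le_mul_right _ (hv b)
      have h2 := hv b
      omega
  | lett e f ihe ihf =>
    intro n tgt htgt v S hI B hyB hv r
    obtain ⟨t1, t2, t3, t4, t5, t6⟩ := htgt.ne
    have hvn : v n = 0 := hI.cz n le_rfl
    have hI0 : Inv y (n + 1) v S := ⟨hI.inp, hI.inp2, hI.tmp, hI.cnt, fun m hm => hI.cz m (by omega),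
      fun m hm => hI.rz m (by omega), fun m hm => hI.oz m (by omega)⟩
    obtain ⟨r1, c1, s1, hc1⟩ := ihe (n + 1) (O n) (Or.inr ⟨n, by omega, rfl⟩) v S hI0 B hyB hv r
    rw [hI.oz n le_rfl, List.append_nil] at s1
    set w := e.eval y (n + 1) v with hw
    have hwlen : w.length ≤ e.lenP.eval B := Em.length_eval_le y e (n + 1) v B hv
    set S1 := update S (O n) (w.map some).reverse with hS1
    have s2 := run_count (O n) (C n) (by simp) _ r1 S1 rfl
    have hCn : S (C n) = [] := hI.length_cz n le_rfl
    have hS1O : S1 (O n) = (w.map some).reverse := by rw [hS1, update_self]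
    have hS1C : S1 (C n) = [] := by rw [hS1, update_of_ne (by simp), hCn]
    rw [hS1O, hS1C, List.append_nil, List.length_reverse, List.length_map] at s2
    set S2 := update (update S1 (O n) []) (C n) (List.replicate w.length one) with hS2
    have hS2' : S2 = update S (C n) (List.replicate w.length one) := by
      rw [hS2, hS1, update_idem]
      congr 1
      rw [← hI.oz n le_rfl]
      exact update_eq_self _ _
    have hI2 : Inv y (n + 1) (update v n w.length) S2 := by
      rw [hS2']
      refine ⟨by simpa using hI.inp, by simpa using hI.inp2, by simpa using hI.tmp, ?_, ?_,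
        fun m hm => by simpa using hI.rz m (by omega), fun m hm => by simpa using hI.oz m (by omega)⟩
      · intro m
        by_cases hm : m = n
        · subst hm; rw [update_self, update_self, List.length_replicate]
        · rw [update_of_ne (by simpa using hm), update_of_ne hm, hI.cnt]
      · intro m hm
        rw [update_of_ne (by omega)]
        exact hI.cz m (by omega)
    have hB2 : ∀ m, (update v n w.length) m ≤ B + e.lenP.eval B := by
      intro m
      by_cases hm : m = n
      · subst hm; rw [update_self]; omega
      · rw [update_of_ne hm]; have := hv m; omega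
    obtain ⟨r3, c3, s3, hc3⟩ := ihf (n + 1) tgt htgt.succ _ S2 hI2 (B + e.lenP.eval B)
      (by omega) hB2 (none, r1.2)
    set S3 := update S2 tgt (((f.eval y (n + 1) (update v n w.length)).map some).reverse ++ S2 tgt)
      with hS3
    have hS3C : S3 (C n) = List.replicate w.length one := by
      rw [hS3, update_of_ne (t4 n).symm, hS2, update_self]
    have s4 := run_clear (C n) _ r3 S3 hS3C
    rw [List.length_replicate] at s4
    refine ⟨(none, r3.2), c1 + (2 * w.length + 1 + (c3 + (2 * w.length + 1))), ?_, ?_⟩
    · have e1 : update S3 (C n) [] = update S tgt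
          (((Em.eval y (.lett e f) n v).map some).reverse ++ S tgt) := by
        funext j
        by_cases hj : j = tgt
        · subst hj
          rw [update_self, update_of_ne (t4 n), hS3, update_self, hS2', update_of_ne (t4 n)]
          rfl
        · rw [update_of_ne hj]
          by_cases hj2 : j = C n
          · subst hj2
            rw [update_self, hCn]
          · rw [update_of_ne hj2, hS3, update_of_ne hj, hS2', update_of_ne hj2]
      rw [← e1]
      exact Run.seq s1 (Run.seq s2 (Run.seq s3 s4))
    · simp only [Em.costP, Polynomial.eval_add, Polynomial.eval_mul, Polynomial.eval_X,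
        Polynomial.eval_ofNat, Polynomial.eval_comp]
      omega
  | ifLt i j e f ihe ihf =>
    intro n tgt htgt v S hI B hyB hv r
    obtain ⟨t1, t2, t3, t4, t5, t6⟩ := htgt.ne
    have s1 := run_copy (C i) tmp (R n) (by simp) (by simp) (by simp) r S hI.tmp
    rw [hI.rz n le_rfl, List.append_nil, hI.cnt i] at s1
    set S1 := update S (R n) (List.replicate (v i) one) with hS1
    have s2 := run_copy (C j) tmp (O n) (by simp) (by simp) (by simp) (none, r.2) S1
      (by rw [hS1, update_of_ne (by simp)]; exact hI.tmp)
    have hS1O : S1 (O n) = [] := by rw [hS1, update_of_ne (by simp), hI.oz n le_rfl]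
    have hS1C : S1 (C j) = S (C j) := by rw [hS1, update_of_ne (by simp)]
    rw [hS1O, List.append_nil, hS1C, hI.cnt j] at s2
    set S2 := update S1 (O n) (List.replicate (v j) one) with hS2
    have hS2R : S2 (R n) = List.replicate (v i) one := by
      rw [hS2, update_of_ne (by simp), hS1, update_self]
    have s3 := run_pops (R n) (O n) (by simp) _ (none, r.2) S2 hS2R
    have hS2O : S2 (O n) = List.replicate (v j) one := by rw [hS2, update_self]
    rw [hS2O, List.length_replicate, List.drop_replicate] at s3
    set S3 := update (update S2 (R n) []) (O n) (List.replicate (v j - v i) one) with hS3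
    have s4 := Run.pop (O n) (none, r.2) S3
    have hS3O : S3 (O n) = List.replicate (v j - v i) one := by rw [hS3, update_self]
    rw [hS3O] at s4
    set S4 := update S3 (O n) (List.replicate (v j - v i) one).tail with hS4
    set r4 : Reg := ((List.replicate (v j - v i) one).head?, r.2) with hr4
    have s5 : Run setSome r4 S4 (r4.1, r4.1.isSome) S4 1 := Run.load _ r4 S4
    have hS4O : S4 (O n) = (List.replicate (v j - v i) one).tail := by rw [hS4, update_self]
    have s6 := run_clear (O n) _ (r4.1, r4.1.isSome) S4 hS4O
    have hS6 : update S4 (O n) [] = S := by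
      funext k
      by_cases hk : k = O n
      · subst hk; rw [update_self, hI.oz n le_rfl]
      · rw [update_of_ne hk, hS4, update_of_ne hk, hS3, update_of_ne hk]
        by_cases hk2 : k = R n
        · subst hk2; rw [update_self, hI.rz n le_rfl]
        · rw [update_of_ne hk2, hS2, update_of_ne hk, hS1, update_of_ne hk2]
    rw [hS6] at s6
    have hlen6 : (List.replicate (v j - v i) one).tail.length ≤ B := by
      rw [List.length_tail, List.length_replicate]
      have := hv j
      omega
    have hflag : r4.1.isSome = decide (v i < v j) := by
      rw [hr4]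
      rcases Nat.lt_or_ge (v i) (v j) with h | h
      · obtain ⟨m, hm⟩ : ∃ m, v j - v i = m + 1 := ⟨v j - v i - 1, by omega⟩
        rw [hm, List.replicate_succ]
        simp [h]
      · rw [show v j - v i = 0 by omega]
        simp only [List.replicate_zero, List.head?_nil, Option.isSome_none]
        symm; rw [decide_eq_false_iff_not]; omega
    have hvi := hv i
    have hvj := hv j
    by_cases hlt : v i < v j
    · obtain ⟨r7, c7, s7, hc7⟩ := ihe n tgt htgt v S hI B hyB hv (none, r4.1.isSome)
      refine ⟨r7, _, Run.seq s1 (Run.seq s2 (Run.seq s3 (Run.seq s4 (Run.seq s5 (Run.seq s6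
        (Run.iteT (n := c7) ?_ ?_)))))), ?_⟩
      · change r4.1.isSome = true
        rw [hflag]; simpa using hlt
      · have : Em.eval y (.ifLt i j e f) n v = e.eval y n v := by simp [Em.eval, hlt]
        rw [this]
        exact s7
      · simp only [Em.costP, Polynomial.eval_add, Polynomial.eval_mul, Polynomial.eval_X,
          Polynomial.eval_ofNat]
        omega
    · obtain ⟨r7, c7, s7, hc7⟩ := ihf n tgt htgt v S hI B hyB hv (none, r4.1.isSome)
      refine ⟨r7, _, Run.seq s1 (Run.seq s2 (Run.seq s3 (Run.seq s4 (Run.seq s5 (Run.seq s6
        (Run.iteF (n := c7) ?_ ?_)))))), ?_⟩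
      · change r4.1.isSome = false
        rw [hflag]; simpa using hlt
      · have : Em.eval y (.ifLt i j e f) n v = f.eval y n v := by simp [Em.eval, hlt]
        rw [this]
        exact s7
      · simp only [Em.costP, Polynomial.eval_add, Polynomial.eval_mul, Polynomial.eval_X,
          Polynomial.eval_ofNat]
        omega
  | ifBit i e f ihe ihf =>
    intro n tgt htgt v S hI B hyB hv r
    obtain ⟨t1, t2, t3, t4, t5, t6⟩ := htgt.ne
    have s1 := run_copy (C i) tmp (R n) (by simp) (by simp) (by simp) r S hI.tmp
    rw [hI.rz n le_rfl, List.append_nil, hI.cnt i] at s1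
    set S1 := update S (R n) (List.replicate (v i) one) with hS1
    have hS1R : S1 (R n) = List.replicate (v i) one := by rw [hS1, update_self]
    obtain ⟨c2, hc2, s2⟩ := run_skip (R n) inp inp2 (by simp) (by simp) (by simp) _ (none, r.2) S1
      hS1R
    have hS1i : S1 inp = y.map some := by rw [hS1, update_of_ne (by simp)]; exact hI.inp
    have hS1i2 : S1 inp2 = [] := by rw [hS1, update_of_ne (by simp)]; exact hI.inp2
    rw [hS1i, hS1i2, List.length_replicate, List.append_nil] at s2
    rw [List.length_replicate] at hc2
    set S2 := update (update (update S1 (R n) []) inp ((y.map some).drop (v i))) inp2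
      ((y.map some).take (v i)).reverse with hS2
    have s3 := Run.pop inp (none, r.2) S2
    have hS2i : S2 inp = (y.map some).drop (v i) := by
      rw [hS2, update_of_ne (by simp), update_self]
    rw [hS2i] at s3
    set S3 := update S2 inp ((y.map some).drop (v i)).tail with hS3
    set r3 : Reg := (((y.map some).drop (v i)).head?, r.2) with hr3
    have s4 : Run setTrue r3 S3 (r3.1, decide (r3.1 = some (some true))) S3 1 :=
      Run.load _ r3 S3
    obtain ⟨c5, hc5, s5⟩ := run_pushBack inp (r3.1, decide (r3.1 = some (some true))) S3
    have hS3i : S3 inp = ((y.map some).drop (v i)).tail := by rw [hS3, update_self]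
    have hback : (r3.1.toList ++ S3 inp) = (y.map some).drop (v i) := by
      rw [hS3i, hr3]
      rcases (y.map some).drop (v i) with _ | ⟨a, l⟩ <;> simp
    rw [hback] at s5
    have hS4 : update S3 inp ((y.map some).drop (v i)) = S2 := by
      rw [hS3, update_idem, ← hS2i]
      exact update_eq_self _ _
    rw [hS4] at s5
    have s6 := run_move inp2 inp (by simp) (S2 inp2)
      (r3.1, decide (r3.1 = some (some true))) S2 rfl
    have hS2i2 : S2 inp2 = ((y.map some).take (v i)).reverse := by
      rw [hS2, update_self]
    have hS6 : update (update S2 inp2 []) inp ((S2 inp2).reverse ++ S2 inp) = S := by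
      funext k
      by_cases hk : k = inp
      · subst hk
        rw [update_self, hS2i2, hS2i, List.reverse_reverse, List.take_append_drop, hI.inp]
      · rw [update_of_ne hk]
        by_cases hk2 : k = inp2
        · subst hk2; rw [update_self, hI.inp2]
        · rw [update_of_ne hk2, hS2, update_of_ne hk2, update_of_ne hk]
          by_cases hk3 : k = R n
          · subst hk3; rw [update_self, hI.rz n le_rfl]
          · rw [update_of_ne hk3, hS1, update_of_ne hk3]
    rw [hS6] at s6
    have hlen6 : (S2 inp2).length ≤ B := by
      rw [hS2i2, List.length_reverse, List.length_take, List.length_map]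
      omega
    have hflag : decide (r3.1 = some (some true)) = decide (y[v i]? = some true) := by
      congr 1
      rw [hr3]
      simp only [List.head?_drop, List.getElem?_map, Option.map_eq_some_iff,
        eq_iff_iff]
      constructor
      · rintro ⟨a, ha, ha2⟩
        rw [ha]
        simpa using ha2
      · intro h
        exact ⟨true, h, rfl⟩
    have hvi := hv i
    by_cases hlt : y[v i]? = some true
    · obtain ⟨r7, c7, s7, hc7⟩ := ihe n tgt htgt v S hI B hyB hv
        (none, decide (r3.1 = some (some true)))
      refine ⟨r7, _, Run.seq s1 (Run.seq s2 (Run.seq s3 (Run.seq s4 (Run.seq s5 (Run.seq s6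
        (Run.iteT (n := c7) ?_ ?_)))))), ?_⟩
      · change decide (r3.1 = some (some true)) = true
        rw [hflag]; simpa using hlt
      · have : Em.eval y (.ifBit i e f) n v = e.eval y n v := by simp [Em.eval, hlt]
        rw [this]
        exact s7
      · simp only [Em.costP, Polynomial.eval_add, Polynomial.eval_mul, Polynomial.eval_X,
          Polynomial.eval_ofNat]
        omega
    · obtain ⟨r7, c7, s7, hc7⟩ := ihf n tgt htgt v S hI B hyB hv
        (none, decide (r3.1 = some (some true)))
      refine ⟨r7, _, Run.seq s1 (Run.seq s2 (Run.seq s3 (Run.seq s4 (Run.seq s5 (Run.seq s6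
        (Run.iteF (n := c7) ?_ ?_)))))), ?_⟩
      · change decide (r3.1 = some (some true)) = false
        rw [hflag]; simpa using hlt
      · have : Em.eval y (.ifBit i e f) n v = f.eval y n v := by simp [Em.eval, hlt]
        rw [this]
        exact s7
      · simp only [Em.costP, Polynomial.eval_add, Polynomial.eval_mul, Polynomial.eval_X,
          Polynomial.eval_ofNat]
        omega

end NPC
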