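import Pool.Agent.NPC.Wrap

/-!
# Composition of polynomial-time functions
-/

namespace NPC

open Turing Function

section Growth

variable {K : Type} [DecidableEq K] {Γ : K → Type} {Λ σ : Type}

/-- number of pushes in a statement -/
def npush : TM2.Stmt Γ Λ σ → ℕ
  | .push _ _ q => npush q + 1
  | .peek _ _ q => npush q
  | .pop _ _ q => npush q
  | .load _ q => npush q
  | .branch _ q₁ q₂ => npush q₁ + npush q₂
  | .goto _ => 0
  | .halt => 0

theorem length_stepAux_le (q : TM2.Stmt Γ Λ σ) : ∀ (v : σ) (S : ∀ k, List (Γ k)) (k : K),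
    ((TM2.stepAux q v S).stk k).length ≤ (S k).length + npush q := by
  induction q with
  | push k' f q ih =>
    intro v S k
    rw [TM2.stepAux]
    refine (ih _ _ k).trans ?_
    simp only [npush]
    by_cases hk : k = k'
    · subst hk; rw [update_self, List.length_cons]; omega
    · rw [update_of_ne hk]; omega
  | peek k' f q ih =>
    intro v S k
    rw [TM2.stepAux]
    exact ih _ _ k
  | pop k' f q ih =>
    intro v S k
    rw [TM2.stepAux]
    refine (ih _ _ k).trans ?_
    simp only [npush]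
    by_cases hk : k = k'
    · subst hk; rw [update_self, List.length_tail]; omega
    · rw [update_of_ne hk]
  | load a q ih =>
    intro v S k
    rw [TM2.stepAux]
    exact ih _ _ k
  | branch f q₁ q₂ ih₁ ih₂ =>
    intro v S k
    rw [TM2.stepAux]
    simp only [npush]
    cases f v
    · have := ih₂ v S k; simp only [cond_false]; omega
    · have := ih₁ v S k; simp only [cond_true]; omega
  | goto f => intro v S k; simp [TM2.stepAux, npush]
  | halt => intro v S k; simp [TM2.stepAux, npush]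

theorem iterate_none {C : Type} (f : C → Option C) (n : ℕ) :
    (flip bind f)^[n] (none : Option C) = none := by
  induction n with
  | zero => rfl
  | succ n ih =>
    rw [iterate_succ_apply]
    exact ih

theorem Steps.succ_iff {C : Type} {f : C → Option C} {n : ℕ} {a c : C} :
    Steps f (n + 1) a c ↔ ∃ b, f a = some b ∧ Steps f n b c := by
  unfold Steps
  rw [iterate_succ_apply]
  constructor
  · intro h
    rcases hfa : f a with _ | b
    · exfalso
      have : flip bind f (some a) = none := by simpa [flip] using hfa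
      rw [this, iterate_none] at h
      simp at h
    · refine ⟨b, rfl, ?_⟩
      have : flip bind f (some a) = some b := by simpa [flip] using hfa
      rw [this] at h
      exact h
  · rintro ⟨b, hb, h⟩
    have : flip bind f (some a) = some b := by simpa [flip] using hb
    rw [this]
    exact h

theorem length_steps_le (M : Λ → TM2.Stmt Γ Λ σ) (D : ℕ) (hD : ∀ l, npush (M l) ≤ D) :
    ∀ (n : ℕ) (c c' : TM2.Cfg Γ Λ σ), Steps (TM2.step M) n c c' → ∀ k,
      (c'.stk k).length ≤ (c.stk k).length + n * D := by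
  intro n
  induction n with
  | zero =>
    intro c c' h k
    have : c = c' := by simpa [Steps] using h
    rw [this]; omega
  | succ n ih =>
    intro c c' h k
    obtain ⟨b, hb, h2⟩ := Steps.succ_iff.1 h
    have h3 := ih b c' h2 k
    rcases c with ⟨_ | l, v, S⟩
    · simp [TM2.step] at hb
    · simp only [TM2.step, Option.some.injEq] at hb
      have h4 := length_stepAux_le (M l) v S k
      rw [hb] at h4
      have h5 := hD l
      calc (c'.stk k).length ≤ (b.stk k).length + n * D := h3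
        _ ≤ (S k).length + D + n * D := by omega
        _ = (S k).length + (n + 1) * D := by ring

end Growth

section Comp

variable (M₁ M₂ : FinTM2) {βΓ : Type} [Inhabited βΓ] (e₁ : M₁.Γ M₁.k₁ ≃ βΓ) (e₂ : M₂.Γ M₂.k₀ ≃ βΓ)

/-- alphabets of the composed machine -/
abbrev CΓ (βΓ : Type) : Option (M₁.K ⊕ M₂.K) → Type
  | none => βΓ
  | some (.inl k) => M₁.Γ k
  | some (.inr k) => M₂.Γ k

/-- labels of the composed machine -/
abbrev CΛ := M₁.Λ ⊕ (M₂.Λ ⊕ Bool)

/-- internal states of the composed machine -/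
abbrev Cσ (βΓ : Type) := M₁.σ × (M₂.σ × Option βΓ)

/-- statements of the first machine -/
def lift₁ : TM2.Stmt M₁.Γ M₁.Λ M₁.σ → TM2.Stmt (CΓ M₁ M₂ βΓ) (CΛ M₁ M₂) (Cσ M₁ M₂ βΓ)
  | .push k f q => .push (some (.inl k)) (fun v => f v.1) (lift₁ q)
  | .peek k f q => .peek (some (.inl k)) (fun v o => (f v.1 o, v.2)) (lift₁ q)
  | .pop k f q => .pop (some (.inl k)) (fun v o => (f v.1 o, v.2)) (lift₁ q)
  | .load a q => .load (fun v => (a v.1, v.2)) (lift₁ q)
  | .branch f q₁ q₂ => .branch (fun v => f v.1) (lift₁ q₁) (lift₁ q₂)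
  | .goto l => .goto (fun v => .inl (l v.1))
  | .halt => .goto (fun _ => .inr (.inr false))

/-- statements of the second machine -/
def lift₂ : TM2.Stmt M₂.Γ M₂.Λ M₂.σ → TM2.Stmt (CΓ M₁ M₂ βΓ) (CΛ M₁ M₂) (Cσ M₁ M₂ βΓ)
  | .push k f q => .push (some (.inr k)) (fun v => f v.2.1) (lift₂ q)
  | .peek k f q => .peek (some (.inr k)) (fun v o => (v.1, (f v.2.1 o, v.2.2))) (lift₂ q)
  | .pop k f q => .pop (some (.inr k)) (fun v o => (v.1, (f v.2.1 o, v.2.2))) (lift₂ q)
  | .load a q => .load (fun v => (v.1, (a v.2.1, v.2.2))) (lift₂ q)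
  | .branch f q₁ q₂ => .branch (fun v => f v.2.1) (lift₂ q₁) (lift₂ q₂)
  | .goto l => .goto (fun v => .inr (.inl (l v.2.1)))
  | .halt => .halt

/-- the code of the composed machine -/
def cm : CΛ M₁ M₂ → TM2.Stmt (CΓ M₁ M₂ βΓ) (CΛ M₁ M₂) (Cσ M₁ M₂ βΓ)
  | .inl l => lift₁ M₁ M₂ (M₁.m l)
  | .inr (.inl l) => lift₂ M₁ M₂ (M₂.m l)
  | .inr (.inr false) => .pop (some (.inl M₁.k₁)) (fun v o => (v.1, (v.2.1, o.map e₁)))
      (.branch (fun v => v.2.2.isSome) (.push none (fun v => v.2.2.getD default)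
        (.goto fun _ => .inr (.inr false))) (.goto fun _ => .inr (.inr true)))
  | .inr (.inr true) => .pop none (fun v o => (v.1, (v.2.1, o)))
      (.branch (fun v => v.2.2.isSome) (.push (some (.inr M₂.k₀))
        (fun v => e₂.symm (v.2.2.getD default))
        (.goto fun _ => .inr (.inr true))) (.goto fun _ => .inr (.inl M₂.main)))

/-- combination of stacks -/
def comb (S₁ : ∀ k, List (M₁.Γ k)) (S₂ : ∀ k, List (M₂.Γ k)) (T : List βΓ) :
    ∀ k, List (CΓ M₁ M₂ βΓ k)
  | none => T
  | some (.inl k) => S₁ k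
  | some (.inr k) => S₂ k

theorem comb_upd₁ (S₁ : ∀ k, List (M₁.Γ k)) (S₂ : ∀ k, List (M₂.Γ k)) (T : List βΓ) (k : M₁.K)
    (l : List (M₁.Γ k)) :
    update (comb M₁ M₂ S₁ S₂ T) (some (.inl k)) l = comb M₁ M₂ (update S₁ k l) S₂ T := by
  funext j
  rcases j with _ | j | j
  · rw [update_of_ne (by simp)]; rfl
  · by_cases h : j = k
    · subst h; rw [update_self]; simp [comb]
    · rw [update_of_ne (by simpa using h)]
      simp [comb, update_of_ne h]
  · rw [update_of_ne (by simp)]; rfl

theorem comb_upd₂ (S₁ : ∀ k, List (M₁.Γ k)) (S₂ : ∀ k, List (M₂.Γ k)) (T : List βΓ) (k : M₂.K)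
    (l : List (M₂.Γ k)) :
    update (comb M₁ M₂ S₁ S₂ T) (some (.inr k)) l = comb M₁ M₂ S₁ (update S₂ k l) T := by
  funext j
  rcases j with _ | j | j
  · rw [update_of_ne (by simp)]; rfl
  · rw [update_of_ne (by simp)]; rfl
  · by_cases h : j = k
    · subst h; rw [update_self]; simp [comb]
    · rw [update_of_ne (by simpa using h)]
      simp [comb, update_of_ne h]

theorem comb_upd₀ (S₁ : ∀ k, List (M₁.Γ k)) (S₂ : ∀ k, List (M₂.Γ k)) (T : List βΓ)
    (l : List βΓ) :
    update (comb M₁ M₂ S₁ S₂ T) none l = comb M₁ M₂ S₁ S₂ l := by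
  funext j
  rcases j with _ | j | j
  · rw [update_self]; rfl
  · rw [update_of_ne (by simp)]; rfl
  · rw [update_of_ne (by simp)]; rfl

/-- embedding of the configurations of the first machine -/
def emb₁ (S₂ : ∀ k, List (M₂.Γ k)) (T : List βΓ) (v₂ : M₂.σ × Option βΓ)
    (c : TM2.Cfg M₁.Γ M₁.Λ M₁.σ) : TM2.Cfg (CΓ M₁ M₂ βΓ) (CΛ M₁ M₂) (Cσ M₁ M₂ βΓ) :=
  ⟨some (match c.l with
    | some l => .inl l
    | none => .inr (.inr false)), (c.var, v₂), comb M₁ M₂ c.stk S₂ T⟩

/-- embedding of the configurations of the second machine -/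
def emb₂ (S₁ : ∀ k, List (M₁.Γ k)) (T : List βΓ) (v₁ : M₁.σ) (o : Option βΓ)
    (c : TM2.Cfg M₂.Γ M₂.Λ M₂.σ) : TM2.Cfg (CΓ M₁ M₂ βΓ) (CΛ M₁ M₂) (Cσ M₁ M₂ βΓ) :=
  ⟨match c.l with
    | some l => some (.inr (.inl l))
    | none => none, (v₁, (c.var, o)), comb M₁ M₂ S₁ c.stk T⟩

theorem stepAux_lift₁ (S₂ : ∀ k, List (M₂.Γ k)) (T : List βΓ) (v₂ : M₂.σ × Option βΓ)
    (q : TM2.Stmt M₁.Γ M₁.Λ M₁.σ) : ∀ (v : M₁.σ) (S : ∀ k, List (M₁.Γ k)),
    TM2.stepAux (lift₁ M₁ M₂ q) (v, v₂) (comb M₁ M₂ S S₂ T) =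
      emb₁ M₁ M₂ S₂ T v₂ (TM2.stepAux q v S) := by
  induction q with
  | push k f q ih =>
    intro v S
    rw [lift₁, TM2.stepAux, TM2.stepAux, comb_upd₁]
    exact ih _ _
  | peek k f q ih =>
    intro v S
    rw [lift₁, TM2.stepAux, TM2.stepAux]
    exact ih _ _
  | pop k f q ih =>
    intro v S
    rw [lift₁, TM2.stepAux, TM2.stepAux, comb_upd₁]
    exact ih _ _
  | load a q ih =>
    intro v S
    rw [lift₁, TM2.stepAux, TM2.stepAux]
    exact ih _ _
  | branch f q₁ q₂ ih₁ ih₂ =>
    intro v S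
    rw [lift₁, TM2.stepAux, TM2.stepAux]
    cases h : f v
    · simp only [h, cond_false]; exact ih₂ _ _
    · simp only [h, cond_true]; exact ih₁ _ _
  | goto f => intro v S; rfl
  | halt => intro v S; rfl

theorem stepAux_lift₂ (S₁ : ∀ k, List (M₁.Γ k)) (T : List βΓ) (v₁ : M₁.σ) (o : Option βΓ)
    (q : TM2.Stmt M₂.Γ M₂.Λ M₂.σ) : ∀ (v : M₂.σ) (S : ∀ k, List (M₂.Γ k)),
    TM2.stepAux (lift₂ M₁ M₂ q) (v₁, (v, o)) (comb M₁ M₂ S₁ S T) =
      emb₂ M₁ M₂ S₁ T v₁ o (TM2.stepAux q v S) := by
  induction q with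
  | push k f q ih =>
    intro v S
    rw [lift₂, TM2.stepAux, TM2.stepAux, comb_upd₂]
    exact ih _ _
  | peek k f q ih =>
    intro v S
    rw [lift₂, TM2.stepAux, TM2.stepAux]
    exact ih _ _
  | pop k f q ih =>
    intro v S
    rw [lift₂, TM2.stepAux, TM2.stepAux, comb_upd₂]
    exact ih _ _
  | load a q ih =>
    intro v S
    rw [lift₂, TM2.stepAux, TM2.stepAux]
    exact ih _ _
  | branch f q₁ q₂ ih₁ ih₂ =>
    intro v S
    rw [lift₂, TM2.stepAux, TM2.stepAux]
    cases h : f v
    · simp only [h, cond_false]; exact ih₂ _ _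
    · simp only [h, cond_true]; exact ih₁ _ _
  | goto f => intro v S; rfl
  | halt => intro v S; rfl

theorem steps_emb₁ (S₂ : ∀ k, List (M₂.Γ k)) (T : List βΓ) (v₂ : M₂.σ × Option βΓ) :
    ∀ (n : ℕ) (c c' : TM2.Cfg M₁.Γ M₁.Λ M₁.σ), Steps (TM2.step M₁.m) n c c' →
      Steps (TM2.step (cm M₁ M₂ e₁ e₂)) n (emb₁ M₁ M₂ S₂ T v₂ c) (emb₁ M₁ M₂ S₂ T v₂ c') := by
  intro n
  induction n with
  | zero =>
    intro c c' h
    have : c = c' := by simpa [Steps] using h
    rw [this]; exact Steps.refl _ _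
  | succ n ih =>
    intro c c' h
    obtain ⟨b, hb, h2⟩ := Steps.succ_iff.1 h
    refine Steps.succ_iff.2 ⟨emb₁ M₁ M₂ S₂ T v₂ b, ?_, ih b c' h2⟩
    rcases c with ⟨_ | l, v, S⟩
    · simp [TM2.step] at hb
    · simp only [TM2.step, Option.some.injEq] at hb
      subst hb
      change some (TM2.stepAux (lift₁ M₁ M₂ (M₁.m l)) (v, v₂) (comb M₁ M₂ S S₂ T)) = _
      rw [stepAux_lift₁]

theorem steps_emb₂ (S₁ : ∀ k, List (M₁.Γ k)) (T : List βΓ) (v₁ : M₁.σ) (o : Option βΓ) :
    ∀ (n : ℕ) (c c' : TM2.Cfg M₂.Γ M₂.Λ M₂.σ), Steps (TM2.step M₂.m) n c c' →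
      Steps (TM2.step (cm M₁ M₂ e₁ e₂)) n (emb₂ M₁ M₂ S₁ T v₁ o c) (emb₂ M₁ M₂ S₁ T v₁ o c') := by
  intro n
  induction n with
  | zero =>
    intro c c' h
    have : c = c' := by simpa [Steps] using h
    rw [this]; exact Steps.refl _ _
  | succ n ih =>
    intro c c' h
    obtain ⟨b, hb, h2⟩ := Steps.succ_iff.1 h
    refine Steps.succ_iff.2 ⟨emb₂ M₁ M₂ S₁ T v₁ o b, ?_, ih b c' h2⟩
    rcases c with ⟨_ | l, v, S⟩
    · simp [TM2.step] at hb
    · simp only [TM2.step, Option.some.injEq] at hb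
      subst hb
      change some (TM2.stepAux (lift₂ M₁ M₂ (M₂.m l)) (v₁, (v, o)) (comb M₁ M₂ S₁ S T)) = _
      rw [stepAux_lift₂]

theorem steps_transfer₁ (S₂ : ∀ k, List (M₂.Γ k)) (v₁ : M₁.σ) (v₂ : M₂.σ) :
    ∀ (L : List (M₁.Γ M₁.k₁)) (S₁ : ∀ k, List (M₁.Γ k)) (T : List βΓ) (o : Option βΓ),
      S₁ M₁.k₁ = L →
      Steps (TM2.step (cm M₁ M₂ e₁ e₂)) (L.length + 1)
        ⟨some (.inr (.inr false)), (v₁, (v₂, o)), comb M₁ M₂ S₁ S₂ T⟩
        ⟨some (.inr (.inr true)), (v₁, (v₂, none)),
          comb M₁ M₂ (update S₁ M₁.k₁ []) S₂ ((L.map e₁).reverse ++ T)⟩ := by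
  intro L
  induction L with
  | nil =>
    intro S₁ T o h
    apply Steps.one
    rw [TM2.step, cm, TM2.stepAux, comb_upd₁]
    have h1 : (comb M₁ M₂ S₁ S₂ T (some (.inl M₁.k₁))).head? = none := by
      change (S₁ M₁.k₁).head? = none
      rw [h]; rfl
    have h2 : (comb M₁ M₂ S₁ S₂ T (some (.inl M₁.k₁))).tail = [] := by
      change (S₁ M₁.k₁).tail = []
      rw [h]; rfl
    rw [h1, h2, TM2.stepAux]
    simp [TM2.stepAux]
  | cons a L ih =>
    intro S₁ T o h
    refine Steps.succ_iff.2 ⟨⟨some (.inr (.inr false)), (v₁, (v₂, some (e₁ a))),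
      comb M₁ M₂ (update S₁ M₁.k₁ L) S₂ (e₁ a :: T)⟩, ?_, ?_⟩
    · rw [TM2.step, cm, TM2.stepAux, comb_upd₁]
      have h1 : (comb M₁ M₂ S₁ S₂ T (some (.inl M₁.k₁))).head? = some a := by
        change (S₁ M₁.k₁).head? = some a
        rw [h]; rfl
      have h2 : (comb M₁ M₂ S₁ S₂ T (some (.inl M₁.k₁))).tail = L := by
        change (S₁ M₁.k₁).tail = L
        rw [h]; rfl
      rw [h1, h2, TM2.stepAux]
      simp only [Option.map_some, Option.isSome_some, cond_true]
      rw [TM2.stepAux, comb_upd₀]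
      rfl
    · have := ih (update S₁ M₁.k₁ L) (e₁ a :: T) (some (e₁ a)) (by rw [update_self])
      rw [update_idem] at this
      simpa using this

theorem steps_transfer₂ (S₁ : ∀ k, List (M₁.Γ k)) (v₁ : M₁.σ) (v₂ : M₂.σ) :
    ∀ (T : List βΓ) (S₂ : ∀ k, List (M₂.Γ k)) (o : Option βΓ),
      Steps (TM2.step (cm M₁ M₂ e₁ e₂)) (T.length + 1)
        ⟨some (.inr (.inr true)), (v₁, (v₂, o)), comb M₁ M₂ S₁ S₂ T⟩
        ⟨some (.inr (.inl M₂.main)), (v₁, (v₂, none)),
          comb M₁ M₂ S₁ (update S₂ M₂.k₀ ((T.map e₂.symm).reverse ++ S₂ M₂.k₀)) []⟩ := by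
  intro T
  induction T with
  | nil =>
    intro S₂ o
    apply Steps.one
    rw [TM2.step, cm, TM2.stepAux, comb_upd₀]
    have h1 : (comb M₁ M₂ S₁ S₂ ([] : List βΓ) none).head? = none := rfl
    have h2 : (comb M₁ M₂ S₁ S₂ ([] : List βΓ) none).tail = [] := rfl
    rw [h1, h2, TM2.stepAux]
    simp [TM2.stepAux]
  | cons a T ih =>
    intro S₂ o
    refine Steps.succ_iff.2 ⟨⟨some (.inr (.inr true)), (v₁, (v₂, some a)),
      comb M₁ M₂ S₁ (update S₂ M₂.k₀ (e₂.symm a :: S₂ M₂.k₀)) T⟩, ?_, ?_⟩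
    · rw [TM2.step, cm, TM2.stepAux, comb_upd₀]
      have h1 : (comb M₁ M₂ S₁ S₂ (a :: T) none).head? = some a := rfl
      have h2 : (comb M₁ M₂ S₁ S₂ (a :: T) none).tail = T := rfl
      rw [h1, h2, TM2.stepAux]
      simp only [Option.isSome_some, cond_true]
      rw [TM2.stepAux, comb_upd₂]
      rfl
    · have := ih (update S₂ M₂.k₀ (e₂.symm a :: S₂ M₂.k₀)) (some a)
      rw [update_idem, update_self] at this
      simpa using this

/-- The composed machine. -/
noncomputable def compTM [Fintype βΓ] : FinTM2 where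
  K := Option (M₁.K ⊕ M₂.K)
  kDecidableEq := inferInstance
  kFin := by
    haveI := M₁.kFin
    haveI := M₂.kFin
    infer_instance
  k₀ := some (.inl M₁.k₀)
  k₁ := some (.inr M₂.k₁)
  Γ := CΓ M₁ M₂ βΓ
  Λ := CΛ M₁ M₂
  main := .inl M₁.main
  ΛFin := by
    haveI := M₁.ΛFin
    haveI := M₂.ΛFin
    infer_instance
  σ := Cσ M₁ M₂ βΓ
  initialState := (M₁.initialState, (M₂.initialState, none))
  σFin := by
    haveI := M₁.σFin
    haveI := M₂.σFin
    infer_instance
  Γk₀Fin := M₁.Γk₀Fin
  m := cm M₁ M₂ e₁ e₂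

end Comp

theorem initList_eq (M : FinTM2) (l : List (M.Γ M.k₀)) :
    initList M l = ⟨some M.main, M.initialState, update (fun _ => []) M.k₀ l⟩ := by
  unfold initList
  congr 1
  funext k
  by_cases hk : k = M.k₀
  · subst hk
    rw [dif_pos rfl, update_self]
    rfl
  · rw [dif_neg hk, update_of_ne hk]

theorem haltList_eq (M : FinTM2) (l : List (M.Γ M.k₁)) :
    haltList M l = ⟨none, M.initialState, update (fun _ => []) M.k₁ l⟩ := by
  unfold haltList
  congr 1
  funext k
  by_cases hk : k = M.k₁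
  · subst hk
    rw [dif_pos rfl, update_self]
    rfl
  · rw [dif_neg hk, update_of_ne hk]

theorem exists_npush_bound (M : FinTM2) : ∃ D, ∀ l, npush (M.m l) ≤ D := by
  haveI := M.ΛFin
  exact ⟨Finset.univ.sup (fun l => npush (M.m l)), fun l => Finset.le_sup (f := fun l => npush (M.m l))
    (Finset.mem_univ l)⟩

/-- Composition of polynomial-time functions. -/
theorem PolyTime.comp {α β γ αΓ βΓ γΓ : Type} [Inhabited βΓ] {ea : α → List αΓ} {eb : β → List βΓ}
    {ec : γ → List γΓ} {f : α → β} {g : β → γ} (hf : PolyTime ea eb f) (hg : PolyTime eb ec g) :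
    PolyTime ea ec (fun a => g (f a)) := by
  obtain ⟨F, hF⟩ := hf
  obtain ⟨G, hG⟩ := hg
  haveI : Finite βΓ := Finite.of_equiv _ (Equiv.ofBijective _ F.outputAlphabet.bijective) |> fun h => by
    haveI := hF F.tm.k₁
    exact Finite.of_equiv _ F.outputAlphabet
  letI : Fintype βΓ := Fintype.ofFinite βΓ
  obtain ⟨D, hD⟩ := Classical.indefiniteDescription _ (exists_npush_bound F.tm)
  refine ⟨{ tm := compTM F.tm G.tm F.outputAlphabet G.inputAlphabet
            inputAlphabet := F.inputAlphabet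
            outputAlphabet := G.outputAlphabet
            time := F.time + 2 * (Polynomial.X + F.time * Polynomial.C D) + 2 +
              G.time.comp (Polynomial.X + F.time * Polynomial.C D)
            outputsFun := ?_ }, ?_⟩
  · intro a
    have h1 := (F.outputsFun a).evals_in_steps
    have h1' := (F.outputsFun a).steps_le_m
    have h2 := (G.outputsFun (f a)).evals_in_steps
    have h2' := (G.outputsFun (f a)).steps_le_m
    set n₁ := (F.outputsFun a).steps with hn₁
    set n₂ := (G.outputsFun (f a)).steps with hn₂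
    have s1 : Steps (TM2.step F.tm.m) n₁ ⟨some F.tm.main, F.tm.initialState,
        update (fun _ => []) F.tm.k₀ ((ea a).map F.inputAlphabet.invFun)⟩
        ⟨none, F.tm.initialState, update (fun _ => []) F.tm.k₁
          ((eb (f a)).map F.outputAlphabet.invFun)⟩ := by
      have := h1
      rw [Option.map_some, initList_eq, haltList_eq] at this
      exact this
    have s4 : Steps (TM2.step G.tm.m) n₂ ⟨some G.tm.main, G.tm.initialState,
        update (fun _ => []) G.tm.k₀ ((eb (f a)).map G.inputAlphabet.invFun)⟩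
        ⟨none, G.tm.initialState, update (fun _ => []) G.tm.k₁
          ((ec (g (f a))).map G.outputAlphabet.invFun)⟩ := by
      have := h2
      rw [Option.map_some, initList_eq, haltList_eq] at this
      exact this
    -- length of the intermediate result
    have hlen : (eb (f a)).length ≤ (ea a).length + n₁ * D := by
      have := length_steps_le F.tm.m D hD n₁ _ _ s1 F.tm.k₁
      simp only [update_self, List.length_map] at this
      refine this.trans (Nat.add_le_add_right ?_ _)
      by_cases hk : F.tm.k₁ = F.tm.k₀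
      · have h5 : ∀ k, k = F.tm.k₀ → (update (fun _ => []) F.tm.k₀
          ((ea a).map F.inputAlphabet.invFun) k : List (F.tm.Γ k)).length ≤ (ea a).length := by
          rintro k rfl
          rw [update_self, List.length_map]
        exact h5 _ hk
      · rw [update_of_ne hk]; simp
    have t1 := steps_emb₁ F.tm G.tm F.outputAlphabet G.inputAlphabet (fun _ => []) []
      (G.tm.initialState, none) n₁ _ _ s1
    have t2 := steps_transfer₁ F.tm G.tm F.outputAlphabet G.inputAlphabet (fun _ => [])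
      F.tm.initialState G.tm.initialState ((eb (f a)).map F.outputAlphabet.invFun)
      (update (fun _ => []) F.tm.k₁ ((eb (f a)).map F.outputAlphabet.invFun)) [] none
      (by rw [update_self])
    have t3 := steps_transfer₂ F.tm G.tm F.outputAlphabet G.inputAlphabet
      (update (update (fun _ => []) F.tm.k₁ ((eb (f a)).map F.outputAlphabet.invFun)) F.tm.k₁ [])
      F.tm.initialState G.tm.initialState
      ((((eb (f a)).map F.outputAlphabet.invFun).map F.outputAlphabet).reverse ++ [])
      (fun _ => []) none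
    have t4 := steps_emb₂ F.tm G.tm F.outputAlphabet G.inputAlphabet
      (update (update (fun _ => []) F.tm.k₁ ((eb (f a)).map F.outputAlphabet.invFun)) F.tm.k₁ [])
      [] F.tm.initialState none n₂ _ _ s4
    have e1 : ((eb (f a)).map F.outputAlphabet.invFun).map F.outputAlphabet = eb (f a) := by
      rw [List.map_map]
      conv_rhs => rw [← List.map_id (eb (f a))]
      apply List.map_congr_left
      intro b _
      exact F.outputAlphabet.apply_symm_apply b
    rw [e1, List.append_nil] at t3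
    rw [e1, List.append_nil] at t2
    have e2 : ((eb (f a)).reverse.map G.inputAlphabet.symm).reverse =
        (eb (f a)).map G.inputAlphabet.invFun := by
      rw [List.map_reverse, List.reverse_reverse]
      rfl
    rw [e2, List.append_nil, List.length_reverse] at t3
    rw [List.length_map] at t2
    have t5 := ((t1.trans t2).trans t3).trans t4
    have e3 : update (update (fun _ => []) F.tm.k₁ ((eb (f a)).map F.outputAlphabet.invFun))
        F.tm.k₁ [] = (fun k => ([] : List (F.tm.Γ k))) := by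
      rw [update_idem]
      exact update_eq_self F.tm.k₁ (fun k => ([] : List (F.tm.Γ k)))
    refine ⟨⟨n₁ + ((eb (f a)).length + 1) + ((eb (f a)).length + 1) + n₂, ?_⟩, ?_⟩
    · rw [Option.map_some, initList_eq, haltList_eq]
      rw [e3] at t5
      have e4 : emb₁ F.tm G.tm (fun _ => []) ([] : List βΓ) (G.tm.initialState, none)
          ⟨some F.tm.main, F.tm.initialState,
            update (fun _ => []) F.tm.k₀ ((ea a).map F.inputAlphabet.invFun)⟩ =
          ⟨some (compTM F.tm G.tm F.outputAlphabet G.inputAlphabet).main,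
            (compTM F.tm G.tm F.outputAlphabet G.inputAlphabet).initialState,
            update (fun _ => []) (compTM F.tm G.tm F.outputAlphabet G.inputAlphabet).k₀
              ((ea a).map F.inputAlphabet.invFun)⟩ := by
        unfold emb₁
        congr 1
        change comb F.tm G.tm (update (fun _ => []) F.tm.k₀ ((ea a).map F.inputAlphabet.invFun))
          (fun _ => []) [] = _
        rw [← comb_upd₁]
        have e5 : comb F.tm G.tm (fun _ => []) (fun _ => []) ([] : List βΓ) = fun _ => [] := by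
          funext k
          rcases k with _ | k | k <;> rfl
        rw [e5]
        rfl
      have e6 : emb₂ F.tm G.tm (fun _ => []) ([] : List βΓ) F.tm.initialState none
          ⟨none, G.tm.initialState, update (fun _ => []) G.tm.k₁
          ((ec (g (f a))).map G.outputAlphabet.invFun)⟩ =
          ⟨none,
            (compTM F.tm G.tm F.outputAlphabet G.inputAlphabet).initialState,
            update (fun _ => []) (compTM F.tm G.tm F.outputAlphabet G.inputAlphabet).k₁
              ((ec (g (f a))).map G.outputAlphabet.invFun)⟩ := by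
        unfold emb₂
        congr 1
        change comb F.tm G.tm (fun _ => []) (update (fun _ => []) G.tm.k₁
          ((ec (g (f a))).map G.outputAlphabet.invFun)) [] = _
        rw [← comb_upd₂]
        have e5 : comb F.tm G.tm (fun _ => []) (fun _ => []) ([] : List βΓ) = fun _ => [] := by
          funext k
          rcases k with _ | k | k <;> rfl
        rw [e5]
        rfl
      rw [e4, e6] at t5
      exact t5
    · simp only [Polynomial.eval_add, Polynomial.eval_mul, Polynomial.eval_X,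
        Polynomial.eval_ofNat, Polynomial.eval_comp, Polynomial.eval_C]
      have m1 : n₁ * D ≤ F.time.eval (ea a).length * D := Nat.mul_le_mul_right _ h1'
      have m2 := eval_mono G.time (a := (eb (f a)).length)
        (b := (ea a).length + F.time.eval (ea a).length * D) (by omega)
      omega
  · intro k
    rcases k with _ | k | k
    · exact inferInstanceAs (Finite βΓ)
    · exact hF k
    · exact hG k

end NPC
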