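import Pool.Agent.NPC.Prog

/-!
# Emitter programs

`Em` is a small language of programs that print a bit string: constants, concatenation, loops
`for v_n < v_b`, local counters defined as the length of a printed string, comparison of two
counters, and access to a bit of the input.  We compile it to `NPC.Prog` with a polynomial bound on
the cost.
-/

namespace NPC

open Function

/-- Emitter programs. Variables are numbered by their binding depth. -/
inductive Em : Type
  | const (w : List Bool)
  | seq (a b : Em)
  /-- `loop b e`: for `i < v b`, run `e` with the new variable equal to `i` -/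
  | loop (b : ℕ) (e : Em)
  /-- `lett e f`: run `f` with the new variable equal to the length of the output of `e` -/
  | lett (e f : Em)
  /-- test `v i < v j` -/
  | ifLt (i j : ℕ) (e f : Em)
  /-- test whether the input bit number `v i` is `true` -/
  | ifBit (i : ℕ) (e f : Em)

namespace Em

/-- The string printed by an emitter program. -/
def eval (y : List Bool) : Em → ℕ → (ℕ → ℕ) → List Bool
  | const w, _, _ => w
  | seq a b, n, v => a.eval y n v ++ b.eval y n v
  | loop b e, n, v => (List.range (v b)).flatMap (fun i => e.eval y (n + 1) (update v n i))
  | lett e f, n, v => f.eval y (n + 1) (update v n (e.eval y (n + 1) v).length)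
  | ifLt i j e f, n, v => if v i < v j then e.eval y n v else f.eval y n v
  | ifBit i e f, n, v => if y[v i]? = some true then e.eval y n v else f.eval y n v

/-- Polynomial bound for the output length. -/
noncomputable def lenP : Em → Polynomial ℕ
  | const w => Polynomial.C w.length
  | seq a b => a.lenP + b.lenP
  | loop _ e => Polynomial.X * e.lenP
  | lett e f => f.lenP.comp (Polynomial.X + e.lenP)
  | ifLt _ _ e f => e.lenP + f.lenP
  | ifBit _ e f => e.lenP + f.lenP

theorem length_flatMap_le {α β : Type} (l : List α) (f : α → List β) (B : ℕ)
    (h : ∀ a ∈ l, (f a).length ≤ B) : (l.flatMap f).length ≤ l.length * B := by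
  induction l with
  | nil => simp
  | cons a l ih =>
    rw [List.flatMap_cons, List.length_append, List.length_cons]
    have h1 := h a (by simp)
    have h2 := ih (fun b hb => h b (by simp [hb]))
    calc (f a).length + (List.flatMap f l).length ≤ B + l.length * B := by omega
      _ = (l.length + 1) * B := by ring

theorem length_eval_le (y : List Bool) (e : Em) : ∀ (n : ℕ) (v : ℕ → ℕ) (B : ℕ), (∀ m, v m ≤ B) →
    (e.eval y n v).length ≤ e.lenP.eval B := by
  induction e with
  | const w => intro n v B hv; simp [eval, lenP]
  | seq a b iha ihb =>
    intro n v B hv
    simp only [eval, lenP, List.length_append, Polynomial.eval_add]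
    exact Nat.add_le_add (iha n v B hv) (ihb n v B hv)
  | loop b e ih =>
    intro n v B hv
    simp only [eval, lenP, Polynomial.eval_mul, Polynomial.eval_X]
    refine (length_flatMap_le _ _ (e.lenP.eval B) ?_).trans ?_
    · intro i hi
      rw [List.mem_range] at hi
      apply ih
      intro m
      by_cases hm : m = n
      · subst hm; rw [update_self]; exact hi.le.trans (hv b)
      · rw [update_of_ne hm]; exact hv m
    · rw [List.length_range]
      exact Nat.mul_le_mul_right _ (hv b)
  | lett e f ihe ihf =>
    intro n v B hv
    simp only [eval, lenP, Polynomial.eval_comp, Polynomial.eval_add, Polynomial.eval_X]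
    apply ihf
    intro m
    by_cases hm : m = n
    · subst hm; rw [update_self]
      exact (ihe (m + 1) v B hv).trans (Nat.le_add_left _ _)
    · rw [update_of_ne hm]; exact (hv m).trans (Nat.le_add_right _ _)
  | ifLt i j e f ihe ihf =>
    intro n v B hv
    simp only [eval, lenP, Polynomial.eval_add]
    split_ifs
    · exact (ihe n v B hv).trans (Nat.le_add_right _ _)
    · exact (ihf n v B hv).trans (Nat.le_add_left _ _)
  | ifBit i e f ihe ihf =>
    intro n v B hv
    simp only [eval, lenP, Polynomial.eval_add]
    split_ifs
    · exact (ihe n v B hv).trans (Nat.le_add_right _ _)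
    · exact (ihf n v B hv).trans (Nat.le_add_left _ _)

end Em

/-- Names of the stacks. -/
inductive Key : Type
  | inp | inp2 | out | tmp | aux | wit | res
  | C (n : ℕ)
  | R (n : ℕ)
  | O (n : ℕ)
  deriving DecidableEq

open Key

/-- the symbol used in counters -/
abbrev one : Sym := some true

/-- no operation -/
def nop {K : Type} : Prog K := .load id

/-- push the symbol in the register -/
def pushr {K : Type} (k : K) : Prog K := .push k (fun r => r.1.getD none)

/-- push a symbol `one` -/
def push1 {K : Type} (k : K) : Prog K := .push k (fun _ => one)

/-- move all of `k` onto `k'` -/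
def move {K : Type} (k k' : K) : Prog K := .whil k (pushr k')

/-- empty `k` -/
def clear {K : Type} (k : K) : Prog K := .whil k nop

section
variable {K : Type} [DecidableEq K]

theorem run_nop (r : Reg) (S : Stk K) : Run nop r S r S 1 := Run.load id r S

theorem run_pushr (k : K) (r : Reg) (S : Stk K) :
    Run (pushr k) r S r (update S k (r.1.getD none :: S k)) 1 := Run.push k _ r S

theorem run_push1 (k : K) (r : Reg) (S : Stk K) :
    Run (push1 k) r S r (update S k (one :: S k)) 1 := Run.push k _ r S

theorem run_move (k k' : K) (hne : k ≠ k') : ∀ (l : List Sym) (r : Reg) (S : Stk K), S k = l →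
    Run (move k k') r S (none, r.2) (update (update S k []) k' (l.reverse ++ S k'))
      (2 * l.length + 1) := by
  intro l
  induction l with
  | nil =>
    intro r S h
    have h1 : update (update S k []) k' ([] ++ S k') = S := by
      funext j
      by_cases h2 : j = k'
      · subst h2; simp
      · rw [update_of_ne h2]
        by_cases h3 : j = k
        · subst h3; rw [update_self, h]
        · rw [update_of_ne h3]
    rw [List.reverse_nil, h1]
    exact Run.whilE h
  | cons a l ih =>
    intro r S h
    have h1 := run_pushr (K := K) k' (some a, r.2) (update S k l)
    have h2 := ih (some a, r.2) (update (update S k l) k' (a :: (update S k l) k')) (by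
      rw [update_of_ne hne, update_self])
    have h3 := Run.whilS (p := pushr k') h h1 h2
    have e1 : update (update (update (update S k l) k' (a :: (update S k l) k')) k []) k'
        (l.reverse ++ (update (update S k l) k' (a :: (update S k l) k')) k') =
        update (update S k []) k' ((a :: l).reverse ++ S k') := by
      funext j
      by_cases h4 : j = k'
      · subst h4
        simp [update_self, update_of_ne hne.symm]
      · rw [update_of_ne h4, update_of_ne h4]
        by_cases h5 : j = k
        · subst h5; rw [update_self, update_self]
        · rw [update_of_ne h5, update_of_ne h4, update_of_ne h5, update_of_ne h5]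
    rw [e1] at h3
    have e2 : 1 + (2 * l.length + 1) + 1 = 2 * (a :: l).length + 1 := by
      rw [List.length_cons]; ring
    rw [e2] at h3
    exact h3

theorem run_count (k k' : K) (hne : k ≠ k') : ∀ (l : List Sym) (r : Reg) (S : Stk K), S k = l →
    Run (.whil k (push1 k')) r S (none, r.2)
      (update (update S k []) k' (List.replicate l.length one ++ S k')) (2 * l.length + 1) := by
  intro l
  induction l with
  | nil =>
    intro r S h
    have h1 : update (update S k []) k' (List.replicate ([] : List Sym).length one ++ S k') = S := by
      funext j
      by_cases h2 : j = k'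
      · subst h2; simp
      · rw [update_of_ne h2]
        by_cases h3 : j = k
        · subst h3; rw [update_self, h]
        · rw [update_of_ne h3]
    rw [h1]
    exact Run.whilE h
  | cons a l ih =>
    intro r S h
    have h1 := run_push1 (K := K) k' (some a, r.2) (update S k l)
    have h2 := ih (some a, r.2) (update (update S k l) k' (one :: (update S k l) k')) (by
      rw [update_of_ne hne, update_self])
    have h3 := Run.whilS (p := push1 k') h h1 h2
    have e1 : update (update (update (update S k l) k' (one :: (update S k l) k')) k []) k'
        (List.replicate l.length one ++ (update (update S k l) k' (one :: (update S k l) k')) k') =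
        update (update S k []) k' (List.replicate (a :: l).length one ++ S k') := by
      funext j
      by_cases h4 : j = k'
      · subst h4
        rw [update_self, update_self, update_self, update_of_ne hne.symm, List.length_cons,
          List.replicate_succ', List.append_assoc]
        rfl
      · rw [update_of_ne h4, update_of_ne h4]
        by_cases h5 : j = k
        · subst h5; rw [update_self, update_self]
        · rw [update_of_ne h5, update_of_ne h4, update_of_ne h5, update_of_ne h5]
    rw [e1] at h3
    have e2 : 1 + (2 * l.length + 1) + 1 = 2 * (a :: l).length + 1 := by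
      rw [List.length_cons]; ring
    rw [e2] at h3
    exact h3

theorem run_clear (k : K) : ∀ (l : List Sym) (r : Reg) (S : Stk K), S k = l →
    Run (clear k) r S (none, r.2) (update S k []) (2 * l.length + 1) := by
  intro l
  induction l with
  | nil =>
    intro r S h
    have h1 : update S k [] = S := by rw [← h]; exact update_eq_self k S
    rw [h1]
    exact Run.whilE h
  | cons a l ih =>
    intro r S h
    have h1 := run_nop (K := K) (some a, r.2) (update S k l)
    have h2 := ih (some a, r.2) (update S k l) (by rw [update_self])
    have h3 := Run.whilS (p := nop) h h1 h2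
    rw [update_idem] at h3
    have e2 : 1 + (2 * l.length + 1) + 1 = 2 * (a :: l).length + 1 := by
      rw [List.length_cons]; ring
    rw [e2] at h3
    exact h3

theorem run_restore (k t k' : K) (h1 : k ≠ t) (h2 : k' ≠ t) (h3 : k ≠ k') :
    ∀ (l : List Sym) (r : Reg) (S : Stk K), S t = l →
    Run (.whil t (.seq (pushr k) (push1 k'))) r S (none, r.2)
      (update (update (update S t []) k (l.reverse ++ S k)) k'
        (List.replicate l.length one ++ S k')) (3 * l.length + 1) := by
  intro l
  induction l with
  | nil =>
    intro r S h
    have e1 : (update (update (update S t []) k (([] : List Sym).reverse ++ S k)) k'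
        (List.replicate ([] : List Sym).length one ++ S k')) = S := by
      funext j
      by_cases hj : j = k'
      · subst hj; simp
      · rw [update_of_ne hj]
        by_cases hj2 : j = k
        · subst hj2; simp
        · rw [update_of_ne hj2]
          by_cases hj3 : j = t
          · subst hj3; rw [update_self, h]
          · rw [update_of_ne hj3]
    rw [e1]
    exact Run.whilE h
  | cons a l ih =>
    intro r S h
    have s1 := run_pushr (K := K) k (some a, r.2) (update S t l)
    have s2 := run_push1 (K := K) k' (some a, r.2)
      (update (update S t l) k (a :: (update S t l) k))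
    have s3 := ih (some a, r.2) (update (update (update S t l) k (a :: (update S t l) k)) k'
      (one :: (update (update S t l) k (a :: (update S t l) k)) k')) (by
      rw [update_of_ne h2.symm, update_of_ne h1.symm, update_self])
    have s4 := Run.whilS (p := .seq (pushr k) (push1 k')) h (Run.seq s1 s2) s3
    have e1 : (update (update (update (update (update (update S t l) k (a :: (update S t l) k)) k'
        (one :: (update (update S t l) k (a :: (update S t l) k)) k')) t []) k
        (l.reverse ++ (update (update (update S t l) k (a :: (update S t l) k)) k'
        (one :: (update (update S t l) k (a :: (update S t l) k)) k')) k)) k'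
        (List.replicate l.length one ++ (update (update (update S t l) k
        (a :: (update S t l) k)) k'
        (one :: (update (update S t l) k (a :: (update S t l) k)) k')) k')) =
        (update (update (update S t []) k ((a :: l).reverse ++ S k)) k'
        (List.replicate (a :: l).length one ++ S k')) := by
      funext j
      by_cases hj : j = k'
      · subst hj
        rw [update_self, update_self, update_self, update_of_ne h3.symm, update_of_ne h2,
          List.length_cons, List.replicate_succ', List.append_assoc]
        rfl
      · rw [update_of_ne hj, update_of_ne hj]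
        by_cases hj2 : j = k
        · subst hj2
          rw [update_self, update_self, update_of_ne h3, update_self, update_of_ne h1]
          simp
        · rw [update_of_ne hj2, update_of_ne hj2]
          by_cases hj3 : j = t
          · subst hj3; rw [update_self, update_self]
          · rw [update_of_ne hj3, update_of_ne hj3, update_of_ne hj, update_of_ne hj2,
              update_of_ne hj3]
    rw [e1] at s4
    have e2 : 1 + 1 + (3 * l.length + 1) + 1 = 3 * (a :: l).length + 1 := by
      rw [List.length_cons]; ring
    rw [e2] at s4
    exact s4

/-- add the length of `k` to the counter `k'`, using the empty stack `t` -/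
def copy {K : Type} (t k k' : K) : Prog K :=
  .seq (move k t) (.whil t (.seq (pushr k) (push1 k')))

theorem run_copy (k t k' : K) (h1 : k ≠ t) (h2 : k' ≠ t) (h3 : k ≠ k') (r : Reg) (S : Stk K)
    (ht : S t = []) :
    Run (copy t k k') r S (none, r.2)
      (update S k' (List.replicate (S k).length one ++ S k')) (5 * (S k).length + 2) := by
  have s1 := run_move k t h1 (S k) r S rfl
  rw [ht, List.append_nil] at s1
  have s2 := run_restore k t k' h1 h2 h3 (S k).reverse (none, r.2)
    (update (update S k []) t (S k).reverse) (by rw [update_self])
  have s3 := Run.seq s1 s2
  have e1 : (update (update (update (update (update S k []) t (S k).reverse) t []) k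
      ((S k).reverse.reverse ++ (update (update S k []) t (S k).reverse) k)) k'
        (List.replicate (S k).reverse.length one ++
          (update (update S k []) t (S k).reverse) k')) =
      (update S k' (List.replicate (S k).length one ++ S k')) := by
    funext j
    by_cases hj : j = k'
    · subst hj
      rw [update_self, update_self, update_of_ne h2, update_of_ne h3.symm, List.length_reverse]
    · rw [update_of_ne hj, update_of_ne hj]
      by_cases hj2 : j = k
      · subst hj2
        rw [update_self, update_of_ne h1, update_self]
        simp
      · rw [update_of_ne hj2]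
        by_cases hj3 : j = t
        · subst hj3; rw [update_self, ht]
        · rw [update_of_ne hj3, update_of_ne hj3, update_of_ne hj2]
  rw [e1] at s3
  have e2 : 2 * (S k).length + 1 + (3 * (S k).reverse.length + 1) = 5 * (S k).length + 2 := by
    rw [List.length_reverse]; ring
  rw [e2] at s3
  exact s3

end

/-! ## The compiler -/

/-- push the bits of `w` in order -/
def pushes (k : Key) : List Bool → Prog Key
  | [] => nop
  | b :: w => .seq (.push k (fun _ => some b)) (pushes k w)

theorem run_pushes (k : Key) : ∀ (w : List Bool) (r : Reg) (S : Stk Key),
    Run (pushes k w) r S r (update S k ((w.map some).reverse ++ S k)) (w.length + 1) := by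
  intro w
  induction w with
  | nil =>
    intro r S
    have : update S k ((([] : List Bool).map some).reverse ++ S k) = S := by simp
    rw [this]
    exact run_nop r S
  | cons b w ih =>
    intro r S
    have h := Run.seq (Run.push k (fun _ => some b) r S) (ih r (update S k (some b :: S k)))
    have e1 : update (update S k (some b :: S k)) k
        ((w.map some).reverse ++ (update S k (some b :: S k)) k) =
        update S k (((b :: w).map some).reverse ++ S k) := by
      rw [update_idem, update_self]
      simp
    rw [e1] at h
    have e2 : 1 + (w.length + 1) = (b :: w).length + 1 := by rw [List.length_cons]; ring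
    rw [e2] at h
    exact h

/-- set the flag if the last popped stack was nonempty -/
def setSome : Prog Key := .load (fun r => (r.1, r.1.isSome))

/-- set the flag if the last popped symbol was `true` -/
def setTrue : Prog Key := .load (fun r => (r.1, decide (r.1 = some (some true))))

/-- push back the register if it is a symbol -/
def pushBack (k : Key) : Prog Key := .ite (fun r => r.1.isSome) (pushr k) nop

/-- Compilation. -/
def Em.comp : Em → ℕ → Key → Prog Key
  | .const w, _, tgt => pushes tgt w
  | .seq a b, n, tgt => .seq (a.comp n tgt) (b.comp n tgt)
  | .loop b e, n, tgt => .seq (copy tmp (C b) (R n))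
      (.seq (.whil (R n) (.seq (e.comp (n + 1) tgt) (push1 (C n)))) (clear (C n)))
  | .lett e f, n, tgt => .seq (e.comp (n + 1) (O n))
      (.seq (.whil (O n) (push1 (C n))) (.seq (f.comp (n + 1) tgt) (clear (C n))))
  | .ifLt i j e f, n, tgt => .seq (copy tmp (C i) (R n)) (.seq (copy tmp (C j) (O n))
      (.seq (.whil (R n) (.pop (O n))) (.seq (.pop (O n)) (.seq setSome (.seq (clear (O n))
        (.ite (fun r => r.2) (e.comp n tgt) (f.comp n tgt)))))))
  | .ifBit i e f, n, tgt => .seq (copy tmp (C i) (R n))
      (.seq (.whil (R n) (.seq (.pop inp) (pushBack inp2)))
      (.seq (.pop inp) (.seq setTrue (.seq (pushBack inp) (.seq (move inp2 inp)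
        (.ite (fun r => r.2) (e.comp n tgt) (f.comp n tgt)))))))

/-- The invariant. -/
structure Inv (y : List Bool) (n : ℕ) (v : ℕ → ℕ) (S : Stk Key) : Prop where
  inp : S inp = y.map some
  inp2 : S inp2 = []
  tmp : S tmp = []
  cnt : ∀ m, (S (C m)).length = v m
  cz : ∀ m, n ≤ m → v m = 0
  rz : ∀ m, n ≤ m → S (R m) = []
  oz : ∀ m, n ≤ m → S (O m) = []

/-- Admissible targets. -/
def okT (n : ℕ) (k : Key) : Prop := k = out ∨ ∃ m < n, k = O m

theorem Inv.upd_tgt {y : List Bool} {n : ℕ} {v : ℕ → ℕ} {S : Stk Key} (h : Inv y n v S) {k : Key}
    (hk : okT n k) (l : List Sym) : Inv y n v (update S k l) := by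
  rcases hk with rfl | ⟨m, hm, rfl⟩
  · exact ⟨by simpa using h.inp, by simpa using h.inp2, by simpa using h.tmp,
      fun m => by simpa using h.cnt m, h.cz, fun m hm => by simpa using h.rz m hm,
      fun m hm => by simpa using h.oz m hm⟩
  · exact ⟨by simpa using h.inp, by simpa using h.inp2, by simpa using h.tmp,
      fun m => by simpa using h.cnt m, h.cz, fun m hm => by simpa using h.rz m hm,
      fun m' hm' => by
        rw [update_of_ne (by simp; omega)]; exact h.oz m' hm'⟩

theorem okT.succ {n : ℕ} {k : Key} (h : okT n k) : okT (n + 1) k := by
  rcases h with rfl | ⟨m, hm, rfl⟩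
  · exact Or.inl rfl
  · exact Or.inr ⟨m, by omega, rfl⟩

theorem Inv.length_cz {y : List Bool} {n : ℕ} {v : ℕ → ℕ} {S : Stk Key} (h : Inv y n v S) (m : ℕ)
    (hm : n ≤ m) : S (C m) = [] := by
  rw [← List.length_eq_zero_iff, h.cnt, h.cz m hm]

theorem okT.ne {n : ℕ} {k : Key} (h : okT n k) : k ≠ inp ∧ k ≠ inp2 ∧ k ≠ tmp ∧ (∀ m, k ≠ C m) ∧
    (∀ m, k ≠ R m) ∧ (∀ m, n ≤ m → k ≠ O m) := by
  rcases h with rfl | ⟨m, hm, rfl⟩
  · simp
  · refine ⟨by simp, by simp, by simp, by simp, by simp, ?_⟩
    intro m' hm' h
    rw [O.injEq] at h
    omega

/-- Polynomial bound for the cost. -/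
noncomputable def Em.costP : Em → Polynomial ℕ
  | .const w => Polynomial.C (w.length + 1)
  | .seq a b => a.costP + b.costP
  | .loop _ e => Polynomial.X * (e.costP + 2) + 7 * Polynomial.X + 4
  | .lett e f => e.costP + 4 * e.lenP + 2 + f.costP.comp (Polynomial.X + e.lenP)
  | .ifLt _ _ e f => e.costP + f.costP + 14 * Polynomial.X + 9
  | .ifBit _ e f => e.costP + f.costP + 11 * Polynomial.X + 9

end NPC
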