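import Pool.Agent.NPC.Print

/-!
# First-order conditions on a bit table, checked by emitter programs
-/

namespace NPC

open Function

/-- The number of ones in the row `r` of the table `y` (rows of length `N`, the first bit is
skipped). -/
def look (y : List Bool) (N r : ℕ) : ℕ :=
  ((List.range N).filter (fun c => decide (y[1 + r * N + c]? = some true))).length

/-- Terms. -/
inductive Tm
  | var (i : ℕ)
  | const (c : ℕ)
  | add (a b : Tm)
  | mul (a b : Tm)
  | look (t : Tm)

namespace Tm

/-- value; the row length is the variable `1` -/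
def val (y : List Bool) : Tm → (ℕ → ℕ) → ℕ
  | var i, v => v i
  | const c, _ => c
  | add a b, v => a.val y v + b.val y v
  | mul a b, v => a.val y v * b.val y v
  | look t, v => NPC.look y (v 1) (t.val y v)

/-- all variables are `< n` -/
def bd : Tm → ℕ → Prop
  | var i, n => i < n
  | const _, _ => True
  | add a b, n => a.bd n ∧ b.bd n
  | mul a b, n => a.bd n ∧ b.bd n
  | look t, n => t.bd n

/-- program printing the value in unary; the variable `i` of the term is the variable `s i` of the
program -/
def emit : Tm → (ℕ → ℕ) → ℕ → Em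
  | var i, s, _ => .loop (s i) (.const [true])
  | const c, _, _ => .const (List.replicate c true)
  | add a b, s, k => .seq (a.emit s k) (b.emit s k)
  | mul a b, s, k => .lett (a.emit s (k + 1)) (.loop k (b.emit s (k + 2)))
  | look t, s, k => .lett (t.emit s (k + 1)) (.loop (s 1)
      (.lett (PE.emit (.add (.add (.const 1) (.mul (.var k) (.var (s 1)))) (.var (k + 1))) (k + 3))
        (.ifBit (k + 2) (.const [true]) (.const []))))

end Tm

/-- `w` represents `v` through the renaming `s` of the first `n` variables, all below `k`. -/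
def Rel (s : ℕ → ℕ) (n k : ℕ) (v w : ℕ → ℕ) : Prop := ∀ j < n, w (s j) = v j ∧ s j < k

theorem Rel.upd {s : ℕ → ℕ} {n k : ℕ} {v w : ℕ → ℕ} (h : Rel s n k v w) (m c : ℕ) (hm : k ≤ m) :
    Rel s n (m + 1) v (update w m c) := by
  intro j hj
  obtain ⟨h1, h2⟩ := h j hj
  exact ⟨by rw [update_of_ne (by omega), h1], by omega⟩

theorem Rel.mono {s : ℕ → ℕ} {n k k' : ℕ} {v w : ℕ → ℕ} (h : Rel s n k v w) (hk : k ≤ k') :
    Rel s n k' v w := fun j hj => ⟨(h j hj).1, by have := (h j hj).2; omega⟩

theorem flatMap_ite (l : List ℕ) (P : ℕ → Prop) [DecidablePred P] :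
    l.flatMap (fun c => if P c then [true] else []) =
      List.replicate (l.filter (fun c => decide (P c))).length true := by
  induction l with
  | nil => rfl
  | cons a l ih =>
    rw [List.flatMap_cons, ih]
    by_cases h : P a
    · rw [if_pos h, List.filter_cons_of_pos (by simpa using h), List.length_cons,
        List.replicate_succ]
      rfl
    · rw [if_neg h, List.filter_cons_of_neg (by simpa using h)]
      rfl

theorem Tm.emit_eval (y : List Bool) (t : Tm) (s : ℕ → ℕ) (n : ℕ) (hn : 1 < n) (v : ℕ → ℕ) :
    ∀ (k : ℕ) (w : ℕ → ℕ), t.bd n → Rel s n k v w →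
      (t.emit s k).eval y k w = List.replicate (t.val y v) true := by
  induction t with
  | var i =>
    intro k w h hR
    have h1 := (hR i h).1
    have := PE.flatMap_replicate_const (w (s i)) 1
    rw [Nat.mul_one] at this
    simp only [emit, Em.eval, val]
    rw [h1] at this ⊢
    exact this
  | const c => intro k w h hR; rfl
  | add a b iha ihb =>
    intro k w h hR
    simp only [emit, Em.eval, val]
    rw [iha k w h.1 hR, ihb k w h.2 hR, List.replicate_add]
  | mul a b iha ihb =>
    intro k w h hR
    simp only [emit, Em.eval, val]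
    rw [iha (k + 1) w h.1 (hR.mono (by omega)), List.length_replicate, update_self]
    have : ∀ i, (b.emit s (k + 2)).eval y (k + 2) (update (update w k (a.val y v)) (k + 1) i) =
        List.replicate (b.val y v) true := by
      intro i
      exact ihb (k + 2) _ h.2 ((hR.upd k _ le_rfl).upd (k + 1) _ le_rfl)
    simp only [this]
    exact PE.flatMap_replicate_const _ _
  | look t ih =>
    intro k w h hR
    obtain ⟨hN, hs⟩ := hR 1 hn
    simp only [emit, Em.eval, val]
    rw [ih (k + 1) w h (hR.mono (by omega)), List.length_replicate]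
    rw [update_of_ne (by omega), hN]
    have hb : ∀ c, ((PE.add (.add (.const 1) (.mul (.var k) (.var (s 1)))) (.var (k + 1))).emit
        (k + 1 + 1 + 1)).eval y (k + 1 + 1 + 1) (update (update w k (t.val y v)) (k + 1) c) =
        List.replicate (1 + t.val y v * v 1 + c) true := by
      intro c
      have hbd : (PE.add (.add (.const 1) (.mul (.var k) (.var (s 1)))) (.var (k + 1))).bd
          (k + 1 + 1 + 1) := by
        refine ⟨⟨trivial, ?_, ?_⟩, ?_⟩ <;> simp only [PE.bd] <;> omega
      rw [PE.emit_eval y _ (k + 1 + 1 + 1) _ hbd]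
      congr 1
      simp only [PE.val]
      rw [update_of_ne (by omega : k ≠ k + 1), update_self, update_of_ne (by omega : s 1 ≠ k + 1),
        update_of_ne (by omega : s 1 ≠ k), hN, update_self]
    have hb' : ∀ c, (update (update (update w k (t.val y v)) (k + 1) c) (k + 1 + 1)
        (Em.eval y ((PE.add (.add (.const 1) (.mul (.var k) (.var (s 1)))) (.var (k + 1))).emit
        (k + 3)) (k + 1 + 1 + 1) (update (update w k (t.val y v)) (k + 1) c)).length) (k + 2) =
        1 + t.val y v * v 1 + c := by
      intro c
      have := hb c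
      rw [show k + 3 = k + 1 + 1 + 1 by ring, this, List.length_replicate,
        show k + 2 = k + 1 + 1 by ring, update_self]
    simp only [hb']
    exact flatMap_ite _ _

/-- Formulas. -/
inductive Fm
  | lt (s t : Tm)
  | neg (f : Fm)
  | conj (f g : Fm)
  /-- for some value `< b` of the new variable -/
  | ex (b : Tm) (f : Fm)

namespace Fm

/-- satisfaction; `n` is the number of the new variable -/
def sat (y : List Bool) : Fm → ℕ → (ℕ → ℕ) → Prop
  | lt s t, _, v => s.val y v < t.val y v
  | neg f, n, v => ¬ f.sat y n v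
  | conj f g, n, v => f.sat y n v ∧ g.sat y n v
  | ex b f, n, v => ∃ i < b.val y v, f.sat y (n + 1) (update v n i)

/-- all variables are bound or `< n` -/
def bd : Fm → ℕ → Prop
  | lt s t, n => s.bd n ∧ t.bd n
  | neg f, n => f.bd n
  | conj f g, n => f.bd n ∧ g.bd n
  | ex b f, n => b.bd n ∧ f.bd (n + 1)

/-- program printing something iff the formula holds -/
def test : Fm → (ℕ → ℕ) → ℕ → ℕ → Em
  | lt a b, s, _, k => .lett (a.emit s (k + 1)) (.lett (b.emit s (k + 2))
      (.ifLt k (k + 1) (.const [true]) (.const [])))
  | neg f, s, n, k => .lett (.const []) (.lett (f.test s n (k + 2))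
      (.ifLt k (k + 1) (.const []) (.const [true])))
  | conj f g, s, n, k => .lett (.const []) (.lett (f.test s n (k + 2))
      (.ifLt k (k + 1) (g.test s n (k + 2)) (.const [])))
  | ex b f, s, n, k => .lett (b.emit s (k + 1)) (.loop k (f.test (update s n (k + 1)) (n + 1) (k + 2)))

theorem ifLt_eval (y : List Bool) (i j : ℕ) (e f : Em) (n : ℕ) (v : ℕ → ℕ) (a b : ℕ)
    (hi : v i = a) (hj : v j = b) :
    (Em.ifLt i j e f).eval y n v = if a < b then e.eval y n v else f.eval y n v := by
  subst hi hj; rfl

theorem test_eval (y : List Bool) (f : Fm) : ∀ (s : ℕ → ℕ) (n : ℕ), 1 < n → ∀ (v : ℕ → ℕ) (k : ℕ)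
    (w : ℕ → ℕ), f.bd n → Rel s n k v w →
      ((f.test s n k).eval y k w ≠ [] ↔ f.sat y n v) := by
  induction f with
  | lt a b =>
    intro s n hn v k w h hR
    simp only [test, Em.eval, sat]
    rw [Tm.emit_eval y a s n hn v (k + 1) w h.1 (hR.mono (by omega)), List.length_replicate]
    have h2 := Tm.emit_eval y b s n hn v (k + 2) (update w k (a.val y v)) h.2
      ((hR.upd k _ le_rfl).mono (by omega))
    rw [show k + 1 + 1 = k + 2 by ring, h2, List.length_replicate,
      update_of_ne (by omega : k ≠ k + 1), update_self, update_self]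
    split_ifs with h3
    · simpa using h3
    · simpa using h3
  | neg f ih =>
    intro s n hn v k w h hR
    have h1 := ih s n hn v (k + 2) (update w k 0) h ((hR.upd k _ le_rfl).mono (by omega))
    set L := ((f.test s n (k + 2)).eval y (k + 1 + 1) (update w k 0)).length with hL
    have e1 : (test (.neg f) s n k).eval y k w =
        (Em.ifLt k (k + 1) (.const []) (.const [true])).eval y (k + 1 + 1)
          (update (update w k 0) (k + 1) L) := rfl
    rw [e1, ifLt_eval y k (k + 1) _ _ (k + 1 + 1) _ 0 L
      (by rw [update_of_ne (by omega : k ≠ k + 1), update_self]) (by rw [update_self])]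
    simp only [sat, Em.eval]
    split_ifs with h3
    · have h4 : (f.test s n (k + 2)).eval y (k + 1 + 1) (update w k 0) ≠ [] :=
        List.ne_nil_of_length_pos h3
      have := h1.1 h4
      simp [this]
    · have h4 : (f.test s n (k + 2)).eval y (k + 1 + 1) (update w k 0) = [] := by
        rw [← List.length_eq_zero_iff]; omega
      have : ¬ f.sat y n v := fun h5 => h1.2 h5 h4
      simp [this]
  | conj f g ihf ihg =>
    intro s n hn v k w h hR
    have h1 := ihf s n hn v (k + 2) (update w k 0) h.1 ((hR.upd k _ le_rfl).mono (by omega))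
    set L := ((f.test s n (k + 2)).eval y (k + 1 + 1) (update w k 0)).length with hL
    have e1 : (test (.conj f g) s n k).eval y k w =
        (Em.ifLt k (k + 1) (g.test s n (k + 2)) (.const [])).eval y (k + 1 + 1)
          (update (update w k 0) (k + 1) L) := rfl
    rw [e1, ifLt_eval y k (k + 1) _ _ (k + 1 + 1) _ 0 L
      (by rw [update_of_ne (by omega : k ≠ k + 1), update_self]) (by rw [update_self])]
    have h6 := ihg s n hn v (k + 1 + 1) (update (update w k 0) (k + 1) L) h.2
      ((hR.upd k _ le_rfl).upd (k + 1) _ le_rfl)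
    simp only [sat, Em.eval]
    split_ifs with h3
    · have h4 : (f.test s n (k + 2)).eval y (k + 1 + 1) (update w k 0) ≠ [] :=
        List.ne_nil_of_length_pos h3
      have h5 := h1.1 h4
      rw [show k + 2 = k + 1 + 1 by ring, h6]
      simp [h5]
    · have h4 : (f.test s n (k + 2)).eval y (k + 1 + 1) (update w k 0) = [] := by
        rw [← List.length_eq_zero_iff]; omega
      have : ¬ f.sat y n v := fun h5 => h1.2 h5 h4
      simp [this]
  | ex b f ih =>
    intro s n hn v k w h hR
    simp only [test, Em.eval, sat]
    rw [Tm.emit_eval y b s n hn v (k + 1) w h.1 (hR.mono (by omega)), List.length_replicate,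
      update_self, ne_eq, List.flatMap_eq_nil_iff]
    have hi : ∀ i, ((f.test (update s n (k + 1)) (n + 1) (k + 2)).eval y (k + 1 + 1)
        (update (update w k (b.val y v)) (k + 1) i) ≠ [] ↔ f.sat y (n + 1) (update v n i)) := by
      intro i
      refine ih (update s n (k + 1)) (n + 1) (by omega) (update v n i) (k + 2) _ h.2 ?_
      intro j hj
      by_cases hjn : j = n
      · subst hjn
        rw [update_self, update_self, update_self]
        exact ⟨rfl, by omega⟩
      · obtain ⟨h1, h2⟩ := hR j (by omega)
        rw [update_of_ne hjn, update_of_ne hjn, update_of_ne (by omega), update_of_ne (by omega)]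
        exact ⟨h1, by omega⟩
    push Not
    constructor
    · rintro ⟨i, hi1, hi2⟩
      exact ⟨i, List.mem_range.1 hi1, (hi i).1 hi2⟩
    · rintro ⟨i, hi1, hi2⟩
      exact ⟨i, List.mem_range.2 hi1, (hi i).2 hi2⟩

/-- universal quantifier -/
def all (b : Tm) (f : Fm) : Fm := neg (ex b (neg f))

/-- disjunction -/
def disj (f g : Fm) : Fm := neg (conj (neg f) (neg g))

/-- implication -/
def imp (f g : Fm) : Fm := neg (conj f (neg g))

/-- equality -/
def eq (s t : Tm) : Fm := conj (neg (lt s t)) (neg (lt t s))

theorem sat_all (y : List Bool) (b : Tm) (f : Fm) (n : ℕ) (v : ℕ → ℕ) :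
    (all b f).sat y n v ↔ ∀ i < b.val y v, f.sat y (n + 1) (update v n i) := by
  simp only [all, sat]
  push Not
  rfl

theorem sat_disj (y : List Bool) (f g : Fm) (n : ℕ) (v : ℕ → ℕ) :
    (disj f g).sat y n v ↔ f.sat y n v ∨ g.sat y n v := by
  simp only [disj, sat]
  tauto

theorem sat_imp (y : List Bool) (f g : Fm) (n : ℕ) (v : ℕ → ℕ) :
    (imp f g).sat y n v ↔ (f.sat y n v → g.sat y n v) := by
  simp only [imp, sat]
  tauto

theorem sat_eq (y : List Bool) (s t : Tm) (n : ℕ) (v : ℕ → ℕ) :
    (eq s t).sat y n v ↔ s.val y v = t.val y v := by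
  simp only [eq, sat]
  omega

end Fm

end NPC
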