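import Pool.Agent.NPC.Verif
import Pool.Agent.NPC.Cert2
import Pool.Agent.NPC.Final

/-!
# ODD-PATHS is in NP, hence NP-complete
-/

namespace NPC

open OddP

theorem length_encList {α : Type} (f : α → List Bool) (l : List α) :
    l.length ≤ (encList f l).length := by
  unfold encList
  rw [List.length_append]
  induction l with
  | nil => simp
  | cons a l ih =>
    rw [List.flatMap_cons, List.length_append, List.length_cons, List.length_cons]
    simp only [List.length_singleton] at ih ⊢
    omega

theorem length_encode (I : Instance) : I.n + I.edges.length + 1 ≤ I.encode.length := by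
  unfold Instance.encode
  have h1 := length_encList (fun p : ℕ × ℕ => encNat p.1 ++ encNat p.2) I.edges
  simp only [List.length_append]
  have h2 : (encNat I.n).length = I.n + 1 := by simp [encNat]
  omega

/-- ODD-PATHS is in NP. -/
theorem oddpaths_mem : ODDPATHS ∈ NP := by
  refine ⟨fun p => decide (certE.fn p.2 = true :: p.1),
    Polynomial.X * (3 + 5 * Polynomial.X + 2 * (Polynomial.X * Polynomial.X)),
    polyTime_verif certE, ?_, ?_⟩
  · intro x w h
    have h0 : certE.fn w = true :: x := of_decide_eq_true h
    rcases certE_fn w with ⟨⟨h1, h2, h3⟩, h4⟩ | ⟨_, h4⟩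
    · rw [h4] at h0
      have hx := (List.cons.inj h0).2
      have hl := length_encode
        (Data.ofRows (look (prep w) (rowLen (w.length + 1))) (rowLen (w.length + 1))).inst
      rw [hx] at hl
      set N := rowLen (w.length + 1) with hN
      have e1 : (Data.ofRows (look (prep w) N) N).inst.n = look (prep w) N 0 := rfl
      have e2 : (Data.ofRows (look (prep w) N) N).inst.edges.length = look (prep w) N 1 := by
        simp [Data.inst, Data.ofRows]
      rw [e1, e2] at hl
      have hNx : N ≤ x.length := by omega
      have hs : Sz N ≤ Sz x.length := by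
        rcases hNx.eq_or_lt with h | h
        · rw [h]
        · exact (Sz_mono h).le
      simp only [Polynomial.eval_add, Polynomial.eval_mul, Polynomial.eval_X,
        Polynomial.eval_ofNat]
      unfold Sz at hs h1
      omega
    · rw [h4] at h0
      exact absurd h0 (by simp)
  · intro x
    constructor
    · rintro ⟨I, hI, hY, rfl⟩
      obtain ⟨w, hw⟩ := exists_cert I hI hY
      exact ⟨w, by simpa using hw⟩
    · rintro ⟨w, hw⟩
      have h0 : certE.fn w = true :: x := of_decide_eq_true hw
      rcases certE_fn w with ⟨⟨h1, h2, h3⟩, h4⟩ | ⟨_, h4⟩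
      · rw [h4] at h0
        exact ⟨_, h3.valid, h3.yes, (List.cons.inj h0).2⟩
      · rw [h4] at h0
        exact absurd h0 (by simp)

theorem conp_iff : ODDPATHS ∈ coNP ↔ NP = coNP :=
  ⟨np_eq_conp_of_conp, fun h => h ▸ oddpaths_mem⟩

/-- The no-instances of ODD-PATHS have polynomially verifiable certificates iff NP = co-NP. -/
theorem cert_iff : (∃ C ∈ NP, ∀ I : Instance, I.Valid → (I.encode ∈ C ↔ ¬ I.Yes)) ↔ NP = coNP := by
  refine ⟨np_eq_conp_of_cert, ?_⟩
  intro h
  refine ⟨_, conp_iff.2 h, ?_⟩
  intro I hI
  constructor
  · intro h1 h2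
    exact h1 ⟨I, hI, h2, rfl⟩
  · rintro h1 ⟨J, hJ, hJ2, hJ3⟩
    have := encode_injective hJ3
    subst this
    exact h1 hJ2

end NPC
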