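import Pool.Agent.NPC.Tableau
import Pool.Agent.NPC.CompTM

/-!
# Mathlib's multi-stack machines as abstract machines, and the tableau of an NP verifier
-/

namespace NPC

open Function Turing

section Raw

variable {K : Type} [DecidableEq K] {Γ : K → Type} {Λ σ : Type}

/-- next statement and state -/
def mctl (m : Λ → TM2.Stmt Γ Λ σ) : Option (TM2.Stmt Γ Λ σ) → σ → (∀ k, Option (Γ k)) →
    Option (TM2.Stmt Γ Λ σ) × σ
  | none, v, _ => (none, v)
  | some (.push _ _ q), v, _ => (some q, v)
  | some (.peek k f q), v, h => (some q, f v (h k))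
  | some (.pop k f q), v, h => (some q, f v (h k))
  | some (.load a q), v, _ => (some q, a v)
  | some (.branch f q₁ q₂), v, _ => (some (cond (f v) q₁ q₂), v)
  | some (.goto f), v, _ => (some (m (f v)), v)
  | some .halt, v, _ => (none, v)

/-- the stack operations -/
def mop : Option (TM2.Stmt Γ Λ σ) → σ → ∀ k, Op (Γ k)
  | some (.push k f _), v => update (fun _ => Op.keep) k (Op.push (f v))
  | some (.pop k _ _), _ => update (fun _ => Op.keep) k Op.pop
  | _, _ => fun _ => Op.keep

/-- one micro step -/
def rstep (m : Λ → TM2.Stmt Γ Λ σ) (c : (Option (TM2.Stmt Γ Λ σ) × σ) × (∀ k, List (Γ k))) :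
    (Option (TM2.Stmt Γ Λ σ) × σ) × (∀ k, List (Γ k)) :=
  (mctl m c.1.1 c.1.2 (fun k => (c.2 k).head?), fun k => (mop c.1.1 c.1.2 k).app (c.2 k))

/-- size of a statement -/
def ssize : TM2.Stmt Γ Λ σ → ℕ
  | .push _ _ q => ssize q + 1
  | .peek _ _ q => ssize q + 1
  | .pop _ _ q => ssize q + 1
  | .load _ q => ssize q + 1
  | .branch _ q₁ q₂ => ssize q₁ + ssize q₂ + 1
  | .goto _ => 1
  | .halt => 1

theorem app_keep (S : ∀ k, List (Γ k)) : (fun k => (Op.keep : Op (Γ k)).app (S k)) = S := rfl

theorem app_update (S : ∀ k, List (Γ k)) (k : K) (o : Op (Γ k)) :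
    (fun j => (update (fun _ => Op.keep) k o j : Op (Γ j)).app (S j)) = update S k (o.app (S k)) := by
  funext j
  by_cases h : j = k
  · subst h; rw [update_self, update_self]
  · rw [update_of_ne h, update_of_ne h]; rfl

theorem rstep_stmt (m : Λ → TM2.Stmt Γ Λ σ) (q : TM2.Stmt Γ Λ σ) : ∀ (v : σ) (S : ∀ k, List (Γ k)),
    ∃ n ≤ ssize q, (rstep m)^[n] ((some q, v), S) =
      (((TM2.stepAux q v S).l.map m, (TM2.stepAux q v S).var), (TM2.stepAux q v S).stk) := by
  induction q with
  | push k f q ih =>
    intro v S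
    obtain ⟨n, hn, h⟩ := ih v (update S k (f v :: S k))
    refine ⟨n + 1, by simp only [ssize]; omega, ?_⟩
    rw [iterate_succ_apply]
    have : rstep m ((some (.push k f q), v), S) = ((some q, v), update S k (f v :: S k)) := by
      unfold rstep mctl mop
      exact Prod.ext rfl (app_update S k _)
    rw [this, h]
    rfl
  | peek k f q ih =>
    intro v S
    obtain ⟨n, hn, h⟩ := ih (f v (S k).head?) S
    refine ⟨n + 1, by simp only [ssize]; omega, ?_⟩
    rw [iterate_succ_apply]
    have : rstep m ((some (.peek k f q), v), S) = ((some q, f v (S k).head?), S) := rfl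
    rw [this, h]
    rfl
  | pop k f q ih =>
    intro v S
    obtain ⟨n, hn, h⟩ := ih (f v (S k).head?) (update S k (S k).tail)
    refine ⟨n + 1, by simp only [ssize]; omega, ?_⟩
    rw [iterate_succ_apply]
    have : rstep m ((some (.pop k f q), v), S) =
        ((some q, f v (S k).head?), update S k (S k).tail) := by
      unfold rstep mctl mop
      exact Prod.ext rfl (app_update S k _)
    rw [this, h]
    rfl
  | load a q ih =>
    intro v S
    obtain ⟨n, hn, h⟩ := ih (a v) S
    refine ⟨n + 1, by simp only [ssize]; omega, ?_⟩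
    rw [iterate_succ_apply]
    have : rstep m ((some (.load a q), v), S) = ((some q, a v), S) := rfl
    rw [this, h]
    rfl
  | branch f q₁ q₂ ih₁ ih₂ =>
    intro v S
    rcases hf : f v with _ | _
    · obtain ⟨n, hn, h⟩ := ih₂ v S
      refine ⟨n + 1, by simp only [ssize]; omega, ?_⟩
      rw [iterate_succ_apply]
      have : rstep m ((some (.branch f q₁ q₂), v), S) = ((some q₂, v), S) := by
        unfold rstep mctl mop
        simp only [hf, cond_false]
        rfl
      rw [this, h, TM2.stepAux, hf, cond_false]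
    · obtain ⟨n, hn, h⟩ := ih₁ v S
      refine ⟨n + 1, by simp only [ssize]; omega, ?_⟩
      rw [iterate_succ_apply]
      have : rstep m ((some (.branch f q₁ q₂), v), S) = ((some q₁, v), S) := by
        unfold rstep mctl mop
        simp only [hf, cond_true]
        rfl
      rw [this, h, TM2.stepAux, hf, cond_true]
  | goto f => intro v S; exact ⟨1, le_rfl, rfl⟩
  | halt => intro v S; exact ⟨1, le_rfl, rfl⟩

theorem rstep_steps (m : Λ → TM2.Stmt Γ Λ σ) (D : ℕ) (hD : ∀ l, ssize (m l) ≤ D) :
    ∀ (n : ℕ) (c c' : TM2.Cfg Γ Λ σ), Steps (TM2.step m) n c c' →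
      ∃ n' ≤ n * D, (rstep m)^[n'] ((c.l.map m, c.var), c.stk) = ((c'.l.map m, c'.var), c'.stk) := by
  intro n
  induction n with
  | zero =>
    intro c c' h
    have : c = c' := by simpa [Steps] using h
    rw [this]; exact ⟨0, by omega, rfl⟩
  | succ n ih =>
    intro c c' h
    obtain ⟨b, hb, h2⟩ := Steps.succ_iff.1 h
    obtain ⟨n', hn', h3⟩ := ih b c' h2
    rcases c with ⟨_ | l, v, S⟩
    · simp [TM2.step] at hb
    · simp only [TM2.step, Option.some.injEq] at hb
      obtain ⟨n'', hn'', h4⟩ := rstep_stmt m (m l) v S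
      rw [hb] at h4
      refine ⟨n' + n'', ?_, ?_⟩
      · have := hD l
        calc n' + n'' ≤ n * D + D := by omega
          _ = (n + 1) * D := by ring
      · rw [iterate_add_apply]
        have : ((Option.map m (some l), v), S) = ((some (m l), v), S) := rfl
        rw [this, h4, h3]

theorem rstep_none (m : Λ → TM2.Stmt Γ Λ σ) (v : σ) (S : ∀ k, List (Γ k)) (n : ℕ) :
    (rstep m)^[n] ((none, v), S) = ((none, v), S) := by
  induction n with
  | zero => rfl
  | succ n ih => rw [iterate_succ_apply]; exact ih

theorem length_app_le {A : Type} (o : Op A) (l : List A) : (o.app l).length ≤ l.length + 1 := by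
  rcases o with _ | a | _
  · simp [Op.app]
  · simp [Op.app]
  · simp only [Op.app, List.length_tail]; omega

theorem length_rstep_le (m : Λ → TM2.Stmt Γ Λ σ) (n : ℕ) :
    ∀ (c : (Option (TM2.Stmt Γ Λ σ) × σ) × (∀ k, List (Γ k))) (k : K),
      (((rstep m)^[n] c).2 k).length ≤ (c.2 k).length + n := by
  induction n with
  | zero => intro c k; exact le_rfl
  | succ n ih =>
    intro c k
    rw [iterate_succ_apply]
    refine (ih _ k).trans ?_
    have := length_app_le (mop c.1.1 c.1.2 k) (c.2 k)
    change ((mop c.1.1 c.1.2 k).app (c.2 k)).length + n ≤ _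
    omega

theorem mctl_mem [Fintype Λ] (m : Λ → TM2.Stmt Γ Λ σ) (q : Option (TM2.Stmt Γ Λ σ)) (v : σ)
    (h : ∀ k, Option (Γ k)) (hq : q ∈ TM2.stmts m Finset.univ) :
    (mctl m q v h).1 ∈ TM2.stmts m Finset.univ := by
  have hnone : (none : Option (TM2.Stmt Γ Λ σ)) ∈ TM2.stmts m Finset.univ := by
    simp [TM2.stmts]
  have hm : ∀ l, some (m l) ∈ TM2.stmts m Finset.univ := by
    intro l
    simp only [TM2.stmts, Finset.mem_insertNone, Finset.mem_biUnion, Finset.mem_univ, true_and,
      Option.mem_def, Option.some.injEq, forall_eq']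
    exact ⟨l, TM2.stmts₁_self⟩
  rcases q with _ | q
  · exact hnone
  · cases q with
    | push k f q =>
      exact TM2.stmts_trans (by simp [TM2.stmts₁, TM2.stmts₁_self]) hq
    | peek k f q =>
      exact TM2.stmts_trans (by simp [TM2.stmts₁, TM2.stmts₁_self]) hq
    | pop k f q =>
      exact TM2.stmts_trans (by simp [TM2.stmts₁, TM2.stmts₁_self]) hq
    | load a q =>
      exact TM2.stmts_trans (by simp [TM2.stmts₁, TM2.stmts₁_self]) hq
    | branch f q₁ q₂ =>
      change some (cond (f v) q₁ q₂) ∈ _
      cases f v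
      · exact TM2.stmts_trans (by simp [TM2.stmts₁, TM2.stmts₁_self]) hq
      · exact TM2.stmts_trans (by simp [TM2.stmts₁, TM2.stmts₁_self]) hq
    | goto f => exact hm _
    | halt => exact hnone

end Raw

/-- The abstract machine of a Mathlib machine. -/
noncomputable def machOf (tm : FinTM2) : Mach :=
  letI := tm.ΛFin
  { Q := {q : Option (TM2.Stmt tm.Γ tm.Λ tm.σ) // q ∈ TM2.stmts tm.m Finset.univ} × tm.σ
    K := tm.K
    Γ := tm.Γ
    ctl := fun q h => (⟨(mctl tm.m q.1.1 q.2 h).1, mctl_mem tm.m q.1.1 q.2 h q.1.2⟩,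
      (mctl tm.m q.1.1 q.2 h).2)
    op := fun q _ => mop q.1.1 q.2 }

/-- forgetting the membership proofs -/
def forget (tm : FinTM2) (c : (machOf tm).Cf) :
    (Option (TM2.Stmt tm.Γ tm.Λ tm.σ) × tm.σ) × (∀ k, List (tm.Γ k)) :=
  ((c.1.1.1, c.1.2), c.2)

theorem forget_step (tm : FinTM2) (c : (machOf tm).Cf) :
    forget tm ((machOf tm).step c) = rstep tm.m (forget tm c) := rfl

theorem forget_iterate (tm : FinTM2) (n : ℕ) : ∀ (c : (machOf tm).Cf),
    forget tm ((machOf tm).step^[n] c) = (rstep tm.m)^[n] (forget tm c) := by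
  induction n with
  | zero => intro c; rfl
  | succ n ih =>
    intro c
    rw [iterate_succ_apply, iterate_succ_apply, ih, forget_step]

theorem exists_ssize_bound (M : FinTM2) : ∃ D, ∀ l, ssize (M.m l) ≤ D := by
  haveI := M.ΛFin
  exact ⟨Finset.univ.sup (fun l => ssize (M.m l)), fun l => Finset.le_sup (f := fun l => ssize (M.m l))
    (Finset.mem_univ l)⟩

theorem length_update_le (tm : FinTM2) (k₀ : tm.K) (l : List (tm.Γ k₀)) (k : tm.K) :
    ((update (fun _ => []) k₀ l : ∀ k, List (tm.Γ k)) k).length ≤ l.length := by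
  by_cases hk : k = k₀
  · subst hk; rw [update_self]
  · rw [update_of_ne hk]; simp

/-- Every language in NP is described by tableaux of a fixed finite machine. -/
theorem np_tableau {L : Set (List Bool)} (hL : L ∈ NP) :
    ∃ (M : Mach) (_ : Finite M.Q) (_ : Finite M.K) (_ : ∀ k, Finite (M.Γ k))
      (q0 : M.Q) (k₀ k₁ : M.K) (sy : Sym → M.Γ k₀) (ac : M.Γ k₁) (P N : Polynomial ℕ),
      ∀ x : List Bool, (x.length + 2 + P.eval (x.length + 1) ≤ N.eval (x.length + 1)) ∧
        (x ∈ L ↔ ∃ z, M.Solves q0 k₀ k₁ sy ac (x.length + 1)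
          (x.length + 2 + P.eval (x.length + 1)) (N.eval (x.length + 1)) (false :: x.reverse) z) := by
  obtain ⟨V, p, ⟨F, hF⟩, hp, hVL⟩ := hL
  obtain ⟨D, hD⟩ := exists_ssize_bound F.tm
  letI := F.tm.ΛFin
  letI := F.tm.kFin
  letI := F.tm.σFin
  refine ⟨machOf F.tm, ?_, ?_, hF, ?_, F.tm.k₀, F.tm.k₁, F.inputAlphabet.symm,
    F.outputAlphabet.symm (some true), p,
    Polynomial.C D * F.time.comp (Polynomial.X + p) + Polynomial.X + p + 2, ?_⟩
  · exact inferInstanceAs (Finite ({q : Option (TM2.Stmt F.tm.Γ F.tm.Λ F.tm.σ) //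
      q ∈ TM2.stmts F.tm.m Finset.univ} × F.tm.σ))
  · exact inferInstanceAs (Finite F.tm.K)
  · exact (⟨some (F.tm.m F.tm.main), by
      simp only [TM2.stmts, Finset.mem_insertNone, Finset.mem_biUnion, Finset.mem_univ, true_and,
        Option.mem_def, Option.some.injEq, forall_eq']
      exact ⟨F.tm.main, TM2.stmts₁_self⟩⟩, F.tm.initialState)
  · intro x
    set n1 := x.length + 1 with hn1
    have hNe : (Polynomial.C D * F.time.comp (Polynomial.X + p) + Polynomial.X + p + 2).eval n1 =
        D * F.time.eval (n1 + p.eval n1) + n1 + p.eval n1 + 2 := by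
      simp [Polynomial.eval_comp]
    rw [hNe]
    have hN0 : x.length + 2 + p.eval n1 ≤ D * F.time.eval (n1 + p.eval n1) + n1 + p.eval n1 + 2 := by
      omega
    refine ⟨hN0, ?_⟩
    set N := D * F.time.eval (n1 + p.eval n1) + n1 + p.eval n1 + 2 with hN
    letI : DecidableEq (machOf F.tm).K := F.tm.kDecidableEq
    set q0 : (machOf F.tm).Q := (⟨some (F.tm.m F.tm.main), by
      simp only [TM2.stmts, Finset.mem_insertNone, Finset.mem_biUnion, Finset.mem_univ, true_and,
        Option.mem_def, Option.some.injEq, forall_eq']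
      exact ⟨F.tm.main, TM2.stmts₁_self⟩⟩, F.tm.initialState) with hq0
    -- description of the run
    have hrun : ∀ w : List Bool, w.length ≤ p.eval n1 →
        ∃ n' ≤ D * F.time.eval (n1 + p.eval n1), ∀ t,
          (forget F.tm ((machOf F.tm).conf q0 F.tm.k₀ F.inputAlphabet.symm (encPair (x, w)) (n' + t))) =
            ((none, F.tm.initialState), update (fun _ => []) F.tm.k₁
              ((encBool (V (x, w))).map F.outputAlphabet.invFun)) := by
      intro w hw
      have h1 := (F.outputsFun (x, w)).evals_in_steps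
      have h1' := (F.outputsFun (x, w)).steps_le_m
      set n := (F.outputsFun (x, w)).steps with hn
      have s1 : Steps (TM2.step F.tm.m) n ⟨some F.tm.main, F.tm.initialState,
          update (fun _ => []) F.tm.k₀ ((encPair (x, w)).map F.inputAlphabet.invFun)⟩
          ⟨none, F.tm.initialState, update (fun _ => []) F.tm.k₁
            ((encBool (V (x, w))).map F.outputAlphabet.invFun)⟩ := by
        have := h1
        rw [Option.map_some, initList_eq, haltList_eq] at this
        exact this
      obtain ⟨n', hn', h2⟩ := rstep_steps F.tm.m D hD n _ _ s1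
      refine ⟨n', ?_, ?_⟩
      · refine hn'.trans ?_
        rw [Nat.mul_comm]
        apply Nat.mul_le_mul_left
        refine h1'.trans (eval_mono _ ?_)
        simp only [encPair, List.length_append, List.length_map, List.length_cons]
        omega
      · intro t
        change forget F.tm ((machOf F.tm).step^[n' + t]
          ((machOf F.tm).initc q0 F.tm.k₀ F.inputAlphabet.symm (encPair (x, w)))) = _
        rw [Nat.add_comm, iterate_add_apply, forget_iterate, forget_iterate]
        have e1 : forget F.tm ((machOf F.tm).initc q0 F.tm.k₀ F.inputAlphabet.symm (encPair (x, w))) =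
            ((some (F.tm.m F.tm.main), F.tm.initialState),
              update (fun _ => []) F.tm.k₀ ((encPair (x, w)).map F.inputAlphabet.invFun)) := rfl
        rw [e1]
        have h3 : (rstep F.tm.m)^[n'] ((some (F.tm.m F.tm.main), F.tm.initialState),
              update (fun _ => []) F.tm.k₀ ((encPair (x, w)).map F.inputAlphabet.invFun)) =
            ((none, F.tm.initialState), update (fun _ => []) F.tm.k₁
              ((encBool (V (x, w))).map F.outputAlphabet.invFun)) := h2
        rw [h3]
        exact rstep_none _ _ _ _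
    have hlen0 : ∀ w : List Bool, w.length ≤ p.eval n1 → ∀ t k,
        (((machOf F.tm).conf q0 F.tm.k₀ F.inputAlphabet.symm (encPair (x, w)) t).2 k).length ≤
          n1 + p.eval n1 + t := by
      intro w hw t k
      have h1 := length_rstep_le F.tm.m t (forget F.tm
        ((machOf F.tm).initc q0 F.tm.k₀ F.inputAlphabet.symm (encPair (x, w)))) k
      rw [← forget_iterate] at h1
      refine h1.trans (Nat.add_le_add_right ?_ t)
      refine (length_update_le F.tm F.tm.k₀ ((encPair (x, w)).map F.inputAlphabet.symm) k).trans ?_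
      rw [List.length_map]
      simp only [encPair, List.length_append, List.length_map, List.length_cons]
      omega
    have hH : ∀ w : List Bool, w.length ≤ p.eval n1 → ∀ t k,
        (((machOf F.tm).conf q0 F.tm.k₀ F.inputAlphabet.symm (encPair (x, w)) t).2 k).length < N := by
      intro w hw t k
      obtain ⟨n', hn', h2⟩ := hrun w hw
      rcases Nat.lt_or_ge t n' with h | h
      · have := hlen0 w hw t k
        omega
      · obtain ⟨s, rfl⟩ : ∃ s, t = n' + s := ⟨t - n', by omega⟩
        have e1 := h2 s
        have e0 := h2 0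
        have e2 : ((machOf F.tm).conf q0 F.tm.k₀ F.inputAlphabet.symm (encPair (x, w)) (n' + s)).2 k =
            ((machOf F.tm).conf q0 F.tm.k₀ F.inputAlphabet.symm (encPair (x, w)) (n' + 0)).2 k := by
          have a1 := congrArg (fun c => c.2 k) e1
          have a0 := congrArg (fun c => c.2 k) e0
          exact a1.trans a0.symm
        rw [e2]
        have := hlen0 w hw (n' + 0) k
        omega
    have hacc : ∀ w : List Bool, w.length ≤ p.eval n1 →
        (ct (((machOf F.tm).conf q0 F.tm.k₀ F.inputAlphabet.symm (encPair (x, w)) (N + 1)).2 F.tm.k₁) 1 =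
          some (some (F.outputAlphabet.symm (some true))) ↔ V (x, w) = true) := by
      intro w hw
      obtain ⟨n', hn', h2⟩ := hrun w hw
      obtain ⟨s, hs⟩ : ∃ s, N + 1 = n' + s := ⟨N + 1 - n', by omega⟩
      have e1 := h2 s
      rw [← hs] at e1
      have a1 := congrArg (fun c => c.2 F.tm.k₁) e1
      have a2 : ((machOf F.tm).conf q0 F.tm.k₀ F.inputAlphabet.symm (encPair (x, w)) (N + 1)).2 F.tm.k₁ =
          (encBool (V (x, w))).map F.outputAlphabet.invFun := by
        refine Eq.trans a1 ?_
        change update (fun _ => []) F.tm.k₁ _ F.tm.k₁ = _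
        rw [update_self]
      rw [a2]
      constructor
      · intro h
        have h3 : some (some (F.outputAlphabet.symm (some (V (x, w))))) =
          some (some (F.outputAlphabet.symm (some true))) := h
        have h4 := F.outputAlphabet.symm.injective (Option.some.inj (Option.some.inj h3))
        exact Option.some.inj h4
      · intro h
        change some (some (F.outputAlphabet.symm (some (V (x, w))))) = _
        rw [h]
    have main := (machOf F.tm).solves_iff q0 F.tm.k₀ F.tm.k₁ F.inputAlphabet.symm
      (F.outputAlphabet.symm (some true)) x (p.eval n1) N hN0 hH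
    rw [hVL x]
    constructor
    · rintro ⟨w, hw⟩
      have hwl : w.length ≤ p.eval n1 := (hp x w hw).trans (eval_mono _ (by omega))
      exact main.2 ⟨w, hwl, (hacc w hwl).2 hw⟩
    · intro h
      obtain ⟨w, hwl, hw⟩ := main.1 h
      exact ⟨w, (hacc w hwl).1 hw⟩

end NPC
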