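import Pool.Agent.NPC.Cnf
import Pool.Agent.OddP.Encode

/-!
# The emitter program printing the instance of ODD-PATHS
-/

namespace NPC

open Function OddP OddP.Vx

/-- Polynomial expressions in the variables. -/
inductive PE
  | var (i : ℕ)
  | const (c : ℕ)
  | add (a b : PE)
  | mul (a b : PE)

namespace PE

/-- value -/
def val : PE → (ℕ → ℕ) → ℕ
  | var i, v => v i
  | const c, _ => c
  | add a b, v => a.val v + b.val v
  | mul a b, v => a.val v * b.val v

/-- all variables are `< n` -/
def bd : PE → ℕ → Prop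
  | var i, n => i < n
  | const _, _ => True
  | add a b, n => a.bd n ∧ b.bd n
  | mul a b, n => a.bd n ∧ b.bd n

/-- program printing the value in unary -/
def emit : PE → ℕ → Em
  | var i, _ => .loop i (.const [true])
  | const c, _ => .const (List.replicate c true)
  | add a b, n => .seq (a.emit n) (b.emit n)
  | mul a b, n => .lett (a.emit (n + 1)) (.loop n (b.emit (n + 2)))

theorem bd.mono {p : PE} {n m : ℕ} (h : p.bd n) (hm : n ≤ m) : p.bd m := by
  induction p with
  | var i => exact lt_of_lt_of_le h hm
  | const c => trivial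
  | add a b iha ihb => exact ⟨iha h.1, ihb h.2⟩
  | mul a b iha ihb => exact ⟨iha h.1, ihb h.2⟩

theorem val_update {p : PE} {n m : ℕ} (h : p.bd n) (hm : n ≤ m) (v : ℕ → ℕ) (k : ℕ) :
    p.val (update v m k) = p.val v := by
  induction p with
  | var i =>
    change update v m k i = v i
    rw [update_of_ne]
    have : i < n := h
    omega
  | const c => rfl
  | add a b iha ihb => simp only [val, iha h.1, ihb h.2]
  | mul a b iha ihb => simp only [val, iha h.1, ihb h.2]

theorem flatMap_replicate_const (k m : ℕ) :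
    (List.range k).flatMap (fun _ => List.replicate m true) = List.replicate (k * m) true := by
  induction k with
  | zero => simp
  | succ k ih =>
    rw [List.range_succ, List.flatMap_append, ih]
    simp only [List.flatMap_cons, List.flatMap_nil, List.append_nil]
    rw [← List.replicate_add]
    congr 1
    ring

theorem emit_eval (y : List Bool) (p : PE) : ∀ (n : ℕ) (v : ℕ → ℕ), p.bd n →
    (p.emit n).eval y n v = List.replicate (p.val v) true := by
  induction p with
  | var i =>
    intro n v h
    have := flatMap_replicate_const (v i) 1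
    rw [Nat.mul_one] at this
    exact this
  | const c => intro n v h; rfl
  | add a b iha ihb =>
    intro n v h
    simp only [emit, Em.eval, val]
    rw [iha n v h.1, ihb n v h.2, List.replicate_add]
  | mul a b iha ihb =>
    intro n v h
    simp only [emit, Em.eval, val]
    rw [iha (n + 1) v (h.1.mono (by omega)), List.length_replicate, update_self]
    have : ∀ i, (b.emit (n + 2)).eval y (n + 2) (update (update v n (a.val v)) (n + 1) i) =
        List.replicate (b.val v) true := by
      intro i
      rw [ihb (n + 2) _ (h.2.mono (by omega)), val_update h.2 (by omega),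
        val_update h.2 (by omega)]
    simp only [this]
    exact flatMap_replicate_const _ _

theorem exists_of_polynomial (P : Polynomial ℕ) :
    ∃ p : PE, p.bd 1 ∧ ∀ v, p.val v = P.eval (v 0) := by
  induction P using Polynomial.induction_on' with
  | add p q hp hq =>
    obtain ⟨a, ha, ha2⟩ := hp
    obtain ⟨b, hb, hb2⟩ := hq
    exact ⟨add a b, ⟨ha, hb⟩, fun v => by simp [val, ha2, hb2]⟩
  | monomial n c =>
    induction n with
    | zero => exact ⟨const c, trivial, fun v => by simp [val]⟩
    | succ n ih =>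
      obtain ⟨a, ha, ha2⟩ := ih
      refine ⟨mul a (var 0), ⟨ha, by simp [bd]⟩, fun v => ?_⟩
      simp only [val, ha2, Polynomial.eval_monomial]
      ring

end PE

open PE

/-- print a number -/
def emitNat (p : PE) (n : ℕ) : Em := .seq (p.emit n) (.const [false])

theorem emitNat_eval (y : List Bool) (p : PE) (n : ℕ) (v : ℕ → ℕ) (h : p.bd n) :
    (emitNat p n).eval y n v = encNat (p.val v) := by
  simp only [emitNat, Em.eval, PE.emit_eval y p n v h, encNat]

/-- run a list of programs -/
def seqs : List Em → Em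
  | [] => .const []
  | e :: l => .seq e (seqs l)

theorem seqs_eval (y : List Bool) (l : List Em) (n : ℕ) (v : ℕ → ℕ) :
    (seqs l).eval y n v = l.flatMap (fun e => e.eval y n v) := by
  induction l with
  | nil => rfl
  | cons e l ih => simp only [seqs, Em.eval, ih, List.flatMap_cons]

/-- Expressions for vertices. -/
inductive VE
  | A0 (x : PE)
  | A (x : PE)
  | B (x : PE)
  | S0 (c : PE)
  | S (c : PE)
  | T (c : PE)
  | P (x : PE) (b : Bool) (r : PE)

namespace VE

/-- the vertex -/
def toVx (v : ℕ → ℕ) : VE → Vx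
  | A0 x => .A0 (x.val v)
  | A x => .A (x.val v)
  | B x => .B (x.val v)
  | S0 x => .S0 (x.val v)
  | S x => .S (x.val v)
  | T x => .T (x.val v)
  | P x b r => .P (x.val v) b (r.val v)

/-- its number, the number of variables being the variable `8` and that of clauses the
variable `9` -/
def toPE : VE → PE
  | A0 x => x
  | A x => .add (.var 8) x
  | B x => .add (.mul (.const 2) (.var 8)) x
  | S0 c => .add (.mul (.const 3) (.var 8)) c
  | S c => .add (.add (.mul (.const 3) (.var 8)) (.var 9)) c
  | T c => .add (.add (.mul (.const 3) (.var 8)) (.mul (.const 2) (.var 9))) c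
  | P x b r => .add (.add (.mul (.const 3) (.var 8)) (.mul (.const 3) (.var 9)))
      (.add (.mul (.add (.mul (.const 2) x) (.const b.toNat))
        (.add (.mul (.const 2) (.var 9)) (.const 1))) r)

/-- all variables `< n` -/
def bd : VE → ℕ → Prop
  | A0 x, n => x.bd n
  | A x, n => x.bd n
  | B x, n => x.bd n
  | S0 x, n => x.bd n
  | S x, n => x.bd n
  | T x, n => x.bd n
  | P x _ r, n => x.bd n ∧ r.bd n

theorem toPE_val (v : ℕ → ℕ) (e : VE) : e.toPE.val v = num (v 8) (v 9) (e.toVx v) := by
  cases e <;> rfl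

theorem toPE_bd (e : VE) (n : ℕ) (h : e.bd n) (hn : 10 ≤ n) : e.toPE.bd n := by
  have h8 : 8 < n := by omega
  have h9 : 9 < n := by omega
  cases e <;> simp only [bd] at h <;> simp [toPE, PE.bd, h, h8, h9]

end VE

/-- the printed form of an edge -/
def encE (V M : ℕ) (p : Vx × Vx) : List Bool :=
  true :: (encNat (num V M p.1) ++ encNat (num V M p.2))

/-- print an edge -/
def emitE (n : ℕ) (p : VE × VE) : Em :=
  .seq (.const [true]) (.seq (emitNat p.1.toPE n) (emitNat p.2.toPE n))

theorem emitE_eval (y : List Bool) (n : ℕ) (v : ℕ → ℕ) (p : VE × VE) (h1 : p.1.bd n)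
    (h2 : p.2.bd n) (hn : 10 ≤ n) :
    (emitE n p).eval y n v = encE (v 8) (v 9) (p.1.toVx v, p.2.toVx v) := by
  simp only [emitE, Em.eval]
  rw [emitNat_eval y _ n v (p.1.toPE_bd n h1 hn), emitNat_eval y _ n v (p.2.toPE_bd n h2 hn),
    VE.toPE_val, VE.toPE_val]
  rfl

/-- print a list of edges -/
def emitEs (n : ℕ) (l : List (VE × VE)) : Em := seqs (l.map (emitE n))

theorem emitEs_eval (y : List Bool) (n : ℕ) (v : ℕ → ℕ) (l : List (VE × VE))
    (h : ∀ p ∈ l, p.1.bd n ∧ p.2.bd n) (hn : 10 ≤ n) :
    (emitEs n l).eval y n v =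
      (l.map (fun p => (p.1.toVx v, p.2.toVx v))).flatMap (encE (v 8) (v 9)) := by
  rw [emitEs, seqs_eval]
  induction l with
  | nil => rfl
  | cons p l ih =>
    simp only [List.map_cons, List.flatMap_cons]
    rw [emitE_eval y n v p (h p (by simp)).1 (h p (by simp)).2 hn,
      ih (fun q hq => h q (by simp [hq]))]

/-- The values of the first variables. -/
structure EnvOK (a n1 n3 N : ℕ) (v : ℕ → ℕ) : Prop where
  e0 : v 0 = n1
  e1 : v 1 = n1 + 1
  e2 : v 2 = n3
  e3 : v 3 = N
  e4 : v 4 = N + 1
  e5 : v 5 = N + 2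
  e6 : v 6 = 1
  e7 : v 7 = 2
  e8 : v 8 = nV a N
  e9 : v 9 = nM a N
  e10 : v 10 = 2 * nM a N

theorem EnvOK.upd {a n1 n3 N : ℕ} {v : ℕ → ℕ} (h : EnvOK a n1 n3 N v) (m k : ℕ) (hm : 11 ≤ m) :
    EnvOK a n1 n3 N (update v m k) := by
  have hu : ∀ j, j < 11 → update v m k j = v j := fun j hj => update_of_ne (by omega) _ _
  exact ⟨by rw [hu 0 (by omega), h.e0], by rw [hu 1 (by omega), h.e1],
    by rw [hu 2 (by omega), h.e2], by rw [hu 3 (by omega), h.e3], by rw [hu 4 (by omega), h.e4],
    by rw [hu 5 (by omega), h.e5], by rw [hu 6 (by omega), h.e6], by rw [hu 7 (by omega), h.e7],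
    by rw [hu 8 (by omega), h.e8], by rw [hu 9 (by omega), h.e9], by rw [hu 10 (by omega), h.e10]⟩

/-- part 1 of the edges -/
def part1 : Em := .loop 8 (emitEs 12
  [(.A0 (.var 11), .A (.var 11)), (.A (.var 11), .P (.var 11) false (.const 0)),
    (.A (.var 11), .P (.var 11) true (.const 0)),
    (.P (.var 11) false (.mul (.const 2) (.var 9)), .B (.var 11)),
    (.P (.var 11) true (.mul (.const 2) (.var 9)), .B (.var 11))])

theorem part1_eval (y : List Bool) {a n1 n3 N : ℕ} {v : ℕ → ℕ} (h : EnvOK a n1 n3 N v) :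
    part1.eval y 11 v = ((List.range (nV a N)).flatMap (edA (nM a N))).flatMap
      (encE (nV a N) (nM a N)) := by
  rw [List.flatMap_assoc]
  simp only [part1, Em.eval, h.e8]
  congr 1
  funext x
  have h' := h.upd 11 x le_rfl
  rw [emitEs_eval y 12 _ _ (by simp [VE.bd, PE.bd]) (by omega), h'.e8, h'.e9]
  simp only [List.map_cons, List.map_nil, VE.toVx, PE.val, update_self, h'.e9]
  rfl

/-- part 2 of the edges -/
def part2 : Em := .loop 8 (.loop 10 (emitEs 13
  [(.P (.var 11) false (.var 12), .P (.var 11) false (.add (.var 12) (.const 1))),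
    (.P (.var 11) true (.var 12), .P (.var 11) true (.add (.var 12) (.const 1)))]))

theorem part2_eval (y : List Bool) {a n1 n3 N : ℕ} {v : ℕ → ℕ} (h : EnvOK a n1 n3 N v) :
    part2.eval y 11 v = ((List.range (nV a N)).flatMap (edP (nM a N))).flatMap
      (encE (nV a N) (nM a N)) := by
  rw [List.flatMap_assoc]
  simp only [part2, Em.eval, h.e8]
  congr 1
  funext x
  have h' := h.upd 11 x le_rfl
  rw [edP, List.flatMap_assoc, h'.e10]
  congr 1
  funext r
  have h'' := h'.upd 12 r (by omega)
  rw [emitEs_eval y 13 _ _ (by simp [VE.bd, PE.bd]) (by omega), h''.e8, h''.e9]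
  have e11 : update (update v 11 x) 12 r 11 = x := by
    rw [update_of_ne (by omega), update_self]
  simp only [List.map_cons, List.map_nil, VE.toVx, PE.val, update_self, e11]

/-- the index of the clause `j` of the cell `(t, i)` -/
def cidx (a j : ℕ) : PE :=
  .add (.mul (.add (.mul (.var 11) (.var 5)) (.var 12)) (.const (mcl a))) (.const j)

/-- the index of the variable of a local literal -/
def xidx (a : ℕ) (l : LLit) : PE :=
  .add (.mul (.add (.mul (.add (.var 11) (.const l.1.1)) (.var 5))
    (.add (.var 12) (.const l.1.2))) (.const a)) (.const l.2.1)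

/-- the edges of a clause -/
def clauseVE (a j : ℕ) (C : List LLit) : List (VE × VE) :=
  (.S0 (cidx a j), .S (cidx a j)) :: C.flatMap (fun l =>
    [(.S (cidx a j), .P (xidx a l) l.2.2 (.add (.mul (.const 2) (cidx a j)) (.const 1))),
      (.P (xidx a l) l.2.2 (.add (.mul (.const 2) (cidx a j)) (.const 1)), .T (cidx a j))])

/-- the edges of the clauses of a cell -/
def cellEm (a : ℕ) (Cs : List (List LLit)) : Em :=
  seqs ((List.range (mcl a)).map (fun j => emitEs 13 (clauseVE a j (Cs.getD j []))))

theorem clauseVE_map (a j N t i : ℕ) (C : List LLit) (v : ℕ → ℕ) (h5 : v 5 = N + 2)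
    (h11 : v 11 = t) (h12 : v 12 = i) :
    (clauseVE a j C).map (fun p => (p.1.toVx v, p.2.toVx v)) =
      edC ((t * (N + 2) + i) * mcl a + j) (C.map (glob a (N + 2) t i)) := by
  have hc : (cidx a j).val v = (t * (N + 2) + i) * mcl a + j := by
    simp only [cidx, PE.val, h5, h11, h12]
  have hx : ∀ l, (xidx a l).val v = ((t + l.1.1) * (N + 2) + (i + l.1.2)) * a + l.2.1 := by
    intro l
    simp only [xidx, PE.val, h5, h11, h12]
  simp only [clauseVE, edC, List.map_cons, VE.toVx, hc]
  congr 1
  induction C with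
  | nil => rfl
  | cons l C ih =>
    simp only [List.flatMap_cons, List.map_append, List.map_cons, List.map_nil, ih, VE.toVx, hc,
      hx, PE.val, glob]

theorem cellEm_eval (y : List Bool) {a n1 n3 N : ℕ} {v : ℕ → ℕ} (h : EnvOK a n1 n3 N v)
    (t i : ℕ) (h11 : v 11 = t) (h12 : v 12 = i) (Cs : List (List LLit)) :
    (cellEm a Cs).eval y 13 v = (List.range (mcl a)).flatMap (fun j =>
      (edC ((t * (N + 2) + i) * mcl a + j) ((Cs.getD j []).map (glob a (N + 2) t i))).flatMap
        (encE (nV a N) (nM a N))) := by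
  rw [cellEm, seqs_eval, List.flatMap_map]
  congr 1
  funext j
  rw [emitEs_eval y 13 v _ ?_ (by omega), h.e8, h.e9, clauseVE_map a j N t i _ v h.e5 h11 h12]
  intro p hp
  simp only [clauseVE, List.mem_cons, List.mem_flatMap, List.not_mem_nil, or_false] at hp
  rcases hp with rfl | ⟨l, hl, rfl | rfl⟩ <;> simp [VE.bd, PE.bd, cidx, xidx]

/-- the case distinction according to the class of the cell `(v 11, v 12)` -/
def clsEm (k : Cl → Em) : Em :=
  .ifLt 12 6 (.ifLt 11 6 (k .c00) (.ifLt 11 4 (k .cL) (k .cLl)))
    (.ifLt 12 3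
      (.ifLt 11 6
        (.ifLt 12 0 (.ifBit 12 (k .r1) (k .r0))
          (.ifLt 12 1 (k .rsep) (.ifLt 12 2 (k .rw) (k .rblank))))
        (.ifLt 11 4 (k .mid) (.ifLt 12 7 (k .acc) (k .top))))
      (k .cR))

theorem clsEm_eval (y : List Bool) {a n1 n3 N : ℕ} {v : ℕ → ℕ} (h : EnvOK a n1 n3 N v)
    (t i : ℕ) (h11 : v 11 = t) (h12 : v 12 = i) (k : Cl → Em) :
    (clsEm k).eval y 13 v = (k (cls n1 n3 N y t i)).eval y 13 v := by
  simp only [clsEm, Em.eval, h.e0, h.e1, h.e2, h.e3, h.e4, h.e6, h.e7, h11, h12, cls]
  by_cases c1 : i < 1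
  · simp only [if_pos c1]
    by_cases c2 : t < 1
    · simp only [if_pos c2]
    · simp only [if_neg c2]
      by_cases c3 : t < N + 1
      · simp only [if_pos c3]
      · simp only [if_neg c3]
  · simp only [if_neg c1]
    by_cases c2 : i < N
    · simp only [if_pos c2]
      by_cases c3 : t < 1
      · simp only [if_pos c3]
        by_cases c4 : i < n1
        · simp only [if_pos c4]
          by_cases c5 : y[i]? = some true
          · simp only [if_pos c5]
          · simp only [if_neg c5]
        · simp only [if_neg c4]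
          by_cases c5 : i < n1 + 1
          · simp only [if_pos c5]
          · simp only [if_neg c5]
            by_cases c6 : i < n3
            · simp only [if_pos c6]
            · simp only [if_neg c6]
      · simp only [if_neg c3]
        by_cases c4 : t < N + 1
        · simp only [if_pos c4]
        · simp only [if_neg c4]
          by_cases c5 : i < 2
          · simp only [if_pos c5]
          · simp only [if_neg c5]
    · simp only [if_neg c2]

/-- part 3 of the edges -/
noncomputable def part3 (a : ℕ) (al : Cl → ℕ → Prop) (Wr : ℕ → ℕ → ℕ → ℕ → Prop) : Em :=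
  .loop 5 (.loop 5 (clsEm (fun c => cellEm a (cellClauses a al Wr c))))

theorem range_mul_flatMap {β : Type} (A B : ℕ) (f : ℕ → List β) :
    (List.range (A * B)).flatMap f =
      (List.range A).flatMap (fun i => (List.range B).flatMap (fun j => f (i * B + j))) := by
  induction A with
  | zero => simp
  | succ A ih =>
    rw [Nat.succ_mul, List.range_add, List.flatMap_append, ih, List.range_succ, List.flatMap_append]
    congr 1
    rw [List.flatMap_map]
    simp

theorem flatMap_congr' {α β : Type} {l : List α} {f g : α → List β} (h : ∀ a ∈ l, f a = g a) :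
    l.flatMap f = l.flatMap g := by
  induction l with
  | nil => rfl
  | cons a l ih =>
    rw [List.flatMap_cons, List.flatMap_cons, h a (by simp), ih (fun b hb => h b (by simp [hb]))]

theorem part3_eval (y : List Bool) {a n1 n3 N : ℕ} {v : ℕ → ℕ} (h : EnvOK a n1 n3 N v)
    (al : Cl → ℕ → Prop) (Wr : ℕ → ℕ → ℕ → ℕ → Prop) :
    (part3 a al Wr).eval y 11 v =
      ((List.range (nM a N)).flatMap (fun c => edC c (clauses a al Wr n1 n3 N y c))).flatMap
        (encE (nV a N) (nM a N)) := by
  rw [List.flatMap_assoc, nM, range_mul_flatMap, range_mul_flatMap]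
  simp only [part3, Em.eval, h.e5]
  apply flatMap_congr'
  intro t ht
  have h' := h.upd 11 t le_rfl
  rw [h'.e5]
  apply flatMap_congr'
  intro i hi
  have h'' := h'.upd 12 i (by omega)
  have e11 : update (update v 11 t) 12 i 11 = t := by
    rw [update_of_ne (by omega), update_self]
  rw [clsEm_eval y h'' t i e11 (update_self _ _ _),
    cellEm_eval y h'' t i e11 (update_self _ _ _)]
  apply flatMap_congr'
  intro j hj
  rw [clauses_eq a al Wr n1 n3 N y t i j (List.mem_range.1 hi) (List.mem_range.1 hj)]
  rfl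

/-- print a list of vertices indexed by a variable -/
def emitV (b : ℕ) (f : PE → VE) : Em :=
  .loop b (.seq (.const [true]) (emitNat (f (.var 11)).toPE 12))

/-- the number of vertices -/
def nPE : PE := .add (.add (.mul (.const 3) (.var 8)) (.mul (.const 3) (.var 9)))
  (.mul (.mul (.const 2) (.var 8)) (.add (.mul (.const 2) (.var 9)) (.const 1)))

/-- the whole body -/
noncomputable def body (a : ℕ) (al : Cl → ℕ → Prop) (Wr : ℕ → ℕ → ℕ → ℕ → Prop) : Em :=
  .seq (emitNat nPE 11) (.seq (emitNat (.add (.var 8) (.var 9)) 11)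
    (.seq (.seq (.seq part1 (.seq part2 (part3 a al Wr))) (.const [false]))
      (.seq (.seq (.seq (emitV 8 .A0) (emitV 9 .S0)) (.const [false]))
        (.seq (.seq (emitV 8 .B) (emitV 9 .T)) (.const [false])))))

theorem body_eval (y : List Bool) {a n1 n3 N : ℕ} {v : ℕ → ℕ} (h : EnvOK a n1 n3 N v)
    (al : Cl → ℕ → Prop) (Wr : ℕ → ℕ → ℕ → ℕ → Prop) :
    (body a al Wr).eval y 11 v =
      (numInst (nV a N) (nM a N) (clauses a al Wr n1 n3 N y)).encode := by
  simp only [body, Em.eval]
  rw [emitNat_eval y nPE 11 v (by simp [nPE, PE.bd]), emitNat_eval y _ 11 v (by simp [PE.bd]),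
    part1_eval y h, part2_eval y h, part3_eval y h]
  have hv : ∀ (b m : ℕ) (hb : v b = m) (f : PE → VE) (g : ℕ → Vx)
      (hf : ∀ w : ℕ → ℕ, ∀ p : PE, (f p).toVx w = g (p.val w)) (hbd : (f (.var 11)).bd 12),
      (emitV b f).eval y 11 v = (List.range m).flatMap (fun x =>
        true :: encNat (num (nV a N) (nM a N) (g x))) := by
    intro b m hb f g hf hbd
    simp only [emitV, Em.eval, hb]
    congr 1
    funext x
    rw [emitNat_eval y _ 12 _ ((f (.var 11)).toPE_bd 12 hbd (by omega)), VE.toPE_val, hf]
    have h' := h.upd 11 x le_rfl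
    rw [h'.e8, h'.e9]
    simp only [PE.val, update_self]
    rfl
  rw [hv 8 _ h.e8 .A0 Vx.A0 (fun _ _ => rfl) (by simp [VE.bd, PE.bd]),
    hv 9 _ h.e9 .S0 Vx.S0 (fun _ _ => rfl) (by simp [VE.bd, PE.bd]),
    hv 8 _ h.e8 .B Vx.B (fun _ _ => rfl) (by simp [VE.bd, PE.bd]),
    hv 9 _ h.e9 .T Vx.T (fun _ _ => rfl) (by simp [VE.bd, PE.bd])]
  have e1 : nPE.val v = nVert (nV a N) (nM a N) := by
    simp only [nPE, PE.val, h.e8, h.e9, nVert]
  have e2 : (PE.add (.var 8) (.var 9)).val v = nV a N + nM a N := by
    simp only [PE.val, h.e8, h.e9]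
  rw [e1, e2]
  unfold Instance.encode
  simp only [numInst, Inst.map, satInst, encList]
  congr 1
  congr 1
  congr 1
  · congr 1
    rw [List.flatMap_map, List.flatMap_append, List.flatMap_append]
    rfl
  · congr 1
    · congr 1
      rw [List.map_append, List.flatMap_append, List.map_map, List.map_map, List.flatMap_map,
        List.flatMap_map]
      rfl
    · congr 1
      rw [List.map_append, List.flatMap_append, List.map_map, List.map_map, List.flatMap_map,
        List.flatMap_map]
      rfl

end NPC
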