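import Pool.Agent.NPC.Defs

/-!
# A small structured language compiled to Mathlib's multi-stack machines `Turing.TM2`
-/

namespace NPC

open Turing

/-- The internal register: last popped symbol (`none` if the stack was empty), and a flag. -/
abbrev Reg := Option Sym × Bool

/-- Structured programs over stacks named by `K`. -/
inductive Prog (K : Type) : Type
  /-- push a symbol computed from the register -/
  | push (k : K) (f : Reg → Sym)
  /-- pop the stack into the register -/
  | pop (k : K)
  /-- modify the register -/
  | load (f : Reg → Reg)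
  | seq (p q : Prog K)
  | ite (f : Reg → Bool) (p q : Prog K)
  /-- while the stack is nonempty: pop it into the register and run the body -/
  | whil (k : K) (p : Prog K)

variable {K : Type} [DecidableEq K]

/-- The contents of the stacks. -/
abbrev Stk (K : Type) := K → List Sym

/-- Big-step semantics with cost. -/
inductive Run : Prog K → Reg → Stk K → Reg → Stk K → ℕ → Prop
  | push (k f r S) : Run (.push k f) r S r (Function.update S k (f r :: S k)) 1
  | pop (k r S) : Run (.pop k) r S ((S k).head?, r.2) (Function.update S k (S k).tail) 1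
  | load (f r S) : Run (.load f) r S (f r) S 1
  | seq {p q r S r' S' r'' S'' m n} : Run p r S r' S' m → Run q r' S' r'' S'' n →
      Run (.seq p q) r S r'' S'' (m + n)
  | iteT {f p q r S r' S' n} : f r = true → Run p r S r' S' n → Run (.ite f p q) r S r' S' (n + 1)
  | iteF {f p q r S r' S' n} : f r = false → Run q r S r' S' n → Run (.ite f p q) r S r' S' (n + 1)
  | whilE {k p r S} : S k = [] → Run (.whil k p) r S (none, r.2) S 1
  | whilS {k p r S a l r' S' r'' S'' m n} : S k = a :: l →
      Run p (some a, r.2) (Function.update S k l) r' S' m →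
      Run (.whil k p) r' S' r'' S'' n → Run (.whil k p) r S r'' S'' (m + n + 1)

namespace Prog

/-- The labels of a program. -/
def Lab : Prog K → Type
  | .push _ _ => Unit
  | .pop _ => Unit
  | .load _ => Unit
  | .seq p q => Lab p ⊕ Lab q
  | .ite _ p q => Unit ⊕ (Lab p ⊕ Lab q)
  | .whil _ p => Unit ⊕ Lab p

/-- The entry label. -/
def entry : (p : Prog K) → p.Lab
  | .push _ _ => ()
  | .pop _ => ()
  | .load _ => ()
  | .seq p _ => Sum.inl p.entry
  | .ite _ _ _ => Sum.inl ()
  | .whil _ _ => Sum.inl ()

/-- Finitely many labels. -/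
@[instance_reducible]
def labFin : (p : Prog K) → Fintype p.Lab
  | .push _ _ => inferInstanceAs (Fintype Unit)
  | .pop _ => inferInstanceAs (Fintype Unit)
  | .load _ => inferInstanceAs (Fintype Unit)
  | .seq p q => @instFintypeSum _ _ p.labFin q.labFin
  | .ite _ p q => @instFintypeSum _ _ (inferInstanceAs (Fintype Unit))
      (@instFintypeSum _ _ p.labFin q.labFin)
  | .whil _ p => @instFintypeSum _ _ (inferInstanceAs (Fintype Unit)) p.labFin

instance (p : Prog K) : Fintype p.Lab := p.labFin

/-- The code of a program placed in a machine with labels `Λ`. -/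
def code {Λ : Type} : (p : Prog K) → (inj : p.Lab → Λ) → (ex : Λ) → p.Lab →
    TM2.Stmt (fun _ : K => Sym) Λ Reg
  | .push k f, _, ex, _ => .push k f (.goto fun _ => ex)
  | .pop k, _, ex, _ => .pop k (fun v o => (o, v.2)) (.goto fun _ => ex)
  | .load f, _, ex, _ => .load f (.goto fun _ => ex)
  | .seq p q, inj, _, .inl l => p.code (fun l => inj (.inl l)) (inj (.inr q.entry)) l
  | .seq _ q, inj, ex, .inr l => q.code (fun l => inj (.inr l)) ex l
  | .ite f p q, inj, _, .inl _ => .branch f (.goto fun _ => inj (.inr (.inl p.entry)))
      (.goto fun _ => inj (.inr (.inr q.entry)))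
  | .ite _ p _, inj, ex, .inr (.inl l) => p.code (fun l => inj (.inr (.inl l))) ex l
  | .ite _ _ q, inj, ex, .inr (.inr l) => q.code (fun l => inj (.inr (.inr l))) ex l
  | .whil k p, inj, ex, .inl _ => .pop k (fun v o => (o, v.2))
      (.branch (fun v => v.1.isSome) (.goto fun _ => inj (.inr p.entry)) (.goto fun _ => ex))
  | .whil _ p, inj, _, .inr l => p.code (fun l => inj (.inr l)) (inj (.inl ())) l

end Prog

/-- `n` steps of a machine lead from `c` to `c'`. -/
def Steps {C : Type} (f : C → Option C) (n : ℕ) (c c' : C) : Prop :=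
  (flip bind f)^[n] (some c) = some c'

theorem Steps.refl {C : Type} (f : C → Option C) (c : C) : Steps f 0 c c := rfl

theorem Steps.trans {C : Type} {f : C → Option C} {m n : ℕ} {a b c : C} (h1 : Steps f m a b)
    (h2 : Steps f n b c) : Steps f (m + n) a c := by
  unfold Steps at *
  rw [Nat.add_comm, Function.iterate_add_apply, h1, h2]

theorem Steps.one {C : Type} {f : C → Option C} {a b : C} (h : f a = some b) : Steps f 1 a b := by
  unfold Steps
  simpa [flip] using h

theorem run_steps {Λ : Type} (M : Λ → TM2.Stmt (fun _ : K => Sym) Λ Reg) {p : Prog K} {r S r' S' n}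
    (h : Run p r S r' S' n) : ∀ (inj : p.Lab → Λ) (ex : Λ), (∀ l, M (inj l) = p.code inj ex l) →
      Steps (TM2.step M) n ⟨some (inj p.entry), r, S⟩ ⟨some ex, r', S'⟩ := by
  induction h with
  | push k f r S =>
    intro inj ex hM
    apply Steps.one
    rw [TM2.step, hM]
    simp [Prog.code]
  | pop k r S =>
    intro inj ex hM
    apply Steps.one
    rw [TM2.step, hM]
    simp [Prog.code]
  | load f r S =>
    intro inj ex hM
    apply Steps.one
    rw [TM2.step, hM]
    simp [Prog.code]
  | seq h1 h2 ih1 ih2 =>
    rename_i p q r S r' S' r'' S'' m n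
    intro inj ex hM
    exact Steps.trans (ih1 (fun l => inj (.inl l)) (inj (.inr q.entry)) (fun l => hM (.inl l)))
      (ih2 (fun l => inj (.inr l)) ex (fun l => hM (.inr l)))
  | iteT hf h ih =>
    rename_i f p q r S r' S' n
    intro inj ex hM
    rw [Nat.add_comm]
    refine Steps.trans (b := ⟨some (inj (.inr (.inl p.entry))), r, S⟩) (Steps.one ?_)
      (ih (fun l => inj (.inr (.inl l))) ex (fun l => hM (.inr (.inl l))))
    rw [TM2.step, hM]
    simp [Prog.code, Prog.entry, hf]
  | iteF hf h ih =>
    rename_i f p q r S r' S' n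
    intro inj ex hM
    rw [Nat.add_comm]
    refine Steps.trans (b := ⟨some (inj (.inr (.inr q.entry))), r, S⟩) (Steps.one ?_)
      (ih (fun l => inj (.inr (.inr l))) ex (fun l => hM (.inr (.inr l))))
    rw [TM2.step, hM]
    simp [Prog.code, Prog.entry, hf]
  | whilE hk =>
    rename_i k p r S
    intro inj ex hM
    apply Steps.one
    rw [TM2.step, hM]
    have : Function.update S k [] = S := by
      rw [← hk]; exact Function.update_eq_self k S
    simp [Prog.code, Prog.entry, hk, this]
  | whilS hk h1 h2 ih1 ih2 =>
    rename_i k p r S a l r' S' r'' S'' m n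
    intro inj ex hM
    rw [Nat.add_comm]
    refine Steps.trans (b := ⟨some (inj (.inr p.entry)), (some a, r.2), Function.update S k l⟩)
      (Steps.one ?_) (Steps.trans (ih1 (fun l => inj (.inr l)) (inj (.inl ()))
        (fun l => hM (.inr l))) (ih2 inj ex hM))
    rw [TM2.step, hM]
    simp [Prog.code, Prog.entry, hk]

/-! ## Restriction to finitely many stacks -/

namespace Prog

/-- The stacks used by a program. -/
def keys : Prog K → Finset K
  | .push k _ => {k}
  | .pop k => {k}
  | .load _ => ∅
  | .seq p q => p.keys ∪ q.keys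
  | .ite _ p q => p.keys ∪ q.keys
  | .whil k p => insert k p.keys

/-- The same program on the stacks in `F`. -/
def restrict (F : Finset K) : (p : Prog K) → p.keys ⊆ F → Prog F
  | .push k f, h => .push ⟨k, h (by simp [keys])⟩ f
  | .pop k, h => .pop ⟨k, h (by simp [keys])⟩
  | .load f, _ => .load f
  | .seq p q, h => .seq (p.restrict F (fun _ hx => h (by simp [keys, hx])))
      (q.restrict F (fun _ hx => h (by simp [keys, hx])))
  | .ite f p q, h => .ite f (p.restrict F (fun _ hx => h (by simp [keys, hx])))
      (q.restrict F (fun _ hx => h (by simp [keys, hx])))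
  | .whil k p, h => .whil ⟨k, h (by simp [keys])⟩ (p.restrict F (fun _ hx => h (by simp [keys, hx])))

end Prog

theorem update_restrict {F : Finset K} (S : Stk K) (k : K) (hk : k ∈ F) (l : List Sym) :
    (fun j : F => Function.update S k l j) = Function.update (fun j : F => S j) ⟨k, hk⟩ l := by
  funext j
  by_cases h : (j : K) = k
  · subst h
    simp
  · rw [Function.update_of_ne h, Function.update_of_ne]
    intro h'
    exact h (by rw [h'])

theorem Run.restrict {F : Finset K} {p : Prog K} {r S r' S' n} (h : Run p r S r' S' n) :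
    ∀ hp : p.keys ⊆ F, Run (p.restrict F hp) r (fun j => S j) r' (fun j => S' j) n := by
  induction h with
  | push k f r S =>
    intro hp
    rw [update_restrict S k (hp (by simp [Prog.keys]))]
    exact Run.push _ f r _
  | pop k r S =>
    intro hp
    rw [update_restrict S k (hp (by simp [Prog.keys]))]
    exact Run.pop (⟨k, hp (by simp [Prog.keys])⟩ : F) r (fun j => S j)
  | load f r S => intro hp; exact Run.load _ _ _
  | seq h1 h2 ih1 ih2 => intro hp; exact Run.seq (ih1 _) (ih2 _)
  | iteT hf h ih => intro hp; exact Run.iteT hf (ih _)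
  | iteF hf h ih => intro hp; exact Run.iteF hf (ih _)
  | whilE hk => intro hp; exact Run.whilE hk
  | whilS hk h1 h2 ih1 ih2 =>
    rename_i k p r S a l r' S' r'' S'' m n
    intro hp
    refine Run.whilS (a := a) (l := l) hk ?_ (ih2 hp)
    have := ih1 (fun _ hx => hp (by simp [Prog.keys, hx]))
    rw [update_restrict S k (hp (by simp [Prog.keys]))] at this
    exact this

end NPC
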