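import Pool.Agent.NPC.Classes

/-!
# Multi-stack machines and their tableaux
-/

namespace NPC

open Function

/-- Operations on a stack. -/
inductive Op (A : Type)
  | keep
  | push (a : A)
  | pop

/-- Application of an operation. -/
def Op.app {A : Type} : Op A → List A → List A
  | .keep, l => l
  | .push a, l => a :: l
  | .pop, l => l.tail

/-- An abstract multi-stack machine: one operation on each stack per step, depending on the state
and the tops of the stacks. -/
structure Mach where
  Q : Type
  K : Type
  Γ : K → Type
  ctl : Q → (∀ k, Option (Γ k)) → Q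
  op : Q → (∀ k, Option (Γ k)) → ∀ k, Op (Γ k)

namespace Mach

variable (M : Mach)

/-- configurations -/
abbrev Cf := M.Q × (∀ k, List (M.Γ k))

/-- tops of the stacks -/
def heads (S : ∀ k, List (M.Γ k)) : ∀ k, Option (M.Γ k) := fun k => (S k).head?

/-- one step -/
def step (c : M.Cf) : M.Cf :=
  (M.ctl c.1 (M.heads c.2), fun k => (M.op c.1 (M.heads c.2) k).app (c.2 k))

/-- the cells of the tableau: state, tops of the stacks, and the contents at this position -/
abbrev Cell := (M.Q × (∀ k, Option (M.Γ k))) × (∀ k, Option (Option (M.Γ k)))

end Mach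

/-- The content of position `i` of a stack (position `0` is a bottom marker). -/
def ct {A : Type} (s : List A) (i : ℕ) : Option (Option A) := (none :: s.reverse.map some)[i]?

theorem ct_zero {A : Type} (s : List A) : ct s 0 = some none := rfl

theorem ct_succ {A : Type} (s : List A) (i : ℕ) : ct s (i + 1) = (s.reverse[i]?).map some := by
  rw [ct, List.getElem?_cons_succ, List.getElem?_map]

theorem ct_eq_none {A : Type} (s : List A) (i : ℕ) : ct s i = none ↔ s.length < i := by
  rw [ct, List.getElem?_eq_none_iff]
  simp [Nat.succ_le_iff]

theorem ct_top {A : Type} (s : List A) : ct s s.length = some s.head? := by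
  rcases s with _ | ⟨a, t⟩
  · rfl
  · rw [List.length_cons, ct_succ, List.reverse_cons, List.getElem?_append_right (by simp)]
    simp

theorem ct_cons {A : Type} (a : A) (s : List A) (i : ℕ) :
    ct (a :: s) i = if i = s.length + 1 then some (some a) else ct s i := by
  rcases i with _ | i
  · simp [ct_zero]
  · rw [ct_succ, ct_succ, List.reverse_cons]
    by_cases h : i = s.length
    · subst h
      rw [List.getElem?_append_right (by simp)]
      simp
    · rw [if_neg (by omega)]
      rcases Nat.lt_or_ge i s.length with h1 | h1
      · rw [List.getElem?_append_left (by simpa using h1)]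
      · rw [List.getElem?_eq_none (by simp; omega), List.getElem?_eq_none (by simp; omega)]

/-- the rule for the contents -/
def rule {A : Type} : Op A → Option (Option A) → Option (Option A) → Option (Option A) →
    Option (Option A)
  | .keep, _, b, _ => b
  | .push x, none, none, _ => none
  | .push x, some _, none, _ => some (some x)
  | .push _, _, some b, _ => some b
  | .pop, _, b, some _ => b
  | .pop, _, some none, none => some none
  | .pop, _, _, none => none

theorem ct_app {A : Type} (o : Op A) (s : List A) (i : ℕ) :
    ct (o.app s) (i + 1) = rule o (ct s i) (ct s (i + 1)) (ct s (i + 2)) := by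
  rcases o with _ | a | _
  · rfl
  · rw [Op.app, ct_cons]
    split_ifs with h
    · have h1 : ct s (i + 1) = none := (ct_eq_none _ _).2 (by omega)
      have h2 : ∃ b, ct s i = some b := by
        rw [← Option.ne_none_iff_exists', ne_eq, ct_eq_none]; omega
      obtain ⟨b, hb⟩ := h2
      rw [h1, hb]
      rfl
    · rcases h1 : ct s (i + 1) with _ | b
      · have h2 : s.length < i + 1 := (ct_eq_none _ _).1 h1
        have h3 : ct s i = none := (ct_eq_none _ _).2 (by omega)
        rw [h3]; rfl
      · rcases ct s i with _ | c <;> rfl
  · rw [Op.app]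
    rcases s with _ | ⟨a, t⟩
    · have h1 : ct ([] : List A) (i + 1) = none := (ct_eq_none _ _).2 (by simp)
      have h2 : ct ([] : List A) (i + 2) = none := (ct_eq_none _ _).2 (by simp)
      rw [List.tail_nil, h1, h2]
      rcases ct ([] : List A) i with _ | c <;> rfl
    · rw [List.tail_cons]
      rcases h2 : ct (a :: t) (i + 2) with _ | b
      · have h3 : (a :: t).length < i + 2 := (ct_eq_none _ _).1 h2
        rw [List.length_cons] at h3
        have h4 : ct t (i + 1) = none := (ct_eq_none _ _).2 (by omega)
        rw [h4]
        rcases h5 : ct (a :: t) (i + 1) with _ | _ | b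
        · rfl
        · exfalso
          rw [ct_succ] at h5
          simp at h5
        · rfl
      · have h3 : ¬ (a :: t).length < i + 2 := by
          intro h
          rw [(ct_eq_none _ _).2 h] at h2
          simp at h2
        rw [List.length_cons] at h3
        rw [ct_cons a t (i + 1), if_neg (by omega)]
        rcases h5 : ct t (i + 1) with _ | _ | b
        · have := (ct_eq_none _ _).1 h5
          omega
        · rfl
        · rfl

/-- Classes of the cells of the tableau. -/
inductive Cl
  | c00 | cL | cLl | r0 | r1 | rsep | rw | rblank | mid | acc | top | cR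
  deriving DecidableEq

/-- The class of the cell `(t, i)`; `n1 = |x| + 1`, `n3 - 1` is the maximal number of input symbols,
`N + 2` is the size of the tableau, `y` is the reversed input with a dummy bit. -/
def cls (n1 n3 N : ℕ) (y : List Bool) (t i : ℕ) : Cl :=
  if i < 1 then (if t < 1 then .c00 else if t < N + 1 then .cL else .cLl)
  else if i < N then
    (if t < 1 then
      (if i < n1 then (if y[i]? = some true then .r1 else .r0)
        else if i < n1 + 1 then .rsep
        else if i < n3 then .rw
        else .rblank)
      else if t < N + 1 then .mid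
      else if i < 2 then .acc else .top)
  else .cR

/-- Is the window anchored at a cell of this class constrained? -/
def Cl.win : Cl → Bool
  | .cLl | .acc | .top | .cR => false
  | _ => true

namespace Mach

variable (M : Mach) (q0 : M.Q) (k₀ k₁ : M.K) (sy : Sym → M.Γ k₀) (ac : M.Γ k₁)

/-- all contents except that of `k₀` are blank, in the initial state -/
def Init (s : M.Cell) : Prop := s.1.1 = q0 ∧ ∀ k, k ≠ k₀ → s.2 k = none

/-- allowed cells in each class -/
def allow : Cl → M.Cell → Prop
  | .c00, s => s.1.1 = q0 ∧ ∀ k, s.2 k = some none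
  | .cL, s => ∀ k, s.2 k = some none
  | .cLl, s => ∀ k, s.2 k = some none
  | .r0, s => M.Init q0 k₀ s ∧ s.2 k₀ = some (some (sy (some false)))
  | .r1, s => M.Init q0 k₀ s ∧ s.2 k₀ = some (some (sy (some true)))
  | .rsep, s => M.Init q0 k₀ s ∧ s.2 k₀ = some (some (sy none))
  | .rw, s => M.Init q0 k₀ s ∧ (s.2 k₀ = none ∨ ∃ b : Bool, s.2 k₀ = some (some (sy (some b))))
  | .rblank, s => M.Init q0 k₀ s ∧ s.2 k₀ = none
  | .mid, _ => True
  | .acc, s => s.2 k₁ = some (some ac)
  | .top, _ => True
  | .cR, s => ∀ k, s.2 k = none

/-- the window relation -/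
def W (a b c d : M.Cell) : Prop :=
  a.1 = b.1 ∧ d.1.1 = M.ctl b.1.1 b.1.2 ∧
  (∀ k, a.2 k ≠ none → b.2 k = none → a.2 k = some (b.1.2 k)) ∧
  (∀ k, b.2 k = none → c.2 k = none) ∧
  ∀ k, d.2 k = rule (M.op b.1.1 b.1.2 k) (a.2 k) (b.2 k) (c.2 k)

/-- `z` is a correct tableau. -/
def Solves (n1 n3 N : ℕ) (y : List Bool) (z : ℕ → ℕ → M.Cell) : Prop :=
  ∀ t < N + 2, ∀ i < N + 2, M.allow q0 k₀ k₁ sy ac (cls n1 n3 N y t i) (z t i) ∧
    ((cls n1 n3 N y t i).win = true → M.W (z t i) (z t (i + 1)) (z t (i + 2)) (z (t + 1) (i + 1)))

/-- the initial configuration -/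
def initc [DecidableEq M.K] (s : List Sym) : M.Cf := (q0, update (fun _ => []) k₀ (s.map sy))

/-- the configuration at time `t` -/
def conf [DecidableEq M.K] (s : List Sym) (t : ℕ) : M.Cf := M.step^[t] (M.initc q0 k₀ sy s)

theorem conf_succ [DecidableEq M.K] (s : List Sym) (t : ℕ) :
    M.conf q0 k₀ sy s (t + 1) = M.step (M.conf q0 k₀ sy s t) := by
  rw [conf, conf, iterate_succ_apply']

end Mach

/-- the reversed input string -/
theorem encPair_reverse (x w : List Bool) :
    (encPair (x, w)).reverse = x.reverse.map some ++ none :: w.reverse.map some := by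
  simp [encPair, List.map_reverse]

theorem ct_input {A : Type} (sy : Sym → A) (x w : List Bool) (i : ℕ) :
    ct ((encPair (x, w)).map sy) (i + 1) =
      ((x.reverse.map some ++ none :: w.reverse.map some)[i]?).map (fun a => some (sy a)) := by
  rw [ct_succ, ← List.map_reverse, encPair_reverse, List.getElem?_map, Option.map_map]
  rfl

theorem ct_input1 {A : Type} (sy : Sym → A) (x w : List Bool) (i : ℕ) (hi : i < x.length) :
    ct ((encPair (x, w)).map sy) (i + 1) = some (some (sy (some (x.reverse[i]'(by simpa using hi))))) := by
  rw [ct_input, List.getElem?_append_left (by simpa using hi)]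
  simp [hi]

theorem ct_input2 {A : Type} (sy : Sym → A) (x w : List Bool) :
    ct ((encPair (x, w)).map sy) (x.length + 1) = some (some (sy none)) := by
  rw [ct_input, List.getElem?_append_right (by simp)]
  simp

theorem ct_input3 {A : Type} (sy : Sym → A) (x w : List Bool) (j : ℕ) :
    ct ((encPair (x, w)).map sy) (x.length + 2 + j) =
      (w.reverse[j]?).map (fun b => some (sy (some b))) := by
  rw [show x.length + 2 + j = (x.length + 1 + j) + 1 by ring, ct_input,
    List.getElem?_append_right (by simp; omega)]
  rw [show x.length + 1 + j - (x.reverse.map some).length = j + 1 by simp; omega]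
  rw [List.getElem?_cons_succ, List.getElem?_map, Option.map_map]
  rfl

theorem prep_getElem (x : List Bool) (i : ℕ) (hi : i < x.length) :
    (false :: x.reverse)[i + 1]? = some (x.reverse[i]'(by simpa using hi)) := by
  rw [List.getElem?_cons_succ]
  exact List.getElem?_eq_getElem (by simpa using hi)

/-- Reading the certificate off the first row. -/
theorem read_cert {A : Type} (sy : Sym → A) (x : List Bool) (p N : ℕ) (hN : x.length + 2 + p ≤ N)
    (C : ℕ → Option (Option A)) (h0 : C 0 = some none)
    (h1 : ∀ i, ∀ hi : i < x.length, C (i + 1) = some (some (sy (some (x.reverse[i]'(by simpa using hi))))))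
    (h2 : C (x.length + 1) = some (some (sy none)))
    (h3 : ∀ j < p, C (x.length + 2 + j) = none ∨ ∃ b : Bool, C (x.length + 2 + j) = some (some (sy (some b))))
    (h4 : ∀ i, x.length + 2 + p ≤ i → i < N + 2 → C i = none)
    (h5 : ∀ i < N, C (i + 1) = none → C (i + 2) = none) :
    ∃ w : List Bool, w.length ≤ p ∧ ∀ i < N + 2, C i = ct ((encPair (x, w)).map sy) i := by
  classical
  have hex : ∃ j, C (x.length + 2 + j) = none := ⟨p, h4 _ le_rfl (by omega)⟩
  set m := Nat.find hex with hm
  have hmp : m ≤ p := Nat.find_min' hex (h4 _ le_rfl (by omega))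
  have hlt : ∀ j < m, ∃ b : Bool, C (x.length + 2 + j) = some (some (sy (some b))) := by
    intro j hj
    rcases h3 j (by omega) with h | h
    · exact absurd h (Nat.find_min hex hj)
    · exact h
  have hge : ∀ j, x.length + 2 + m + j < N + 2 → C (x.length + 2 + m + j) = none := by
    intro j
    induction j with
    | zero => intro _; exact Nat.find_spec hex
    | succ j ih =>
      intro hj
      have := ih (by omega)
      rw [show x.length + 2 + m + (j + 1) = (x.length + 1 + m + j) + 2 by ring]
      apply h5 _ (by omega)
      rw [show x.length + 1 + m + j + 1 = x.length + 2 + m + j by ring]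
      exact this
  have hb : ∃ b : ℕ → Bool, ∀ j < m, C (x.length + 2 + j) = some (some (sy (some (b j)))) := by
    have : ∀ j, ∃ b : Bool, j < m → C (x.length + 2 + j) = some (some (sy (some b))) := by
      intro j
      by_cases h : j < m
      · obtain ⟨b, hb⟩ := hlt j h; exact ⟨b, fun _ => hb⟩
      · exact ⟨false, fun h' => absurd h' h⟩
    choose b hb using this
    exact ⟨b, hb⟩
  obtain ⟨b, hb⟩ := hb
  refine ⟨((List.range m).map b).reverse, by simpa using hmp, ?_⟩
  intro i hi
  rcases i with _ | i
  · rw [h0, ct_zero]
  · rcases Nat.lt_trichotomy i x.length with h | h | h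
    · rw [ct_input1 sy x _ i h, h1 i h]
    · rw [h, ct_input2, h2]
    · obtain ⟨j, rfl⟩ : ∃ j, i = x.length + 1 + j := ⟨i - (x.length + 1), by omega⟩
      rw [show x.length + 1 + j + 1 = x.length + 2 + j by ring, ct_input3, List.reverse_reverse]
      rcases Nat.lt_or_ge j m with hj | hj
      · rw [hb j hj]
        simp [hj]
      · rw [List.getElem?_eq_none (by simpa using hj)]
        obtain ⟨l, rfl⟩ : ∃ l, j = m + l := ⟨j - m, by omega⟩
        rw [show x.length + 2 + (m + l) = x.length + 2 + m + l by ring]
        exact hge l (by omega)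

namespace Mach

variable (M : Mach) (q0 : M.Q) (k₀ k₁ : M.K) (sy : Sym → M.Γ k₀) (ac : M.Γ k₁)

/-- The run of the machine gives a correct tableau. -/
theorem solves_of_run [DecidableEq M.K] (x w : List Bool) (p N : ℕ)
    (hw : w.length ≤ p)
    (hH : ∀ t k, ((M.conf q0 k₀ sy (encPair (x, w)) t).2 k).length < N)
    (hacc : ct ((M.conf q0 k₀ sy (encPair (x, w)) (N + 1)).2 k₁) 1 = some (some ac)) :
    ∃ z, M.Solves q0 k₀ k₁ sy ac (x.length + 1) (x.length + 2 + p) N (false :: x.reverse) z := by
  refine ⟨fun t i => (((M.conf q0 k₀ sy (encPair (x, w)) t).1,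
    M.heads (M.conf q0 k₀ sy (encPair (x, w)) t).2),
    fun k => ct ((M.conf q0 k₀ sy (encPair (x, w)) t).2 k) i), ?_⟩
  intro t ht i hi
  constructor
  · -- allowed
    have hrow0 : ∀ k, (M.conf q0 k₀ sy (encPair (x, w)) 0).2 k =
        update (fun _ => []) k₀ ((encPair (x, w)).map sy) k := fun k => rfl
    have hinit : ∀ i, M.Init q0 k₀ (((M.conf q0 k₀ sy (encPair (x, w)) 0).1,
        M.heads (M.conf q0 k₀ sy (encPair (x, w)) 0).2),
        fun k => ct ((M.conf q0 k₀ sy (encPair (x, w)) 0).2 k) (i + 1)) := by
      intro i
      refine ⟨rfl, ?_⟩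
      intro k hk
      change ct ((M.conf q0 k₀ sy (encPair (x, w)) 0).2 k) (i + 1) = none
      rw [hrow0, update_of_ne hk, ct_eq_none]
      simp
    have hk0 : (M.conf q0 k₀ sy (encPair (x, w)) 0).2 k₀ = (encPair (x, w)).map sy := by
      rw [hrow0, update_self]
    unfold cls
    by_cases h1 : i < 1
    · rw [if_pos h1]
      obtain rfl : i = 0 := by omega
      by_cases h2 : t < 1
      · rw [if_pos h2]
        obtain rfl : t = 0 := by omega
        exact ⟨rfl, fun k => ct_zero _⟩
      · rw [if_neg h2]
        split_ifs
        · exact fun k => ct_zero _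
        · exact fun k => ct_zero _
    · rw [if_neg h1]
      obtain ⟨i, rfl⟩ : ∃ j, i = j + 1 := ⟨i - 1, by omega⟩
      by_cases h2 : i + 1 < N
      · rw [if_pos h2]
        by_cases h3 : t < 1
        · rw [if_pos h3]
          obtain rfl : t = 0 := by omega
          by_cases h4 : i + 1 < x.length + 1
          · rw [if_pos h4]
            rw [prep_getElem x i (by omega)]
            by_cases h5 : x.reverse[i]'(by simp; omega) = true
            · rw [if_pos (by rw [h5])]
              refine ⟨hinit i, ?_⟩
              change ct ((M.conf q0 k₀ sy (encPair (x, w)) 0).2 k₀) (i + 1) = _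
              rw [hk0, ct_input1 sy x w i (by omega), h5]
            · rw [if_neg (by simpa using h5)]
              refine ⟨hinit i, ?_⟩
              change ct ((M.conf q0 k₀ sy (encPair (x, w)) 0).2 k₀) (i + 1) = _
              rw [hk0, ct_input1 sy x w i (by omega)]
              rw [Bool.not_eq_true] at h5
              rw [h5]
          · rw [if_neg h4]
            by_cases h5 : i + 1 < x.length + 1 + 1
            · rw [if_pos h5]
              obtain rfl : i = x.length := by omega
              refine ⟨hinit _, ?_⟩
              change ct ((M.conf q0 k₀ sy (encPair (x, w)) 0).2 k₀) (x.length + 1) = _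
              rw [hk0, ct_input2]
            · rw [if_neg h5]
              obtain ⟨j, rfl⟩ : ∃ j, i = x.length + 1 + j := ⟨i - (x.length + 1), by omega⟩
              have hc : ct ((M.conf q0 k₀ sy (encPair (x, w)) 0).2 k₀) (x.length + 1 + j + 1) =
                  (w.reverse[j]?).map (fun b => some (sy (some b))) := by
                rw [hk0, show x.length + 1 + j + 1 = x.length + 2 + j by ring, ct_input3]
              by_cases h6 : x.length + 1 + j + 1 < x.length + 2 + p
              · rw [if_pos h6]
                refine ⟨hinit _, ?_⟩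
                change ct ((M.conf q0 k₀ sy (encPair (x, w)) 0).2 k₀) (x.length + 1 + j + 1) = none ∨
                  ∃ b : Bool, ct ((M.conf q0 k₀ sy (encPair (x, w)) 0).2 k₀) (x.length + 1 + j + 1) = _
                rw [hc]
                rcases w.reverse[j]? with _ | b
                · left; rfl
                · right; exact ⟨b, rfl⟩
              · rw [if_neg h6]
                refine ⟨hinit _, ?_⟩
                change ct ((M.conf q0 k₀ sy (encPair (x, w)) 0).2 k₀) (x.length + 1 + j + 1) = none
                rw [hc, List.getElem?_eq_none (by simp; omega)]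
                rfl
        · rw [if_neg h3]
          by_cases h4 : t < N + 1
          · rw [if_pos h4]; trivial
          · rw [if_neg h4]
            by_cases h5 : i + 1 < 2
            · rw [if_pos h5]
              obtain rfl : i = 0 := by omega
              obtain rfl : t = N + 1 := by omega
              exact hacc
            · rw [if_neg h5]; trivial
      · rw [if_neg h2]
        intro k
        change ct ((M.conf q0 k₀ sy (encPair (x, w)) t).2 k) (i + 1) = none
        rw [ct_eq_none]
        have := hH t k
        omega
  · intro _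
    refine ⟨rfl, ?_, ?_, ?_, ?_⟩
    · change (M.conf q0 k₀ sy (encPair (x, w)) (t + 1)).1 = _
      rw [conf_succ]
      rfl
    · intro k ha hb
      change ct ((M.conf q0 k₀ sy (encPair (x, w)) t).2 k) i ≠ none at ha
      change ct ((M.conf q0 k₀ sy (encPair (x, w)) t).2 k) (i + 1) = none at hb
      change ct ((M.conf q0 k₀ sy (encPair (x, w)) t).2 k) i = some _
      rw [ne_eq, ct_eq_none] at ha
      rw [ct_eq_none] at hb
      have : ((M.conf q0 k₀ sy (encPair (x, w)) t).2 k).length = i := by omega
      rw [← this, ct_top]
      rfl
    · intro k hb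
      change ct ((M.conf q0 k₀ sy (encPair (x, w)) t).2 k) (i + 1) = none at hb
      change ct ((M.conf q0 k₀ sy (encPair (x, w)) t).2 k) (i + 2) = none
      rw [ct_eq_none] at hb ⊢
      omega
    · intro k
      change ct ((M.conf q0 k₀ sy (encPair (x, w)) (t + 1)).2 k) (i + 1) = _
      rw [conf_succ]
      exact ct_app _ _ _

/-- A correct tableau gives an accepting run. -/
theorem run_of_solves [DecidableEq M.K] (x : List Bool) (p N : ℕ) (hN : x.length + 2 + p ≤ N)
    (hH : ∀ w : List Bool, w.length ≤ p → ∀ t k, ((M.conf q0 k₀ sy (encPair (x, w)) t).2 k).length < N)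
    (z : ℕ → ℕ → M.Cell)
    (hz : M.Solves q0 k₀ k₁ sy ac (x.length + 1) (x.length + 2 + p) N (false :: x.reverse) z) :
    ∃ w : List Bool, w.length ≤ p ∧
      ct ((M.conf q0 k₀ sy (encPair (x, w)) (N + 1)).2 k₁) 1 = some (some ac) := by
  -- windows
  have hW : ∀ t < N + 1, ∀ i < N, M.W (z t i) (z t (i + 1)) (z t (i + 2)) (z (t + 1) (i + 1)) := by
    intro t ht i hi
    apply (hz t (by omega) i (by omega)).2
    unfold cls
    by_cases h1 : i < 1
    · rw [if_pos h1]
      by_cases h2 : t < 1
      · rw [if_pos h2]; rfl
      · rw [if_neg h2, if_pos ht]; rfl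
    · rw [if_neg h1, if_pos hi]
      by_cases h2 : t < 1
      · rw [if_pos h2]
        split_ifs <;> rfl
      · rw [if_neg h2, if_pos ht]; rfl
  -- row 0
  have hrow : ∀ i, 0 < i → i < N → M.allow q0 k₀ k₁ sy ac
      (if i < x.length + 1 then (if (false :: x.reverse)[i]? = some true then .r1 else .r0)
        else if i < x.length + 1 + 1 then .rsep
        else if i < x.length + 2 + p then .rw
        else .rblank) (z 0 i) := by
    intro i h0 hi
    have := (hz 0 (by omega) i (by omega)).1
    unfold cls at this
    rw [if_neg (by omega), if_pos hi, if_pos (by omega)] at this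
    exact this
  have hinit : ∀ i, 0 < i → i < N → M.Init q0 k₀ (z 0 i) := by
    intro i h0 hi
    have := hrow i h0 hi
    split_ifs at this <;> exact this.1
  have hR : ∀ t < N + 2, ∀ i, N ≤ i → i < N + 2 → ∀ k, (z t i).2 k = none := by
    intro t ht i hi hi2
    have := (hz t ht i hi2).1
    unfold cls at this
    rw [if_neg (by omega), if_neg (by omega)] at this
    exact this
  have hL : ∀ t < N + 2, ∀ k, (z t 0).2 k = some none := by
    intro t ht k
    have := (hz t ht 0 (by omega)).1
    unfold cls at this
    rw [if_pos (by omega)] at this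
    split_ifs at this
    · exact this.2 k
    · exact this k
    · exact this k
  obtain ⟨w, hw, hC⟩ := read_cert sy x p N hN (fun i => (z 0 i).2 k₀) (hL 0 (by omega) k₀)
    (by
      intro i hi
      have := hrow (i + 1) (by omega) (by omega)
      rw [if_pos (by omega), prep_getElem x i hi] at this
      split_ifs at this with h
      · rw [Option.some.injEq] at h
        rw [h]; exact this.2
      · rw [Option.some.injEq, Bool.not_eq_true] at h
        rw [h]; exact this.2)
    (by
      have := hrow (x.length + 1) (by omega) (by omega)
      rw [if_neg (by omega), if_pos (by omega)] at this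
      exact this.2)
    (by
      intro j hj
      have := hrow (x.length + 2 + j) (by omega) (by omega)
      rw [if_neg (by omega), if_neg (by omega), if_pos (by omega)] at this
      exact this.2)
    (by
      intro i hi hi2
      rcases Nat.lt_or_ge i N with h | h
      · have := hrow i (by omega) h
        rw [if_neg (by omega), if_neg (by omega), if_neg (by omega)] at this
        exact this.2
      · exact hR 0 (by omega) i h hi2 k₀)
    (fun i hi h => (hW 0 (by omega) i hi).2.2.2.1 k₀ h)
  refine ⟨w, hw, ?_⟩
  -- the rows are the configurations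
  have key : ∀ t < N + 2, (z t 1).1.1 = (M.conf q0 k₀ sy (encPair (x, w)) t).1 ∧
      ∀ i < N + 2, ∀ k, (z t i).2 k = ct ((M.conf q0 k₀ sy (encPair (x, w)) t).2 k) i := by
    intro t
    induction t with
    | zero =>
      intro _
      refine ⟨(hinit 1 one_pos (by omega)).1, ?_⟩
      intro i hi k
      change _ = ct (update (fun _ => []) k₀ ((encPair (x, w)).map sy) k) i
      by_cases hk : k = k₀
      · subst hk
        rw [update_self]
        exact hC i hi
      · rw [update_of_ne hk]
        rcases i with _ | i
        · rw [hL 0 (by omega) k, ct_zero]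
        · have h1 : ct ([] : List (M.Γ k)) (i + 1) = none := by rw [ct_eq_none]; simp
          rw [h1]
          rcases Nat.lt_or_ge (i + 1) N with h | h
          · exact (hinit (i + 1) (by omega) h).2 k hk
          · exact hR 0 (by omega) (i + 1) h hi k
    | succ t ih =>
      intro ht
      obtain ⟨ih1, ih2⟩ := ih (by omega)
      -- all cells of the row have the same global information
      have hg : ∀ i ≤ N, (z t i).1 = (z t 1).1 := by
        intro i
        induction i with
        | zero => intro _; exact (hW t (by omega) 0 (by omega)).1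
        | succ i ihi =>
          intro hi
          rw [← ihi (by omega)]
          exact ((hW t (by omega) i (by omega)).1).symm
      have hq : ∀ i ≤ N, (z t i).1.1 = (M.conf q0 k₀ sy (encPair (x, w)) t).1 := by
        intro i hi
        rw [hg i hi, ih1]
      have htop : ∀ i ≤ N, (z t i).1.2 = M.heads (M.conf q0 k₀ sy (encPair (x, w)) t).2 := by
        intro i hi
        funext k
        have hlen := hH w hw t k
        set L := ((M.conf q0 k₀ sy (encPair (x, w)) t).2 k).length with hL'
        have h1 := (hW t (by omega) L hlen).2.2.1 k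
          (by
            rw [ih2 L (by omega) k, ne_eq, ct_eq_none]
            omega)
          (by
            rw [ih2 (L + 1) (by omega) k, ct_eq_none]
            omega)
        rw [ih2 L (by omega) k, hL', ct_top] at h1
        rw [hg i hi, ← hg (L + 1) (by omega)]
        have h2 := Option.some.inj h1
        rw [← hL'] at h2
        exact h2.symm
      have hnext : ∀ i < N, ∀ k, (z (t + 1) (i + 1)).2 k =
          ct ((M.conf q0 k₀ sy (encPair (x, w)) (t + 1)).2 k) (i + 1) := by
        intro i hi k
        rw [(hW t (by omega) i hi).2.2.2.2 k, hq (i + 1) (by omega), htop (i + 1) (by omega),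
          ih2 i (by omega) k, ih2 (i + 1) (by omega) k, ih2 (i + 2) (by omega) k, conf_succ]
        exact (ct_app _ _ _).symm
      refine ⟨?_, ?_⟩
      · have := (hW t (by omega) 0 (by omega)).2.1
        rw [hq 1 (by omega), htop 1 (by omega)] at this
        rw [conf_succ]
        exact this
      · intro i hi k
        rcases i with _ | i
        · rw [hL (t + 1) ht k, ct_zero]
        · rcases Nat.lt_or_ge i N with h | h
          · exact hnext i h k
          · rw [hR (t + 1) ht (i + 1) (by omega) hi k]
            symm
            rw [ct_eq_none]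
            have := hH w hw (t + 1) k
            omega
  obtain ⟨-, h2⟩ := key (N + 1) (by omega)
  rw [← h2 1 (by omega) k₁]
  have := (hz (N + 1) (by omega) 1 (by omega)).1
  unfold cls at this
  rw [if_neg (by omega), if_pos (by omega), if_neg (by omega), if_neg (by omega),
    if_pos (by omega)] at this
  exact this

theorem solves_iff [DecidableEq M.K] (x : List Bool) (p N : ℕ) (hN : x.length + 2 + p ≤ N)
    (hH : ∀ w : List Bool, w.length ≤ p → ∀ t k,
      ((M.conf q0 k₀ sy (encPair (x, w)) t).2 k).length < N) :
    (∃ z, M.Solves q0 k₀ k₁ sy ac (x.length + 1) (x.length + 2 + p) N (false :: x.reverse) z) ↔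
      ∃ w : List Bool, w.length ≤ p ∧
        ct ((M.conf q0 k₀ sy (encPair (x, w)) (N + 1)).2 k₁) 1 = some (some ac) := by
  constructor
  · rintro ⟨z, hz⟩
    exact M.run_of_solves q0 k₀ k₁ sy ac x p N hN hH z hz
  · rintro ⟨w, hw, h⟩
    exact M.solves_of_run q0 k₀ k₁ sy ac x w p N hw (hH w hw) h

end Mach

end NPC
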